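import Pool.Agent.Helper18.UC.Basic

/-! Block UC-CELL: dyadic cells on the torus.

`rep z ∈ [0,1)²` is the representative of `z`, `cell k z` the dyadic cell of level `k` around `z`.
* `toT_rep`, `rep_toT`: `AddCircle.coe_equivIco`, `AddCircle.coe_eq_coe_iff_of_mem_Ico` and so on.
* `vol_rep`: `AddCircle.measurePreserving_mk` (with `Ioc`, or `AddCircle.measurableEquivIco` if available; the boundary has measure
  zero), product measures (`MeasurePreserving.prod`).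
* `vol_cell`: the cell is `rep ⁻¹'` of a half open square of side `2^-k` inside `[0,1)²`.
* `cell_nest`: `⌊x⌋ = ⌊⌊2 x⌋ / 2⌋` (`Int.floor_...`): equal indices at level `k+1` imply equal indices at level `k`.
* `exists_family`: for `q` in `U = ⋃ z ∈ W, cell (lev z) z` let `κ q` be the least `k` such that `q ∈ cell (lev z) z` for some `z ∈ W` with
  `lev z = k`. The family `𝒬 = {cell (κ q) q | q ∈ U}`: each member is `cell (lev z) z` for some `z ∈ W`; if two members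
  `cell (κ q) q` and `cell (κ q') q'` meet, they are nested (by `cell_nest`), say `κ q ≤ κ q'`, so `q' ∈ cell (κ q) q` and by minimality
  `κ q' ≤ κ q`, hence they are equal. Countable: there are countably many cells (indexed by `k` and `idx`). -/

set_option autoImplicit false
open MeasureTheory Real Set

namespace Pool.Agent.Helper18.UC

abbrev T2 := UnitAddCircle × UnitAddCircle

/-- representative in `[0,1)²` -/
noncomputable def rep (z : T2) : ℝ × ℝ :=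
  ((AddCircle.equivIco (1:ℝ) 0 z.1 : ℝ), (AddCircle.equivIco (1:ℝ) 0 z.2 : ℝ))

/-- projection of the plane to the torus -/
def toT (q : ℝ × ℝ) : T2 := ((q.1 : UnitAddCircle), (q.2 : UnitAddCircle))

/-- dyadic index -/
noncomputable def idx (k : ℕ) (z : T2) : ℤ × ℤ := (⌊2 ^ k * (rep z).1⌋, ⌊2 ^ k * (rep z).2⌋)

/-- dyadic cell -/
def cell (k : ℕ) (z : T2) : Set T2 := {w | idx k w = idx k z}

/-- lower left corner of the cell -/
noncomputable def corner (k : ℕ) (z : T2) : ℝ × ℝ :=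
  ((idx k z).1 / 2 ^ k, (idx k z).2 / 2 ^ k)

private theorem equivIco_mem (x : UnitAddCircle) :
    (AddCircle.equivIco (1:ℝ) 0 x : ℝ) ∈ Ico (0:ℝ) 1 := by
  obtain ⟨h1, h2⟩ := (AddCircle.equivIco (1:ℝ) 0 x).2
  exact ⟨h1, lt_of_lt_of_eq h2 (zero_add 1)⟩

private theorem equivIco_fract (x : ℝ) :
    (AddCircle.equivIco (1:ℝ) 0 (x : UnitAddCircle) : ℝ) = x + ((-⌊x⌋ : ℤ) : ℝ) := by
  have h := AddCircle.coe_equivIco_mk_apply (1:ℝ) x
  rw [div_one, mul_one] at h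
  rw [show (AddCircle.equivIco (1:ℝ) 0 (x : UnitAddCircle) : ℝ) = Int.fract x from h]
  push_cast
  rw [Int.fract]
  ring

private theorem coe_int_add (x : ℝ) (u : ℤ) :
    ((x + u : ℝ) : UnitAddCircle) = (x : UnitAddCircle) := by
  have h : ((u : ℝ) : UnitAddCircle) = 0 :=
    (AddCircle.coe_eq_zero_iff (1:ℝ)).mpr ⟨u, by simp⟩
  rw [AddCircle.coe_add, h, add_zero]

theorem rep_mem (z : T2) : rep z ∈ Ico (0:ℝ) 1 ×ˢ Ico (0:ℝ) 1 :=
  ⟨equivIco_mem z.1, equivIco_mem z.2⟩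

theorem toT_rep (z : T2) : toT (rep z) = z :=
  Prod.ext AddCircle.coe_equivIco AddCircle.coe_equivIco

theorem rep_toT (q : ℝ × ℝ) : ∃ u w : ℤ, rep (toT q) = sh q u w :=
  ⟨-⌊q.1⌋, -⌊q.2⌋, Prod.ext (equivIco_fract q.1) (equivIco_fract q.2)⟩

theorem toT_sh (q : ℝ × ℝ) (u w : ℤ) : toT (sh q u w) = toT q :=
  Prod.ext (coe_int_add q.1 u) (coe_int_add q.2 w)

private theorem sh_sh (q : ℝ × ℝ) (u w u' w' : ℤ) :
    sh (sh q u w) u' w' = sh q (u + u') (w + w') := by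
  unfold sh
  refine Prod.ext ?_ ?_
  · push_cast
    ring
  · push_cast
    ring

private theorem sh_zero (q : ℝ × ℝ) : sh q 0 0 = q := by
  unfold sh
  simp

theorem toT_eq_iff (q q' : ℝ × ℝ) : toT q = toT q' ↔ ∃ u w : ℤ, q = sh q' u w := by
  constructor
  · intro h
    obtain ⟨u, w, h1⟩ := rep_toT q
    obtain ⟨u', w', h2⟩ := rep_toT q'
    rw [h] at h1
    have h3 : sh q u w = sh q' u' w' := h1.symm.trans h2
    have h4 := congrArg (fun p => sh p (-u) (-w)) h3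
    simp only [sh_sh, add_neg_cancel, sh_zero] at h4
    exact ⟨_, _, h4⟩
  · rintro ⟨u, w, rfl⟩
    exact toT_sh _ _ _

theorem measurable_rep : Measurable rep := by
  have h : Measurable (fun x : UnitAddCircle => (AddCircle.equivIco (1:ℝ) 0 x : ℝ)) :=
    measurable_subtype_coe.comp (AddCircle.measurableEquivIco (1:ℝ) 0).measurable
  exact (h.comp measurable_fst).prodMk (h.comp measurable_snd)

theorem measurable_toT : Measurable toT :=
  (AddCircle.measurable_mk'.comp measurable_fst).prodMk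
    (AddCircle.measurable_mk'.comp measurable_snd)

private theorem rep_toT_of_mem {q : ℝ × ℝ} (hq : q ∈ Ico (0:ℝ) 1 ×ˢ Ico (0:ℝ) 1) :
    rep (toT q) = q := by
  have h1 : q.1 ∈ Ico (0:ℝ) (0 + 1) := by rw [zero_add]; exact hq.1
  have h2 : q.2 ∈ Ico (0:ℝ) (0 + 1) := by rw [zero_add]; exact hq.2
  exact Prod.ext (AddCircle.equivIco_coe_of_mem h1) (AddCircle.equivIco_coe_of_mem h2)

private theorem mp_toT : MeasurePreserving toT
    (volume.restrict (Ico (0:ℝ) 1 ×ˢ Ico (0:ℝ) 1)) volume := by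
  have h : MeasurePreserving (β := UnitAddCircle) ((↑) : ℝ → UnitAddCircle)
      (volume.restrict (Ico (0:ℝ) 1)) volume := by
    have h1 := UnitAddCircle.measurePreserving_mk 0
    rw [zero_add] at h1
    rwa [Measure.restrict_congr_set Ico_ae_eq_Ioc]
  have h2 := h.prod h
  rw [Measure.prod_restrict] at h2
  exact h2

theorem vol_rep {S : Set (ℝ × ℝ)} (hS : MeasurableSet S) :
    volume (rep ⁻¹' S) = volume (S ∩ (Ico (0:ℝ) 1 ×ˢ Ico (0:ℝ) 1)) := by
  have hm : MeasurableSet (rep ⁻¹' S) := measurable_rep hS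
  rw [← mp_toT.measure_preimage hm.nullMeasurableSet, Measure.restrict_apply (measurable_toT hm)]
  congr 1
  ext q
  constructor
  · rintro ⟨h1, h2⟩
    have h3 : rep (toT q) ∈ S := h1
    rw [rep_toT_of_mem h2] at h3
    exact ⟨h3, h2⟩
  · rintro ⟨h1, h2⟩
    refine ⟨?_, h2⟩
    show rep (toT q) ∈ S
    rw [rep_toT_of_mem h2]
    exact h1

theorem mem_cell_self (k : ℕ) (z : T2) : z ∈ cell k z := rfl

private theorem floor_iff (k : ℕ) (x : ℝ) (n : ℤ) :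
    ⌊2 ^ k * x⌋ = n ↔ x ∈ Ico ((n : ℝ) / 2 ^ k) ((n : ℝ) / 2 ^ k + 1 / 2 ^ k) := by
  have hp : (0:ℝ) < 2 ^ k := by positivity
  rw [Int.floor_eq_iff, Set.mem_Ico, ← add_div, div_le_iff₀ hp, lt_div_iff₀ hp, mul_comm]

theorem mem_cell_iff (k : ℕ) (z w : T2) : w ∈ cell k z ↔ rep w ∈ sqo (corner k z) (1 / 2 ^ k) := by
  show idx k w = idx k z ↔ _
  unfold sqo corner
  rw [Set.mem_prod, ← floor_iff, ← floor_iff, Prod.ext_iff]
  rfl

private theorem one_cell (k : ℕ) {x y : ℝ} (hx : x ∈ Ico (0:ℝ) 1)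
    (hy : y ∈ Ico ((⌊2 ^ k * x⌋ : ℝ) / 2 ^ k) ((⌊2 ^ k * x⌋ : ℝ) / 2 ^ k + 1 / 2 ^ k)) :
    y ∈ Ico (0:ℝ) 1 := by
  have hp : (0:ℝ) < 2 ^ k := by positivity
  obtain ⟨h1, h2⟩ := hx
  obtain ⟨h3, h4⟩ := hy
  have h5 : (0:ℤ) ≤ ⌊2 ^ k * x⌋ := Int.floor_nonneg.mpr (mul_nonneg hp.le h1)
  have h6 : (0:ℝ) ≤ (⌊2 ^ k * x⌋ : ℝ) := by exact_mod_cast h5
  have h7 : ⌊2 ^ k * x⌋ < 2 ^ k := by
    rw [Int.floor_lt]
    push_cast
    exact mul_lt_of_lt_one_right hp h2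
  have h8 : (⌊2 ^ k * x⌋ : ℝ) + 1 ≤ 2 ^ k := by exact_mod_cast h7
  refine ⟨(div_nonneg h6 hp.le).trans h3, ?_⟩
  rw [← add_div] at h4
  exact lt_of_lt_of_le h4 ((div_le_one hp).mpr h8)

theorem cell_sub (k : ℕ) (z : T2) :
    sqo (corner k z) (1 / 2 ^ k) ⊆ Ico (0:ℝ) 1 ×ˢ Ico (0:ℝ) 1 := by
  rintro q ⟨h1, h2⟩
  exact ⟨one_cell k (rep_mem z).1 h1, one_cell k (rep_mem z).2 h2⟩

private theorem cell_eq (k : ℕ) (z : T2) :
    cell k z = rep ⁻¹' (sqo (corner k z) (1 / 2 ^ k)) := by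
  ext w
  exact mem_cell_iff k z w

private theorem measurableSet_sqo (c : ℝ × ℝ) (s : ℝ) : MeasurableSet (sqo c s) :=
  measurableSet_Ico.prod measurableSet_Ico

theorem measurableSet_cell (k : ℕ) (z : T2) : MeasurableSet (cell k z) := by
  rw [cell_eq]
  exact measurable_rep (measurableSet_sqo _ _)

theorem vol_cell (k : ℕ) (z : T2) : volume (cell k z) = ENNReal.ofReal ((1 / 2 ^ k) ^ 2) := by
  have hp : (0:ℝ) ≤ 1 / 2 ^ k := by positivity
  rw [cell_eq, vol_rep (measurableSet_sqo _ _), Set.inter_eq_left.mpr (cell_sub k z)]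
  unfold sqo
  rw [Measure.volume_eq_prod, Measure.prod_prod, Real.volume_Ico, Real.volume_Ico,
    add_sub_cancel_left, add_sub_cancel_left, sq, ENNReal.ofReal_mul hp]

private theorem floor_nest {k l : ℕ} (hkl : k ≤ l) (x : ℝ) :
    ⌊2 ^ k * x⌋ = ⌊2 ^ l * x⌋ / 2 ^ (l - k) := by
  obtain ⟨d, rfl⟩ := Nat.exists_eq_add_of_le hkl
  rw [Nat.add_sub_cancel_left]
  have hd : (0:ℤ) < 2 ^ d := by positivity
  have hdr : (0:ℝ) < 2 ^ d := by positivity
  set m : ℤ := ⌊2 ^ (k + d) * x⌋ with hm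
  have h1 : (m : ℝ) ≤ 2 ^ (k + d) * x := Int.floor_le _
  have h2 : 2 ^ (k + d) * x < (m : ℝ) + 1 := Int.lt_floor_add_one _
  have h3 : m / 2 ^ d * 2 ^ d ≤ m := Int.ediv_mul_le m hd.ne'
  have h4 : m < (m / 2 ^ d + 1) * 2 ^ d := Int.lt_ediv_add_one_mul_self m hd
  have h5 : ((m / 2 ^ d : ℤ) : ℝ) * 2 ^ d ≤ (m : ℝ) := by exact_mod_cast h3
  have h6 : (m : ℝ) + 1 ≤ (((m / 2 ^ d : ℤ) : ℝ) + 1) * 2 ^ d := by exact_mod_cast h4
  have e : (2:ℝ) ^ (k + d) * x = 2 ^ k * x * 2 ^ d := by rw [pow_add]; ring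
  rw [e] at h1 h2
  rw [Int.floor_eq_iff]
  constructor
  · exact le_of_mul_le_mul_right (h5.trans h1) hdr
  · exact lt_of_mul_lt_mul_right (lt_of_lt_of_le h2 h6) hdr.le

theorem cell_nest {k l : ℕ} (hkl : k ≤ l) {z w : T2} (h : w ∈ cell l z) : w ∈ cell k z := by
  have h0 : idx l w = idx l z := h
  have h1 : ⌊2 ^ l * (rep w).1⌋ = ⌊2 ^ l * (rep z).1⌋ := congrArg Prod.fst h0
  have h2 : ⌊2 ^ l * (rep w).2⌋ = ⌊2 ^ l * (rep z).2⌋ := congrArg Prod.snd h0
  show idx k w = idx k z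
  unfold idx
  rw [floor_nest hkl (rep w).1, floor_nest hkl (rep w).2, floor_nest hkl (rep z).1,
    floor_nest hkl (rep z).2, h1, h2]

theorem exists_family (W : Set T2) (lev : T2 → ℕ) :
    ∃ 𝒬 : Set (Set T2), 𝒬.Countable ∧ 𝒬.PairwiseDisjoint id ∧
      (∀ Q ∈ 𝒬, ∃ z ∈ W, Q = cell (lev z) z) ∧ W ⊆ ⋃₀ 𝒬 := by
  classical
  -- levels available at a point
  let P : T2 → Set ℕ := fun q => {k | ∃ z ∈ W, lev z = k ∧ q ∈ cell k z}
  let κ : T2 → ℕ := fun q => sInf (P q)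
  have hκ : ∀ q, (P q).Nonempty → κ q ∈ P q := fun q h => Nat.sInf_mem h
  have hcell : ∀ (k : ℕ) (q z : T2), q ∈ cell k z → cell k q = cell k z := by
    intro k q z h
    have h0 : idx k q = idx k z := h
    unfold cell
    rw [h0]
  refine ⟨{Q | ∃ q, (P q).Nonempty ∧ Q = cell (κ q) q}, ?_, ?_, ?_, ?_⟩
  · refine Set.Countable.mono ?_ (Set.countable_range
      (fun p : ℕ × (ℤ × ℤ) => {w : T2 | idx p.1 w = p.2}))
    rintro Q ⟨q, -, rfl⟩
    exact ⟨(κ q, idx (κ q) q), rfl⟩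
  · -- two members that meet are equal
    have key : ∀ q q' : T2, (P q).Nonempty → (P q').Nonempty → κ q ≤ κ q' →
        (∃ x, x ∈ cell (κ q) q ∧ x ∈ cell (κ q') q') → cell (κ q) q = cell (κ q') q' := by
      rintro q q' hq hq' hle ⟨x, hx, hx'⟩
      have h1 : x ∈ cell (κ q) q' := cell_nest hle hx'
      have h2 : cell (κ q) q = cell (κ q) q' :=
        (hcell _ _ _ hx).symm.trans (hcell _ _ _ h1)
      obtain ⟨z, hz, hz1, hz2⟩ := hκ q hq
      have h3 : q' ∈ cell (κ q) z := by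
        rw [← hcell _ _ _ hz2, h2]
        exact mem_cell_self _ _
      have h4 : κ q' ≤ κ q := Nat.sInf_le ⟨z, hz, hz1, h3⟩
      have h5 : κ q = κ q' := le_antisymm hle h4
      rw [h2, h5]
    rintro Q ⟨q, hq, rfl⟩ Q' ⟨q', hq', rfl⟩ hne
    show Disjoint (cell (κ q) q) (cell (κ q') q')
    rw [Set.disjoint_left]
    intro x hx hx'
    apply hne
    rcases le_total (κ q) (κ q') with h | h
    · exact key q q' hq hq' h ⟨x, hx, hx'⟩
    · exact (key q' q hq' hq h ⟨x, hx', hx⟩).symm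
  · rintro Q ⟨q, hq, rfl⟩
    obtain ⟨z, hz, hz1, hz2⟩ := hκ q hq
    exact ⟨z, hz, by rw [hz1]; exact hcell _ _ _ hz2⟩
  · intro z hz
    have hne : (P z).Nonempty := ⟨lev z, z, hz, rfl, mem_cell_self _ _⟩
    exact ⟨cell (κ z) z, ⟨z, hne, rfl⟩, mem_cell_self _ _⟩

end Pool.Agent.Helper18.UC
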