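import Mathlib

/-! Block UC-PLISS: many record times (Pliss).

`b i = g i - c1 i` has steps at most `A - c1`. Call `n ∈ [1, N]` a record if `b i ≤ b n` for all `i ≤ n`. Induction on `N`:
`b i ≤ b 0 + (A - c1) #(records in [1, N])` for all `i ≤ N`: if `N + 1` is a record, `b (N+1) ≤ b N + (A - c1)` and the
count goes up by one; if not, `b (N+1) < b i` for some `i ≤ N`. So `(c - c1) N ≤ b N ≤ b 0 + (A - c1) #records`. -/

set_option autoImplicit false
open Set

namespace Pool.Agent.Helper18.UC

theorem pliss {g : ℕ → ℝ} {c c1 A : ℝ} (hA : c1 < A) (hstep : ∀ i, g (i + 1) ≤ g i + A) {N : ℕ}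
    (hN : c * N ≤ g N) :
    (c - c1) / (A - c1) * N - g 0 / (A - c1) ≤
      (((Finset.Icc 1 N).filter (fun n : ℕ => ∀ i : ℕ, i ≤ n →
        c1 * ((n : ℝ) - (i : ℝ)) ≤ g n - g i)).card : ℝ) := by
  classical
  have key : ∀ M : ℕ, ∀ i ≤ M, g i - c1 * i ≤ g 0 + (A - c1) *
      (((Finset.Icc 1 M).filter (fun n : ℕ => ∀ i : ℕ, i ≤ n →
        c1 * ((n : ℝ) - (i : ℝ)) ≤ g n - g i)).card : ℝ) := by
    intro M
    induction M with
    | zero =>
      intro i hi
      obtain rfl : i = 0 := by omega
      simp
    | succ M ih =>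
      intro i hi
      have hA0 : 0 < A - c1 := by linarith
      have hins : Finset.Icc 1 (M + 1) = insert (M + 1) (Finset.Icc 1 M) := by
        ext x
        simp only [Finset.mem_Icc, Finset.mem_insert]
        omega
      have hnot : M + 1 ∉ (Finset.Icc 1 M).filter (fun n : ℕ => ∀ i : ℕ, i ≤ n →
          c1 * ((n : ℝ) - (i : ℝ)) ≤ g n - g i) := by
        intro h
        have := (Finset.mem_Icc.1 (Finset.mem_filter.1 h).1).2
        omega
      rw [hins, Finset.filter_insert]
      split_ifs with hrec
      · rw [Finset.card_insert_of_notMem hnot]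
        push_cast
        rcases Nat.lt_or_ge i (M + 1) with h | h
        · have h1 := ih i (by omega)
          nlinarith
        · obtain rfl : i = M + 1 := by omega
          have h1 := ih M le_rfl
          have h2 := hstep M
          push_cast
          nlinarith
      · rcases Nat.lt_or_ge i (M + 1) with h | h
        · exact ih i (by omega)
        · obtain rfl : i = M + 1 := by omega
          push Not at hrec
          obtain ⟨j, hj, hlt⟩ := hrec
          have hjM : j ≤ M := by
            rcases Nat.lt_or_ge j (M + 1) with h' | h'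
            · omega
            · obtain rfl : j = M + 1 := by omega
              simp at hlt
          have h1 := ih j hjM
          nlinarith
  have h1 := key N N le_rfl
  have hA0 : 0 < A - c1 := by linarith
  have h2 : ((c - c1) * N - g 0) ≤ (A - c1) *
      (((Finset.Icc 1 N).filter (fun n : ℕ => ∀ i : ℕ, i ≤ n →
        c1 * ((n : ℝ) - (i : ℝ)) ≤ g n - g i)).card : ℝ) := by nlinarith
  have h3 : (c - c1) / (A - c1) * N - g 0 / (A - c1) = ((c - c1) * N - g 0) / (A - c1) := by ring
  rw [h3, div_le_iff₀ hA0]
  linarith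

end Pool.Agent.Helper18.UC
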