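import Pool.Agent.Helper18.UC.Pos

/-! Block UC-EIG: from `pos` to eigenfunctions. (Abstract: only the hypothesis `hpos` is used.)

Let `h` be measurable with `h (S z) = ξ h z` for a.e. `z ∈ Ω`, `Ω` invariant, `S` measure preserving. Then
`h (S^[N] z) = ξ^N h z` for a.e. `z ∈ Ω` and all `N`. Call `w ∈ ℂ` essential if `volume (Ω ∩ h ⁻¹' ball w r) ≠ 0` for all `r > 0`.
(1) Almost every value is essential (`ℂ` is second countable: the set of non essential values is covered by countably many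
balls with null preimage). If there is no essential value, `vol Ω = 0` and any constant works.
(2) If `w`, `w'` are essential, then for every `r > 0` by `hpos` with `E = Ω ∩ h⁻¹ ball w r`, `E' = Ω ∩ h⁻¹ ball w' r`:
there are `N` and `z`, `z1 ∈ E` (outside the null sets) with `|ξ^N h z - w'| < r`, `|h z - w| < r`, `|ξ^(N+1) h z1 - w'| < r`,
`|h z1 - w| < r`.
(3) Let `w ≠ 0` be essential; take `w' = w` and `r < |w|/8`: `|ξ|^N` is in `[(|w| - r)/(|w| + r), (|w| + r)/(|w| - r)]` and so is `|ξ|^(N+1)`,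
hence `|ξ| ∈ [((|w|-r)/(|w|+r))², ((|w|+r)/(|w|-r))²]`; `r → 0` gives `|ξ| = 1`. Then `|ξ^N w - w| < 2 r`, `|ξ^(N+1) w - w| < 2 r`, so
`|ξ - 1| |w| ≤ |ξ^(N+1) w - ξ^N w| < 4 r`, and `ξ = 1`.
(4) If `w ≠ 0` and `w'` are both essential then `ξ = 1` and by (2) `|w - w'| < 2 r` for all `r`, so `w = w'`. Hence there is at most one
essential value (if `w`, `w'` are different one of them is not `0`), and `h` equals it a.e. on `Ω`. -/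

set_option autoImplicit false
open MeasureTheory Real Set Filter

namespace Pool.Agent.Helper18.UC

private lemma two50 {S : T2 → T2} (hmp : MeasurePreserving S volume volume) {Ω : Set T2}
    (hΩ : MeasurableSet Ω) (hinv : S ⁻¹' Ω = Ω)
    (hpos : ∀ E E' : Set T2, MeasurableSet E → MeasurableSet E' → E ⊆ Ω → E' ⊆ Ω →
      volume E ≠ 0 → volume E' ≠ 0 →
      ∃ N : ℕ, volume (E ∩ S^[N] ⁻¹' E') ≠ 0 ∧ volume (E ∩ S^[N + 1] ⁻¹' E') ≠ 0)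
    {ξ : ℂ} {h : T2 → ℂ} (hh : Measurable h) (heq : ∀ᵐ z, z ∈ Ω → h (S z) = ξ * h z)
    {w w' : ℂ} {r : ℝ} (hw : volume (Ω ∩ h ⁻¹' Metric.ball w r) ≠ 0)
    (hw' : volume (Ω ∩ h ⁻¹' Metric.ball w' r) ≠ 0) :
    ∃ (N : ℕ) (u u1 : ℂ), ‖u - w‖ < r ∧ ‖ξ ^ N * u - w'‖ < r ∧ ‖u1 - w‖ < r ∧
      ‖ξ ^ (N + 1) * u1 - w'‖ < r := by
  have hit : ∀ᵐ z, ∀ N : ℕ, S^[N] z ∈ Ω → h (S (S^[N] z)) = ξ * h (S^[N] z) :=
    ae_all_iff.2 fun N => (hmp.iterate N).quasiMeasurePreserving.ae heq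
  have hmem : ∀ z, z ∈ Ω → ∀ N : ℕ, S^[N] z ∈ Ω := by
    intro z hz N
    induction N with
    | zero => exact hz
    | succ N ih =>
      rw [Function.iterate_succ_apply']
      have : S^[N] z ∈ S ⁻¹' Ω := by rw [hinv]; exact ih
      exact this
  have hG : ∀ᵐ z, z ∈ Ω → ∀ N : ℕ, h (S^[N] z) = ξ ^ N * h z := by
    filter_upwards [hit] with z hz hzΩ N
    induction N with
    | zero => simp
    | succ N ih =>
      rw [Function.iterate_succ_apply', hz N (hmem z hzΩ N), ih, pow_succ]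
      ring
  have hm : ∀ v : ℂ, MeasurableSet (Ω ∩ h ⁻¹' Metric.ball v r) := fun v =>
    hΩ.inter (hh measurableSet_ball)
  obtain ⟨N, hN, hN1⟩ := hpos _ _ (hm w) (hm w') inter_subset_left inter_subset_left hw hw'
  have key : ∀ n : ℕ, volume ((Ω ∩ h ⁻¹' Metric.ball w r) ∩ S^[n] ⁻¹'
      (Ω ∩ h ⁻¹' Metric.ball w' r)) ≠ 0 → ∃ u : ℂ, ‖u - w‖ < r ∧ ‖ξ ^ n * u - w'‖ < r := by
    intro n hn
    obtain ⟨z, hz, hz'⟩ := (frequently_ae_mem_iff.2 hn).and_eventually hG |>.exists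
    refine ⟨h z, ?_, ?_⟩
    · have := hz.1.2
      rwa [mem_preimage, Metric.mem_ball, dist_eq_norm] at this
    · have := hz.2.2
      rwa [mem_preimage, Metric.mem_ball, dist_eq_norm, hz' hz.1.1 n] at this
  obtain ⟨u, hu, hu'⟩ := key N hN
  obtain ⟨u1, hu1, hu1'⟩ := key (N + 1) hN1
  exact ⟨N, u, u1, hu, hu', hu1, hu1'⟩

private lemma near50 {ξ w u : ℂ} {n : ℕ} {r : ℝ} (h1 : ‖u - w‖ < r) (h2 : ‖ξ ^ n * u - w‖ < r) :
    ‖ξ ^ n * w - w‖ ≤ (‖ξ ^ n‖ + 1) * r := by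
  have e : ξ ^ n * w - w = (ξ ^ n * u - w) - ξ ^ n * (u - w) := by ring
  have h3 := norm_sub_le (ξ ^ n * u - w) (ξ ^ n * (u - w))
  rw [← e, norm_mul] at h3
  have h4 : ‖ξ ^ n‖ * ‖u - w‖ ≤ ‖ξ ^ n‖ * r :=
    mul_le_mul_of_nonneg_left h1.le (norm_nonneg _)
  linarith

private lemma close50 {a : ℂ} {w : ℂ} {r : ℝ} (hw : 0 < ‖w‖) (hr : 8 * r ≤ ‖w‖)
    (h : ‖a * w - w‖ ≤ (‖a‖ + 1) * r) : ‖a‖ ≤ 9 / 7 ∧ 7 / 9 ≤ ‖a‖ := by
  have e : a * w - w = (a - 1) * w := by ring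
  rw [e, norm_mul] at h
  have h1 : ‖a‖ ≤ ‖a - 1‖ + 1 := by
    have := norm_add_le (a - 1) 1
    rwa [sub_add_cancel, norm_one] at this
  have h2 : 1 ≤ ‖a - 1‖ + ‖a‖ := by
    have := norm_sub_le a (a - 1)
    rw [sub_sub_cancel, norm_one] at this
    linarith
  have h3 : (‖a‖ + 1) * r ≤ (‖a‖ + 1) * (‖w‖ / 8) :=
    mul_le_mul_of_nonneg_left (by linarith) (by positivity)
  have h4 : ‖a - 1‖ * ‖w‖ ≤ ((‖a‖ + 1) / 8) * ‖w‖ := by linarith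
  have h5 := le_of_mul_le_mul_right h4 hw
  constructor <;> linarith

private lemma one50 {ξ w : ℂ} (hw : w ≠ 0) (h : ∀ r : ℝ, 0 < r →
    ∃ (N : ℕ) (u u1 : ℂ), ‖u - w‖ < r ∧ ‖ξ ^ N * u - w‖ < r ∧ ‖u1 - w‖ < r ∧
      ‖ξ ^ (N + 1) * u1 - w‖ < r) : ξ = 1 := by
  have hw0 : 0 < ‖w‖ := norm_pos_iff.2 hw
  by_contra hne
  have hd : 0 < ‖ξ - 1‖ := norm_pos_iff.2 (sub_ne_zero.2 hne)
  obtain ⟨N, u, u1, h1, h2, h3, h4⟩ := h (min (‖w‖ / 8) (‖ξ - 1‖ * ‖w‖ / 8)) (by positivity)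
  set r := min (‖w‖ / 8) (‖ξ - 1‖ * ‖w‖ / 8) with hr
  have hr1 : 8 * r ≤ ‖w‖ := by have := min_le_left (‖w‖ / 8) (‖ξ - 1‖ * ‖w‖ / 8); linarith
  have hr2 : 8 * r ≤ ‖ξ - 1‖ * ‖w‖ := by
    have := min_le_right (‖w‖ / 8) (‖ξ - 1‖ * ‖w‖ / 8); linarith
  have hr0 : 0 < r := by rw [hr]; positivity
  have n1 := near50 h1 h2
  have n2 := near50 h3 h4
  obtain ⟨c1, c2⟩ := close50 hw0 hr1 n1
  obtain ⟨c3, c4⟩ := close50 hw0 hr1 n2
  have e : ξ ^ N * (ξ - 1) * w = (ξ ^ (N + 1) * w - w) - (ξ ^ N * w - w) := by ring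
  have h5 := norm_sub_le (ξ ^ (N + 1) * w - w) (ξ ^ N * w - w)
  rw [← e, norm_mul, norm_mul] at h5
  have h6 : ‖ξ ^ N * w - w‖ ≤ (9 / 7 + 1) * r := n1.trans (mul_le_mul_of_nonneg_right (by linarith) hr0.le)
  have h7 : ‖ξ ^ (N + 1) * w - w‖ ≤ (9 / 7 + 1) * r :=
    n2.trans (mul_le_mul_of_nonneg_right (by linarith) hr0.le)
  have h8 : 7 / 9 * (‖ξ - 1‖ * ‖w‖) ≤ ‖ξ ^ N‖ * (‖ξ - 1‖ * ‖w‖) :=
    mul_le_mul_of_nonneg_right c2 (by positivity)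
  have h9 : ‖ξ ^ N‖ * (‖ξ - 1‖ * ‖w‖) = ‖ξ ^ N‖ * ‖ξ - 1‖ * ‖w‖ := by ring
  linarith

theorem eig_const {S : T2 → T2} (hmp : MeasurePreserving S volume volume) {Ω : Set T2}
    (hΩ : MeasurableSet Ω) (hinv : S ⁻¹' Ω = Ω)
    (hpos : ∀ E E' : Set T2, MeasurableSet E → MeasurableSet E' → E ⊆ Ω → E' ⊆ Ω →
      volume E ≠ 0 → volume E' ≠ 0 →
      ∃ N : ℕ, volume (E ∩ S^[N] ⁻¹' E') ≠ 0 ∧ volume (E ∩ S^[N + 1] ⁻¹' E') ≠ 0)
    {ξ : ℂ} {h : T2 → ℂ} (hh : Measurable h) (heq : ∀ᵐ z, z ∈ Ω → h (S z) = ξ * h z) :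
    ∃ w : ℂ, ∀ᵐ z, z ∈ Ω → h z = w := by
  have htwo : ∀ w w' : ℂ, (∀ r : ℝ, 0 < r → volume (Ω ∩ h ⁻¹' Metric.ball w r) ≠ 0) →
      (∀ r : ℝ, 0 < r → volume (Ω ∩ h ⁻¹' Metric.ball w' r) ≠ 0) → ∀ r : ℝ, 0 < r →
      ∃ (N : ℕ) (u u1 : ℂ), ‖u - w‖ < r ∧ ‖ξ ^ N * u - w'‖ < r ∧ ‖u1 - w‖ < r ∧
      ‖ξ ^ (N + 1) * u1 - w'‖ < r := fun w w' hw hw' r hr =>
    two50 hmp hΩ hinv hpos hh heq (hw r hr) (hw' r hr)
  have huniq0 : ∀ w w' : ℂ, (∀ r : ℝ, 0 < r → volume (Ω ∩ h ⁻¹' Metric.ball w r) ≠ 0) →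
      (∀ r : ℝ, 0 < r → volume (Ω ∩ h ⁻¹' Metric.ball w' r) ≠ 0) → w ≠ 0 → w = w' := by
    intro w w' hw hw' hw0
    have hξ := one50 hw0 (htwo w w hw hw)
    by_contra hne
    have hd : 0 < ‖w - w'‖ := norm_pos_iff.2 (sub_ne_zero.2 hne)
    obtain ⟨N, u, u1, h1, h2, -, -⟩ := htwo w w' hw hw' (‖w - w'‖ / 2) (by positivity)
    rw [hξ, one_pow, one_mul] at h2
    have h3 := norm_sub_le (u - w') (u - w)
    rw [show u - w' - (u - w) = w - w' by ring] at h3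
    linarith
  have huniq : ∀ w w' : ℂ, (∀ r : ℝ, 0 < r → volume (Ω ∩ h ⁻¹' Metric.ball w r) ≠ 0) →
      (∀ r : ℝ, 0 < r → volume (Ω ∩ h ⁻¹' Metric.ball w' r) ≠ 0) → w = w' := by
    intro w w' hw hw'
    by_cases hw0 : w = 0
    · by_cases hw0' : w' = 0
      · rw [hw0, hw0']
      · exact (huniq0 w' w hw' hw hw0').symm
    · exact huniq0 w w' hw hw' hw0
  have hess : ∀ᵐ z, z ∈ Ω → ∀ r : ℝ, 0 < r →
      volume (Ω ∩ h ⁻¹' Metric.ball (h z) r) ≠ 0 := by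
    have h1 : ((volume.restrict Ω).map h).support ∈ ae ((volume.restrict Ω).map h) :=
      Measure.support_mem_ae
    have h2 : ∀ᵐ z ∂(volume.restrict Ω), h z ∈ ((volume.restrict Ω).map h).support :=
      ae_of_ae_map hh.aemeasurable h1
    rw [ae_restrict_iff' hΩ] at h2
    filter_upwards [h2] with z hz hzΩ r hr
    have h3 := (Measure.mem_support_iff_forall (h z)).1 (hz hzΩ) _ (Metric.ball_mem_nhds (h z) hr)
    rw [Measure.map_apply hh measurableSet_ball,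
      Measure.restrict_apply (hh measurableSet_ball), inter_comm] at h3
    exact h3.ne'
  by_cases hex : ∃ w : ℂ, ∀ r : ℝ, 0 < r → volume (Ω ∩ h ⁻¹' Metric.ball w r) ≠ 0
  · obtain ⟨w, hw⟩ := hex
    refine ⟨w, ?_⟩
    filter_upwards [hess] with z hz hzΩ
    exact huniq _ _ (hz hzΩ) hw
  · refine ⟨0, ?_⟩
    filter_upwards [hess] with z hz hzΩ
    exact absurd ⟨h z, hz hzΩ⟩ hex

end Pool.Agent.Helper18.UC
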