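import Pool.Agent.Helper18.UC.Basic

/-! Block UC-FD: the matrices `M` are the derivatives of the iterates.

* `clm B` is the linear map of the matrix `B` on `ℝ × ℝ` (sup norm).
* `hasFDerivAt_iter`: `HasFDerivAt (F a) (clm (A a q)) q` (differentiate the two components), chain rule and
  induction (`Function.iterate_succ'`), `clm (B * C) = (clm B).comp (clm C)`.
* `norm_clm_le`: `‖clm B v‖ ≤ max (|B00|+|B01|) (|B10|+|B11|) ‖v‖ ≤ nn B ‖v‖`
  (`ContinuousLinearMap.opNorm_le_bound`).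
* `nn_le_clm`: apply `clm B` to `(1, 0)` and `(0, 1)` of norm one? That gives the columns; for the rows use
  the vectors `(sign B00, sign B01)` of norm at most one: `|B00| + |B01| ≤ ‖clm B‖`, `|B10| + |B11| ≤ ‖clm B‖`.
* `iter_dist_le`: mean value inequality `Convex.norm_image_sub_le_of_norm_hasFDerivWithin_le`. -/

set_option autoImplicit false
open MeasureTheory Real Set

namespace Pool.Agent.Helper18.UC

/-- the continuous linear map of a matrix -/
noncomputable def clm (B : Matrix (Fin 2) (Fin 2) ℝ) : ℝ × ℝ →L[ℝ] ℝ × ℝ :=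
  ((B 0 0) • ContinuousLinearMap.fst ℝ ℝ ℝ + (B 0 1) • ContinuousLinearMap.snd ℝ ℝ ℝ).prod
    ((B 1 0) • ContinuousLinearMap.fst ℝ ℝ ℝ + (B 1 1) • ContinuousLinearMap.snd ℝ ℝ ℝ)

theorem clm_apply (B : Matrix (Fin 2) (Fin 2) ℝ) (v : ℝ × ℝ) :
    clm B v = (B 0 0 * v.1 + B 0 1 * v.2, B 1 0 * v.1 + B 1 1 * v.2) := by
  simp [clm]

private theorem clm_one : clm 1 = ContinuousLinearMap.id ℝ (ℝ × ℝ) := by
  refine ContinuousLinearMap.ext fun v => ?_
  rw [clm_apply]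
  simp

private theorem clm_mul (B C : Matrix (Fin 2) (Fin 2) ℝ) : clm (B * C) = (clm B).comp (clm C) := by
  refine ContinuousLinearMap.ext fun v => ?_
  rw [ContinuousLinearMap.comp_apply, clm_apply, clm_apply, clm_apply]
  refine Prod.ext ?_ ?_
  · simp only [Matrix.mul_apply, Fin.sum_univ_two]
    ring
  · simp only [Matrix.mul_apply, Fin.sum_univ_two]
    ring

private theorem hasFDerivAt_F (a : ℝ) (q : ℝ × ℝ) : HasFDerivAt (F a) (clm (A a q)) q := by
  have h1 : HasFDerivAt (fun q : ℝ × ℝ => q.1) (ContinuousLinearMap.fst ℝ ℝ ℝ) q := hasFDerivAt_fst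
  have h2 : HasFDerivAt (fun q : ℝ × ℝ => q.2) (ContinuousLinearMap.snd ℝ ℝ ℝ) q := hasFDerivAt_snd
  have h3 := (((h1.const_mul 2).sub h2).add (((h1.const_mul (2 * π)).sin).const_mul a)).prodMk h1
  refine h3.congr_fderiv ?_
  refine ContinuousLinearMap.ext fun v => ?_
  rw [clm_apply]
  refine Prod.ext ?_ ?_
  · simp [A, vv]
    ring
  · simp [A]

theorem hasFDerivAt_iter (a : ℝ) (n : ℕ) (q : ℝ × ℝ) :
    HasFDerivAt ((F a)^[n]) (clm (M a n q)) q := by
  induction n with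
  | zero =>
    rw [M_zero, clm_one]
    exact hasFDerivAt_id q
  | succ n ih =>
    rw [M_succ, clm_mul, Function.iterate_succ']
    exact (hasFDerivAt_F a ((F a)^[n] q)).comp q ih

theorem norm_clm_le (B : Matrix (Fin 2) (Fin 2) ℝ) : ‖clm B‖ ≤ nn B := by
  refine ContinuousLinearMap.opNorm_le_bound _ (nn_nonneg B) fun v => ?_
  rw [clm_apply, Prod.norm_def]
  have hv1 : |v.1| ≤ ‖v‖ := norm_fst_le v
  have hv2 : |v.2| ≤ ‖v‖ := norm_snd_le v
  have key : ∀ x y : ℝ, |x * v.1 + y * v.2| ≤ (|x| + |y|) * ‖v‖ := by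
    intro x y
    have h1 : |x * v.1| ≤ |x| * ‖v‖ := by
      rw [abs_mul]
      exact mul_le_mul_of_nonneg_left hv1 (abs_nonneg x)
    have h2 : |y * v.2| ≤ |y| * ‖v‖ := by
      rw [abs_mul]
      exact mul_le_mul_of_nonneg_left hv2 (abs_nonneg y)
    have h3 := abs_add_le (x * v.1) (y * v.2)
    linarith only [h1, h2, h3]
  have e : ∀ x : ℝ, 0 ≤ |x| * ‖v‖ := fun x => mul_nonneg (abs_nonneg x) (norm_nonneg v)
  have e1 := e (B 0 0)
  have e2 := e (B 0 1)
  have e3 := e (B 1 0)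
  have e4 := e (B 1 1)
  refine max_le ?_ ?_
  · have h := key (B 0 0) (B 0 1)
    rw [Real.norm_eq_abs]
    unfold nn
    linarith only [h, e3, e4]
  · have h := key (B 1 0) (B 1 1)
    rw [Real.norm_eq_abs]
    unfold nn
    linarith only [h, e1, e2]

theorem nn_le_clm (B : Matrix (Fin 2) (Fin 2) ℝ) : nn B ≤ 2 * ‖clm B‖ := by
  have hs : ∀ x : ℝ, ∃ s : ℝ, |s| ≤ 1 ∧ x * s = |x| := by
    intro x
    rcases le_total 0 x with h | h
    · exact ⟨1, by simp, by rw [mul_one, abs_of_nonneg h]⟩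
    · exact ⟨-1, by simp, by rw [abs_of_nonpos h]; ring⟩
  have hb : ∀ s t : ℝ, |s| ≤ 1 → |t| ≤ 1 → ‖clm B (s, t)‖ ≤ ‖clm B‖ := by
    intro s t h1 h2
    have h3 : ‖((s, t) : ℝ × ℝ)‖ ≤ 1 := by
      rw [Prod.norm_def]
      exact max_le h1 h2
    have h4 := (clm B).le_opNorm (s, t)
    exact h4.trans (mul_le_of_le_one_right (norm_nonneg _) h3)
  have h0 : |B 0 0| + |B 0 1| ≤ ‖clm B‖ := by
    obtain ⟨s, hs1, hs2⟩ := hs (B 0 0)
    obtain ⟨t, ht1, ht2⟩ := hs (B 0 1)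
    have h1 := (norm_fst_le (clm B (s, t))).trans (hb s t hs1 ht1)
    rw [clm_apply] at h1
    have h2 := (le_abs_self (B 0 0 * s + B 0 1 * t)).trans h1
    linarith only [h2, hs2, ht2]
  have h1 : |B 1 0| + |B 1 1| ≤ ‖clm B‖ := by
    obtain ⟨s, hs1, hs2⟩ := hs (B 1 0)
    obtain ⟨t, ht1, ht2⟩ := hs (B 1 1)
    have h1 := (norm_snd_le (clm B (s, t))).trans (hb s t hs1 ht1)
    rw [clm_apply] at h1
    have h2 := (le_abs_self (B 1 0 * s + B 1 1 * t)).trans h1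
    linarith only [h2, hs2, ht2]
  unfold nn
  linarith only [h0, h1]

theorem iter_dist_le (a : ℝ) (n : ℕ) {s : Set (ℝ × ℝ)} (hs : Convex ℝ s) {C : ℝ}
    (hC : ∀ q ∈ s, nn (M a n q) ≤ C) {p q : ℝ × ℝ} (hp : p ∈ s) (hq : q ∈ s) :
    dist ((F a)^[n] q) ((F a)^[n] p) ≤ C * dist q p := by
  rw [dist_eq_norm, dist_eq_norm]
  exact hs.norm_image_sub_le_of_norm_hasFDerivWithin_le
    (f' := fun x => clm (M a n x))
    (fun x _ => (hasFDerivAt_iter a n x).hasFDerivWithinAt)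
    (fun x hx => (norm_clm_le _).trans (hC x hx)) hp hq

end Pool.Agent.Helper18.UC
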