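import Mathlib

/-! Block UC-CURVE: a nearly horizontal and a nearly vertical curve of extent at least four in the plane
cross after an integer translation. (Pure real analysis.)

Proof. Let `mid = (X s0 + X s1) / 2`, `mid' = (Y' r0 + Y' r1) / 2`. Intermediate value theorem: `sm ∈ [s0, s1]`
with `X sm = mid`. On the set `Y' '' [r0, r1]`, which contains `[mid' - 2, mid' + 2]` (IVT), the map
`ρ : Y' r ↦ X' r` is well defined and `1/8`-Lipschitz by `hsl'`; let `ρ` also denote a `1/8`-Lipschitz extension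
to `ℝ` (`LipschitzOnWith.extend_real`). Let `l` be an integer with `|Y sm - mid' - l| ≤ 1/2` and `k` an integer with
`|mid - ρ mid' - k| ≤ 1/2` (`round`). Put `h s = X s - ρ (Y s - l) - k`, continuous on `[s0, s1]`. For every `s`:
`|ρ (Y s - l) + k - mid| ≤ 1/2 + (1/8) |Y s - l - mid'| ≤ 1/2 + (1/8) (1/2 + (1/8) |X s - mid|)`, so
`|ρ (Y s - l) + k - mid| < |X s - mid|` as soon as `|X s - mid| ≥ 2`; at `s0` and `s1` one has `X s - mid = ∓ d`
with `d = |X s1 - X s0| / 2 ≥ 2`, so `h` has opposite signs there; let `h s = 0`. Then the same estimate gives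
`|X s - mid| ≤ 9/16 + |X s - mid| / 64`, `|X s - mid| ≤ 0.58`, `|Y s - l - mid'| ≤ 1/2 + 0.08 < 2`, so
`Y s - l = Y' r` for some `r ∈ [r0, r1]` and `X s = ρ (Y' r) + k = X' r + k`. -/

set_option autoImplicit false
open Set

namespace Pool.Agent.Helper18.UC

private theorem ivt {f : ℝ → ℝ} {a b c : ℝ} (hab : a ≤ b) (hf : ContinuousOn f (Icc a b))
    (h : (f a ≤ c ∧ c ≤ f b) ∨ (f b ≤ c ∧ c ≤ f a)) : ∃ x ∈ Icc a b, f x = c := by
  rcases h with h | h
  · exact intermediate_value_Icc hab hf h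
  · exact intermediate_value_Icc' hab hf h

theorem curve_cross {X Y X' Y' : ℝ → ℝ} {s0 s1 r0 r1 : ℝ} (hs : s0 ≤ s1) (hr : r0 ≤ r1)
    (hX : ContinuousOn X (Icc s0 s1)) (hY : ContinuousOn Y (Icc s0 s1))
    (hX' : ContinuousOn X' (Icc r0 r1)) (hY' : ContinuousOn Y' (Icc r0 r1))
    (h4 : 4 ≤ |X s1 - X s0|)
    (hsl : ∀ s ∈ Icc s0 s1, ∀ s' ∈ Icc s0 s1, |Y s - Y s'| ≤ (1 / 8) * |X s - X s'|)
    (h4' : 4 ≤ |Y' r1 - Y' r0|)
    (hsl' : ∀ r ∈ Icc r0 r1, ∀ r' ∈ Icc r0 r1, |X' r - X' r'| ≤ (1 / 8) * |Y' r - Y' r'|) :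
    ∃ s ∈ Icc s0 s1, ∃ r ∈ Icc r0 r1, ∃ k l : ℤ, X s = X' r + k ∧ Y s = Y' r + l := by
  classical
  -- the Lipschitz function `ρ`
  obtain ⟨ρ, hρL, hρ⟩ : ∃ ρ : ℝ → ℝ, (∀ y y', |ρ y - ρ y'| ≤ (1 / 8) * |y - y'|) ∧
      ∀ r ∈ Icc r0 r1, ρ (Y' r) = X' r := by
    let f : ℝ → ℝ := fun y => if h : ∃ r ∈ Icc r0 r1, Y' r = y then X' h.choose else 0
    have hfv : ∀ r ∈ Icc r0 r1, f (Y' r) = X' r := by
      intro r hr
      have h : ∃ r' ∈ Icc r0 r1, Y' r' = Y' r := ⟨r, hr, rfl⟩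
      have h1 : f (Y' r) = X' h.choose := dif_pos h
      rw [h1]
      have h2 := hsl' h.choose h.choose_spec.1 r hr
      rw [h.choose_spec.2, sub_self, abs_zero, mul_zero] at h2
      have h3 := abs_nonpos_iff.1 h2
      linarith
    have hf : LipschitzOnWith (1 / 8 : NNReal) f (Y' '' Icc r0 r1) := by
      refine LipschitzOnWith.of_dist_le_mul ?_
      rintro _ ⟨r, hr, rfl⟩ _ ⟨r', hr', rfl⟩
      rw [hfv r hr, hfv r' hr', Real.dist_eq, Real.dist_eq]
      have := hsl' r hr r' hr'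
      simpa using this
    obtain ⟨g, hg1, hg2⟩ := hf.extend_real
    refine ⟨g, fun y y' => ?_, fun r hr => ?_⟩
    · have := hg1.dist_le_mul y y'
      rw [Real.dist_eq, Real.dist_eq] at this
      simpa using this
    · rw [← hg2 (mem_image_of_mem _ hr), hfv r hr]
  have hρc : Continuous ρ := by
    have : LipschitzWith (1 / 8 : NNReal) ρ := by
      refine LipschitzWith.of_dist_le_mul fun y y' => ?_
      rw [Real.dist_eq, Real.dist_eq]
      simpa using hρL y y'
    exact this.continuous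
  obtain ⟨mid, hmid⟩ : ∃ mid, mid = (X s0 + X s1) / 2 := ⟨_, rfl⟩
  obtain ⟨mid', hmid'⟩ : ∃ mid', mid' = (Y' r0 + Y' r1) / 2 := ⟨_, rfl⟩
  obtain ⟨sm, hsm, hsmX⟩ : ∃ sm ∈ Icc s0 s1, X sm = mid := by
    refine ivt hs hX ?_
    rcases le_total (X s0) (X s1) with h | h
    · left; constructor <;> linarith
    · right; constructor <;> linarith
  have hl : |Y sm - mid' - (round (Y sm - mid') : ℤ)| ≤ 1 / 2 := abs_sub_round _
  have hk : |mid - ρ mid' - (round (mid - ρ mid') : ℤ)| ≤ 1 / 2 := abs_sub_round _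
  generalize round (Y sm - mid') = l at hl
  generalize round (mid - ρ mid') = k at hk
  -- the main estimate
  have hest1 : ∀ s ∈ Icc s0 s1, |Y s - l - mid'| ≤ 1 / 2 + (1 / 8) * |X s - mid| := by
    intro s hs'
    have h1 := hsl s hs' sm hsm
    rw [hsmX] at h1
    have h2 : Y s - l - mid' = (Y s - Y sm) + (Y sm - mid' - l) := by ring
    rw [h2]
    have h3 := abs_add_le (Y s - Y sm) (Y sm - mid' - l)
    linarith
  have hest : ∀ s ∈ Icc s0 s1, |ρ (Y s - l) + k - mid| ≤ 9 / 16 + (1 / 64) * |X s - mid| := by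
    intro s hs'
    have h1 := hest1 s hs'
    have h2 := hρL (Y s - l) mid'
    have h3 : ρ (Y s - l) + k - mid = (ρ (Y s - l) - ρ mid') + -(mid - ρ mid' - k) := by ring
    rw [h3]
    have h4 := abs_add_le (ρ (Y s - l) - ρ mid') (-(mid - ρ mid' - k))
    rw [abs_neg] at h4
    linarith
  have hs0 : s0 ∈ Icc s0 s1 := left_mem_Icc.2 hs
  have hs1 : s1 ∈ Icc s0 s1 := right_mem_Icc.2 hs
  have hcont : ContinuousOn (fun s => X s - ρ (Y s - l) - k) (Icc s0 s1) :=
    (hX.sub (hρc.comp_continuousOn (hY.sub continuousOn_const))).sub continuousOn_const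
  obtain ⟨s, hsI, hsz⟩ : ∃ s ∈ Icc s0 s1, X s - ρ (Y s - l) - k = 0 := by
    refine ivt hs hcont ?_
    have e0 := abs_le.1 (hest s0 hs0)
    have e1 := abs_le.1 (hest s1 hs1)
    rcases le_total (X s0) (X s1) with h | h
    · left
      rw [abs_of_nonneg (by linarith)] at h4
      have a0 : |X s0 - mid| = mid - X s0 := by
        rw [abs_of_nonpos (by linarith)]; ring
      have a1 : |X s1 - mid| = X s1 - mid := abs_of_nonneg (by linarith)
      rw [a0] at e0
      rw [a1] at e1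
      constructor <;> linarith [e0.1, e0.2, e1.1, e1.2]
    · right
      rw [abs_of_nonpos (by linarith)] at h4
      have a0 : |X s0 - mid| = X s0 - mid := abs_of_nonneg (by linarith)
      have a1 : |X s1 - mid| = mid - X s1 := by
        rw [abs_of_nonpos (by linarith)]; ring
      rw [a0] at e0
      rw [a1] at e1
      constructor <;> linarith [e0.1, e0.2, e1.1, e1.2]
  have hb : |X s - mid| ≤ 9 / 16 + (1 / 64) * |X s - mid| := by
    have h1 := hest s hsI
    have h2 : X s - mid = ρ (Y s - l) + k - mid := by linarith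
    rw [← h2] at h1
    exact h1
  have hb2 := hest1 s hsI
  have hb3 : |Y s - l - mid'| ≤ 1 := by linarith
  rw [abs_le] at hb3
  obtain ⟨r, hrI, hrY⟩ : ∃ r ∈ Icc r0 r1, Y' r = Y s - l := by
    refine ivt hr hY' ?_
    rcases le_total (Y' r0) (Y' r1) with h | h
    · left
      rw [abs_of_nonneg (by linarith)] at h4'
      constructor <;> linarith
    · right
      rw [abs_of_nonpos (by linarith)] at h4'
      constructor <;> linarith
  refine ⟨s, hsI, r, hrI, k, l, ?_, ?_⟩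
  · rw [← hρ r hrI, hrY]
    linarith
  · rw [hrY]
    ring

end Pool.Agent.Helper18.UC
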