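import Pool.Agent.Helper18.UC.Cell

/-! Block UC-DENS: Lebesgue density with dyadic cells, uniform on a large subset.

Let `E' = rep '' E`-type set in the plane: `S = {q ∈ [0,1)² | toT q ∈ E}` (measurable). By the density theorem for balls in
`ℝ × ℝ` (`Besicovitch.ae_tendsto_measure_inter_div` or `IsUnifLocDoublingMeasure.ae_tendsto_measure_inter_div`, sup norm,
`volume`), for almost every `q ∈ S`: `volume (S ∩ closedBall q r) / volume (closedBall q r) → 1` as `r → 0+`, so for `q` with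
`0 < q.1 < 1`, `0 < q.2 < 1`: `volume (closedBall q r \ S) / volume (closedBall q r) → 0`. The dyadic square of level `k` around `q` is
inside `closedBall q (1 / 2 ^ k)`, whose volume is `4 · (1/2^k)²`. So `volume (cell k z \ E) / volume (cell k z) → 0` for almost
every `z ∈ E` (`vol_rep`). The sets `{z ∈ E | ∀ k ≥ k0, volume (cell k z \ E) ≤ η volume (cell k z)}` increase with `k0` to a subset of
full measure of `E` (measurable: for fixed `k` the function `z ↦ volume (cell k z \ E)` depends on `idx k z` only, which is a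
measurable function into the countable type `ℤ × ℤ`), so one of them misses measure at most `ε`. -/

set_option autoImplicit false
open MeasureTheory Real Set

namespace Pool.Agent.Helper18.UC

private noncomputable def ctr (k : ℕ) (q : ℝ × ℝ) : ℝ × ℝ :=
  ((⌊2 ^ k * q.1⌋ : ℝ) / 2 ^ k + 1 / 2 ^ (k + 1), (⌊2 ^ k * q.2⌋ : ℝ) / 2 ^ k + 1 / 2 ^ (k + 1))

private lemma ctr_aux (k : ℕ) (x : ℝ) (m : ℤ) (h1 : (m : ℝ) / 2 ^ k ≤ x) (h2 : x ≤ (m : ℝ) / 2 ^ k + 1 / 2 ^ k) :
    |x - ((m : ℝ) / 2 ^ k + 1 / 2 ^ (k + 1))| ≤ 1 / 2 ^ (k + 1) := by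
  have e : (1 : ℝ) / 2 ^ k = 1 / 2 ^ (k + 1) + 1 / 2 ^ (k + 1) := by
    rw [pow_succ]
    field_simp
    norm_num
  rw [abs_le]
  constructor <;> linarith

private lemma floor_aux (k : ℕ) (x : ℝ) :
    ((⌊2 ^ k * x⌋ : ℤ) : ℝ) / 2 ^ k ≤ x ∧ x ≤ ((⌊2 ^ k * x⌋ : ℤ) : ℝ) / 2 ^ k + 1 / 2 ^ k := by
  have h2 : (0 : ℝ) < 2 ^ k := by positivity
  constructor
  · rw [div_le_iff₀ h2, mul_comm]
    exact Int.floor_le _
  · rw [← add_div, le_div_iff₀ h2, mul_comm]
    exact (Int.lt_floor_add_one _).le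

private lemma mem_ball_of {k : ℕ} {c q : ℝ × ℝ} {m₁ m₂ : ℤ}
    (hc : c = ((m₁ : ℝ) / 2 ^ k + 1 / 2 ^ (k + 1), (m₂ : ℝ) / 2 ^ k + 1 / 2 ^ (k + 1)))
    (h1 : (m₁ : ℝ) / 2 ^ k ≤ q.1 ∧ q.1 ≤ (m₁ : ℝ) / 2 ^ k + 1 / 2 ^ k)
    (h2 : (m₂ : ℝ) / 2 ^ k ≤ q.2 ∧ q.2 ≤ (m₂ : ℝ) / 2 ^ k + 1 / 2 ^ k) :
    q ∈ Metric.closedBall c (1 / 2 ^ (k + 1)) := by
  rw [Metric.mem_closedBall, Prod.dist_eq, hc]
  refine max_le ?_ ?_
  · rw [Real.dist_eq]
    exact ctr_aux k _ _ h1.1 h1.2
  · rw [Real.dist_eq]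
    exact ctr_aux k _ _ h2.1 h2.2

private lemma vol_ball (k : ℕ) (c : ℝ × ℝ) :
    volume (Metric.closedBall c (1 / 2 ^ (k + 1))) = ENNReal.ofReal ((1 / 2 ^ k) ^ 2) := by
  have e : (2 : ℝ) * (1 / 2 ^ (k + 1)) = 1 / 2 ^ k := by
    rw [pow_succ]
    field_simp
  rw [← Prod.mk.eta (p := c), ← closedBall_prod_same, Measure.volume_eq_prod, Measure.prod_prod,
    Real.volume_closedBall, Real.volume_closedBall, e, ← ENNReal.ofReal_mul (by positivity), sq]

private lemma density_pt {S' : Set (ℝ × ℝ)} (hS' : MeasurableSet S') {η : ℝ} (hη : 0 < η) :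
    ∀ᵐ q ∂(volume : Measure (ℝ × ℝ)), q ∈ S' → ∀ᶠ k in Filter.atTop,
      volume (Metric.closedBall (ctr k q) (1 / 2 ^ (k + 1)) \ S') ≤
        ENNReal.ofReal η * ENNReal.ofReal ((1 / 2 ^ k) ^ 2) := by
  have hd := IsUnifLocDoublingMeasure.ae_tendsto_measure_inter_div (volume : Measure (ℝ × ℝ)) S' 1
  rw [ae_restrict_iff' hS'] at hd
  filter_upwards [hd] with q hq hqS
  have hlim : Filter.Tendsto (fun k : ℕ => (1 : ℝ) / 2 ^ (k + 1)) Filter.atTop (nhdsWithin 0 (Set.Ioi 0)) := by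
    rw [tendsto_nhdsWithin_iff]
    constructor
    · have h := (tendsto_pow_atTop_nhds_zero_of_lt_one (r := (1 / 2 : ℝ)) (by norm_num) (by norm_num))
      have h' := h.comp (Filter.tendsto_add_atTop_nat 1)
      refine h'.congr fun k => ?_
      simp only [Function.comp_apply, one_div, inv_pow]
    · exact Filter.Eventually.of_forall fun k => by
        show (0 : ℝ) < 1 / 2 ^ (k + 1)
        positivity
  have h1 := hq hqS (fun k : ℕ => ctr k q) (fun k : ℕ => (1 : ℝ) / 2 ^ (k + 1)) hlim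
    (Filter.Eventually.of_forall fun k => by
      rw [one_mul]
      exact mem_ball_of rfl (floor_aux k q.1) (floor_aux k q.2))
  have h2 := (ENNReal.tendsto_toReal ENNReal.one_ne_top).comp h1
  rw [ENNReal.toReal_one] at h2
  have h3 := h2.eventually (lt_mem_nhds (show (1 : ℝ) - η < 1 by linarith))
  filter_upwards [h3] with k hk
  simp only [Function.comp_apply] at hk
  set B := Metric.closedBall (ctr k q) ((1 : ℝ) / 2 ^ (k + 1)) with hB
  have hvB : volume B = ENNReal.ofReal ((1 / 2 ^ k) ^ 2) := vol_ball k _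
  have hBpos : (0 : ℝ) < (1 / 2 ^ k) ^ 2 := by positivity
  have hvB' : (volume B).toReal = (1 / 2 ^ k) ^ 2 := by
    rw [hvB, ENNReal.toReal_ofReal hBpos.le]
  have hfin : volume B ≠ ⊤ := by rw [hvB]; exact ENNReal.ofReal_ne_top
  have hadd : volume (B ∩ S') + volume (B \ S') = volume B := measure_inter_add_sdiff B hS'
  have hf1 : volume (B ∩ S') ≠ ⊤ := ne_top_of_le_ne_top hfin (measure_mono Set.inter_subset_left)
  have hf2 : volume (B \ S') ≠ ⊤ := ne_top_of_le_ne_top hfin (measure_mono Set.sdiff_subset)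
  have hadd' : (volume (B ∩ S')).toReal + (volume (B \ S')).toReal = (1 / 2 ^ k) ^ 2 := by
    rw [← ENNReal.toReal_add hf1 hf2, hadd, hvB']
  rw [ENNReal.toReal_div, Set.inter_comm, hvB', lt_div_iff₀ hBpos] at hk
  rw [← ENNReal.ofReal_mul hη.le, ← ENNReal.ofReal_toReal hf2]
  refine ENNReal.ofReal_le_ofReal ?_
  linarith

theorem density {E : Set T2} (hE : MeasurableSet E) {η ε : ℝ} (hη : 0 < η) (hε : 0 < ε) :
    ∃ E0 ⊆ E, MeasurableSet E0 ∧ volume (E \ E0) ≤ ENNReal.ofReal ε ∧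
      ∃ k0 : ℕ, ∀ k ≥ k0, ∀ z ∈ E0, volume (cell k z \ E) ≤ ENNReal.ofReal η * volume (cell k z) := by
  set S' : Set (ℝ × ℝ) := toT ⁻¹' E ∩ (Ico (0:ℝ) 1 ×ˢ Ico (0:ℝ) 1) with hS'def
  have hS' : MeasurableSet S' :=
    (measurable_toT hE).inter (measurableSet_Ico.prod measurableSet_Ico)
  have hae := density_pt hS' hη
  rw [ae_iff] at hae
  set N0 : Set (ℝ × ℝ) := {q | ¬ (q ∈ S' → ∀ᶠ k in Filter.atTop,
      volume (Metric.closedBall (ctr k q) (1 / 2 ^ (k + 1)) \ S') ≤
        ENNReal.ofReal η * ENNReal.ofReal ((1 / 2 ^ k) ^ 2))} with hN0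
  set D : ℕ → Set T2 := fun k =>
    {z | volume (cell k z \ E) ≤ ENNReal.ofReal η * volume (cell k z)} with hD
  have hidx : ∀ k, Measurable (idx k) := by
    intro k
    unfold idx
    exact ((measurable_rep.fst.const_mul _).floor).prodMk ((measurable_rep.snd.const_mul _).floor)
  have hcell : ∀ k (z w : T2), idx k z = idx k w → cell k z = cell k w := by
    intro k z w h
    unfold cell
    rw [h]
  have hDm : ∀ k, MeasurableSet (D k) := by
    intro k
    have e : D k = idx k ⁻¹' (idx k '' D k) := by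
      refine Set.Subset.antisymm (Set.subset_preimage_image _ _) ?_
      rintro z ⟨w, hw, hwz⟩
      rw [hD] at hw ⊢
      simp only [Set.mem_ofPred_eq] at hw ⊢
      rwa [← hcell k w z hwz]
    rw [e]
    exact hidx k (Set.to_countable _).measurableSet
  set A : ℕ → Set T2 := fun k0 => E ∩ ⋂ k ∈ Set.Ici k0, D k with hA
  have hAm : ∀ k0, MeasurableSet (A k0) := fun k0 =>
    hE.inter (MeasurableSet.biInter (Set.to_countable _) fun k _ => hDm k)
  have hmono : Monotone A := by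
    intro a b hab z hz
    refine ⟨hz.1, ?_⟩
    rw [Set.mem_iInter₂]
    intro k hk
    exact Set.mem_iInter₂.1 hz.2 k (le_trans hab hk)
  have hnull : volume (⋂ k0, E \ A k0) = 0 := by
    have hsub : (⋂ k0, E \ A k0) ⊆ rep ⁻¹' (toMeasurable volume N0) := by
      intro z hz
      refine subset_toMeasurable volume N0 ?_
      rw [hN0, Set.mem_ofPred_eq]
      intro hgood
      have hzE : z ∈ E := (Set.mem_iInter.1 hz 0).1
      have hzS : rep z ∈ S' := ⟨by
        show toT (rep z) ∈ E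
        rwa [toT_rep], rep_mem z⟩
      obtain ⟨k0, hk0⟩ := Filter.eventually_atTop.1 (hgood hzS)
      refine (Set.mem_iInter.1 hz k0).2 ⟨hzE, ?_⟩
      rw [Set.mem_iInter₂]
      intro k hk
      rw [hD, Set.mem_ofPred_eq, vol_cell]
      refine le_trans ?_ (hk0 k hk)
      have h1 : cell k z \ E ⊆ rep ⁻¹' (Metric.closedBall (ctr k (rep z)) (1 / 2 ^ (k + 1)) \ S') := by
        rintro w ⟨hw, hwE⟩
        refine ⟨?_, fun hwS => hwE ?_⟩
        · rw [mem_cell_iff] at hw
          unfold sqo corner at hw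
          rw [Set.mem_prod, Set.mem_Ico, Set.mem_Ico] at hw
          exact mem_ball_of (m₁ := (idx k z).1) (m₂ := (idx k z).2) rfl
            ⟨hw.1.1, hw.1.2.le⟩ ⟨hw.2.1, hw.2.2.le⟩
        · have := hwS.1
          rwa [Set.mem_preimage, toT_rep] at this
      refine (measure_mono h1).trans ?_
      rw [vol_rep (Metric.isClosed_closedBall.measurableSet.diff hS')]
      exact measure_mono Set.inter_subset_left
    refine measure_mono_null hsub ?_
    rw [vol_rep (measurableSet_toMeasurable _ _)]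
    refine measure_mono_null Set.inter_subset_left ?_
    rw [measure_toMeasurable]
    exact hae
  have hlim := tendsto_measure_iInter_atTop (μ := (volume : Measure T2)) (s := fun k0 => E \ A k0)
    (fun k0 => (hE.diff (hAm k0)).nullMeasurableSet)
    (fun a b hab => Set.sdiff_subset_sdiff_right (hmono hab)) ⟨0, measure_ne_top _ _⟩
  rw [hnull] at hlim
  have hev := hlim.eventually (gt_mem_nhds (show (0 : ENNReal) < ENNReal.ofReal ε from ENNReal.ofReal_pos.2 hε))
  obtain ⟨k0, hk0⟩ := hev.exists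
  refine ⟨A k0, Set.inter_subset_left, hAm k0, hk0.le, k0, fun k hk z hz => ?_⟩
  exact Set.mem_iInter₂.1 hz.2 k hk

end Pool.Agent.Helper18.UC
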