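import Pool.Agent.Helper18.UC.Sel
import Pool.Agent.Helper18.SD.King

/-! Block UC-EXPO: the Lyapunov exponent.

`g n z = log ‖clm (M a n (rep z))‖`. `g` is subadditive (`M_add`, `nn_rep`: better to prove the norm version: `M a m (rep (S^[n] z)) =
M a m (F^[n] (rep z))` as matrices, by `M_sh`), measurable, `0 ≤ g n z ≤ n log (LL a)`: upper bound by `‖clm (A ..)‖ ≤ LL a`, lower bound:
`det = 1` implies `‖clm (M ..)‖ ≥ 1` (from `1 = |ad - bc| ≤ (|a|+|b|)(|c|+|d|) ≤ ‖·‖²`). `kingman_bdd` (Pool.Agent.Helper18.SD) gives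
`lam` measurable, `0 ≤ lam`... `|lam| ≤ log (LL a)`, and the limit a.e.
`om c` = the set of `z` with `c < liminf (log nn(M n (rep z)) / n)`:
* measurable (`Measurable.liminf`), exactly invariant (`nn_succ_le`, `nn_le_succ` in the form
  `nn (M n (F q)) ≤ LL nn (M (n+1) q)`, `nn (M (n+1) q) ≤ LL nn (M n (F q))`, use `M_add` with `n = 1`; the sequences of quotients
  `log nn (M n (rep (S z))) / n` and `log nn (M (n+1) (rep z)) / (n + 1)` differ by a sequence tending to `0`),
* `z ∈ om c` implies eventually `z ∈ PN a c N`,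
* a.e. `liminf = lam z` (the quotients of `log nn` and `log ‖clm‖` differ by at most `log 2 / n`, `norm_clm_le`, `nn_le_clm`), so
  a.e. `z ∈ om c ↔ c < lam z`. -/

set_option autoImplicit false
open MeasureTheory Real Set Filter Topology

namespace Pool.Agent.Helper18.UC

/-- points whose lower exponent exceeds `c` -/
noncomputable def om (a c : ℝ) : Set T2 :=
  {z | c < liminf (fun n : ℕ => Real.log (nn (M a n (rep z))) / n) atTop}

variable {a : ℝ} {S : T2 → T2}

private theorem h42_meas_entry (a : ℝ) (n : ℕ) (i j : Fin 2) :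
    Measurable fun z : T2 => M a n (rep z) i j :=
  (M_entry_cont a n i j).measurable.comp measurable_rep

private theorem h42_meas_nn (a : ℝ) (n : ℕ) : Measurable fun z : T2 => nn (M a n (rep z)) := by
  unfold nn
  exact (((h42_meas_entry a n 0 0).abs.add (h42_meas_entry a n 0 1).abs).add
    (h42_meas_entry a n 1 0).abs).add (h42_meas_entry a n 1 1).abs

private theorem h42_nn_pos (a : ℝ) (n : ℕ) (q : ℝ × ℝ) : 0 < nn (M a n q) :=
  lt_of_lt_of_le (by norm_num) (two_le_nn a n q)

private theorem h42_nn_le (a : ℝ) (n : ℕ) (q : ℝ × ℝ) : nn (M a n q) ≤ 2 * LL a ^ n := by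
  induction n with
  | zero => rw [M_zero, nn_one]; simp
  | succ n ih =>
    calc nn (M a (n + 1) q) ≤ LL a * nn (M a n q) := nn_succ_le a n q
      _ ≤ LL a * (2 * LL a ^ n) := mul_le_mul_of_nonneg_left ih (LL_pos a).le
      _ = 2 * LL a ^ (n + 1) := by ring

private theorem h42_logLL (a : ℝ) : 0 ≤ Real.log (LL a) :=
  Real.log_nonneg (by linarith [LL_ge a])

/-- the quotients are bounded -/
private theorem h42_quot_nonneg (a : ℝ) (n : ℕ) (q : ℝ × ℝ) :
    0 ≤ Real.log (nn (M a n q)) / n :=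
  div_nonneg (Real.log_nonneg (by linarith [two_le_nn a n q])) (Nat.cast_nonneg n)

private theorem h42_quot_le (a : ℝ) (n : ℕ) (q : ℝ × ℝ) :
    Real.log (nn (M a n q)) / n ≤ Real.log (LL a) + Real.log 2 := by
  have h2 : 0 ≤ Real.log 2 := Real.log_nonneg (by norm_num)
  rcases Nat.eq_zero_or_pos n with h | h
  · subst h
    simp only [Nat.cast_zero, div_zero]
    linarith [h42_logLL a]
  · have hn : (1 : ℝ) ≤ n := by exact_mod_cast h
    rw [div_le_iff₀ (by linarith)]
    have h1 := Real.log_le_log (h42_nn_pos a n q) (h42_nn_le a n q)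
    rw [Real.log_mul (by norm_num) (pow_pos (LL_pos a) n).ne', Real.log_pow] at h1
    nlinarith [h42_logLL a]

private theorem h42_liminf_le {u v : ℕ → ℝ} {B : ℝ} (huB : ∀ n, u n ≤ B)
    (hv : ∀ n, 0 ≤ v n) (h : Tendsto (fun n => u n - v n) atTop (𝓝 0)) :
    liminf v atTop ≤ liminf u atTop := by
  refine le_of_forall_lt fun b hb => ?_
  obtain ⟨b', hb1, hb2⟩ := exists_between hb
  have hbdd : IsBoundedUnder (· ≥ ·) atTop v := isBoundedUnder_of ⟨0, fun n => hv n⟩
  have hcob : IsCoboundedUnder (· ≥ ·) atTop u :=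
    IsBoundedUnder.isCoboundedUnder_ge (isBoundedUnder_of ⟨B, fun n => huB n⟩)
  have h1 := eventually_lt_of_lt_liminf hb2 hbdd
  have h2 : ∀ᶠ n in atTop, -((b' - b) / 2) < u n - v n :=
    h.eventually (lt_mem_nhds (by linarith))
  have h3 : ∀ᶠ n in atTop, b + (b' - b) / 2 ≤ u n := by
    filter_upwards [h1, h2] with n h1 h2
    linarith
  have h4 := le_liminf_of_le hcob h3
  linarith

private theorem h42_liminf_eq {u v : ℕ → ℝ} {B : ℝ} (hu : ∀ n, 0 ≤ u n) (huB : ∀ n, u n ≤ B)
    (hv : ∀ n, 0 ≤ v n) (hvB : ∀ n, v n ≤ B) (h : Tendsto (fun n => u n - v n) atTop (𝓝 0)) :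
    liminf v atTop = liminf u atTop := by
  refine le_antisymm (h42_liminf_le huB hv h) (h42_liminf_le hvB hu ?_)
  have h1 := h.neg
  simp only [neg_sub, neg_zero] at h1
  exact h1

theorem measurableSet_om (a c : ℝ) : MeasurableSet (om a c) := by
  refine measurableSet_lt measurable_const ?_
  exact Measurable.liminf fun n => (Real.measurable_log.comp (h42_meas_nn a n)).div_const _

private theorem h42_nn_adj (B : Matrix (Fin 2) (Fin 2) ℝ) : nn B.adjugate = nn B := by
  rw [Matrix.adjugate_fin_two]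
  unfold nn
  simp
  ring

private theorem h42_M_one (a : ℝ) (q : ℝ × ℝ) : nn (M a 1 q) ≤ LL a := by
  rw [M_succ, M_zero, mul_one]
  exact nn_A_le a _

private theorem h42_step1 (a : ℝ) (n : ℕ) (q : ℝ × ℝ) :
    nn (M a (n + 1) q) ≤ LL a * nn (M a n (F a q)) := by
  rw [add_comm n 1, M_add, Function.iterate_one, mul_comm]
  exact (nn_mul _ _).trans (mul_le_mul_of_nonneg_left (h42_M_one a q) (nn_nonneg _))

private theorem h42_step2 (a : ℝ) (n : ℕ) (q : ℝ × ℝ) :
    nn (M a n (F a q)) ≤ LL a * nn (M a (n + 1) q) := by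
  have h1 : M a n (F a q) = M a (n + 1) q * (M a 1 q).adjugate := by
    rw [add_comm n 1, M_add, Function.iterate_one, mul_assoc, Matrix.mul_adjugate, det_M, one_smul,
      mul_one]
  rw [h1, mul_comm (LL a)]
  refine (nn_mul _ _).trans (mul_le_mul_of_nonneg_left ?_ (nn_nonneg _))
  rw [h42_nn_adj]
  exact h42_M_one a q

private theorem h42_log_diff {x y L : ℝ} (hx : 0 < x) (hy : 0 < y) (hL : 0 < L)
    (h1 : x ≤ L * y) (h2 : y ≤ L * x) : |Real.log x - Real.log y| ≤ Real.log L := by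
  have h3 := Real.log_le_log hx h1
  have h4 := Real.log_le_log hy h2
  rw [Real.log_mul hL.ne' hy.ne'] at h3
  rw [Real.log_mul hL.ne' hx.ne'] at h4
  rw [abs_le]
  constructor <;> linarith

private theorem h42_diff (a : ℝ) (n : ℕ) (q : ℝ × ℝ) :
    |Real.log (nn (M a n (F a q))) - Real.log (nn (M a n q))| ≤ 2 * Real.log (LL a) := by
  have h1 := h42_log_diff (h42_nn_pos a n (F a q)) (h42_nn_pos a (n + 1) q) (LL_pos a)
    (h42_step2 a n q) (h42_step1 a n q)
  have h2 := h42_log_diff (h42_nn_pos a (n + 1) q) (h42_nn_pos a n q) (LL_pos a)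
    (nn_succ_le a n q) (nn_le_succ a n q)
  have h3 := abs_add_le (Real.log (nn (M a n (F a q))) - Real.log (nn (M a (n + 1) q)))
    (Real.log (nn (M a (n + 1) q)) - Real.log (nn (M a n q)))
  have h4 : Real.log (nn (M a n (F a q))) - Real.log (nn (M a (n + 1) q)) +
    (Real.log (nn (M a (n + 1) q)) - Real.log (nn (M a n q))) =
    Real.log (nn (M a n (F a q))) - Real.log (nn (M a n q)) := by ring
  rw [h4] at h3
  linarith

private theorem h42_tendsto_quot {C : ℝ} {w : ℕ → ℝ} (h : ∀ n, |w n| ≤ C) :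
    Tendsto (fun n : ℕ => w n / n) atTop (𝓝 0) := by
  refine squeeze_zero_norm (a := fun n : ℕ => C / n) (fun n => ?_) ?_
  · rw [norm_div, Real.norm_natCast, Real.norm_eq_abs]
    exact div_le_div_of_nonneg_right (h n) (Nat.cast_nonneg n)
  · exact tendsto_const_div_atTop_nhds_zero_nat C

theorem om_inv (hS : IsS a S) (c : ℝ) : S ⁻¹' (om a c) = om a c := by
  ext z
  have h1 : ∀ n, nn (M a n (rep (S z))) = nn (M a n (F a (rep z))) := by
    intro n
    have := nn_rep hS n 1 z
    rwa [Function.iterate_one, Function.iterate_one] at this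
  have h2 : liminf (fun n : ℕ => Real.log (nn (M a n (rep z))) / n) atTop =
      liminf (fun n : ℕ => Real.log (nn (M a n (F a (rep z)))) / n) atTop := by
    refine h42_liminf_eq (B := Real.log (LL a) + Real.log 2) (fun n => h42_quot_nonneg a n _)
      (fun n => h42_quot_le a n _) (fun n => h42_quot_nonneg a n _)
      (fun n => h42_quot_le a n _) ?_
    have h3 := h42_tendsto_quot (w := fun n => Real.log (nn (M a n (F a (rep z)))) -
      Real.log (nn (M a n (rep z)))) (fun n => h42_diff a n (rep z))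
    refine h3.congr fun n => ?_
    rw [sub_div]
  change c < _ ↔ c < _
  simp only [h1]
  rw [h2]

theorem om_PN (c : ℝ) : ∀ z ∈ om a c, ∀ᶠ N : ℕ in atTop, z ∈ PN a c N := by
  intro z hz
  have hbdd : IsBoundedUnder (· ≥ ·) atTop
      (fun n : ℕ => Real.log (nn (M a n (rep z))) / n) :=
    isBoundedUnder_of ⟨0, fun n => h42_quot_nonneg a n _⟩
  have h1 := eventually_lt_of_lt_liminf hz hbdd
  filter_upwards [h1, eventually_gt_atTop 0] with N hN hN0
  have hN1 : (0 : ℝ) < N := by exact_mod_cast hN0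
  rw [lt_div_iff₀ hN1] at hN
  change Real.exp (c * N) ≤ nn (M a N (rep z))
  rw [← Real.le_log_iff_exp_le (h42_nn_pos a N _)]
  exact hN.le

/-- the matrices at the representative of the image -/
private theorem h42_M_rep (hS : IsS a S) (n m : ℕ) (z : T2) :
    M a n (rep (S^[m] z)) = M a n ((F a)^[m] (rep z)) := by
  obtain ⟨u, w, h⟩ := rep_toT ((F a)^[m] (rep z))
  have h1 : S^[m] z = toT ((F a)^[m] (rep z)) := by
    rw [← S_iter hS, toT_rep]
  rw [h1, h, M_sh]

private theorem h42_M_toT (n : ℕ) (q : ℝ × ℝ) : M a n (rep (toT q)) = M a n q := by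
  obtain ⟨u, w, h⟩ := rep_toT q
  rw [h, M_sh]

private theorem h42_norm_clm (B : Matrix (Fin 2) (Fin 2) ℝ) :
    ‖clm B‖ = max (|B 0 0| + |B 0 1|) (|B 1 0| + |B 1 1|) := by
  apply le_antisymm
  · refine ContinuousLinearMap.opNorm_le_bound _
      (le_trans (by positivity) (le_max_left _ _)) fun v => ?_
    rw [clm_apply, Prod.norm_def]
    have hv1 : |v.1| ≤ ‖v‖ := norm_fst_le v
    have hv2 : |v.2| ≤ ‖v‖ := norm_snd_le v
    have key : ∀ x y : ℝ, |x * v.1 + y * v.2| ≤ (|x| + |y|) * ‖v‖ := by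
      intro x y
      have h1 : |x * v.1| ≤ |x| * ‖v‖ := by
        rw [abs_mul]
        exact mul_le_mul_of_nonneg_left hv1 (abs_nonneg x)
      have h2 : |y * v.2| ≤ |y| * ‖v‖ := by
        rw [abs_mul]
        exact mul_le_mul_of_nonneg_left hv2 (abs_nonneg y)
      have h3 := abs_add_le (x * v.1) (y * v.2)
      linarith only [h1, h2, h3]
    refine max_le ?_ ?_
    · exact (key _ _).trans (mul_le_mul_of_nonneg_right (le_max_left _ _) (norm_nonneg v))
    · exact (key _ _).trans (mul_le_mul_of_nonneg_right (le_max_right _ _) (norm_nonneg v))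
  · have hs : ∀ x : ℝ, ∃ s : ℝ, |s| ≤ 1 ∧ x * s = |x| := by
      intro x
      rcases le_total 0 x with h | h
      · exact ⟨1, by simp, by rw [mul_one, abs_of_nonneg h]⟩
      · exact ⟨-1, by simp, by rw [abs_of_nonpos h]; ring⟩
    have hb : ∀ s t : ℝ, |s| ≤ 1 → |t| ≤ 1 → ‖clm B (s, t)‖ ≤ ‖clm B‖ := by
      intro s t h1 h2
      have h3 : ‖((s, t) : ℝ × ℝ)‖ ≤ 1 := by
        rw [Prod.norm_def]
        exact max_le h1 h2
      have h4 := (clm B).le_opNorm (s, t)
      exact h4.trans (mul_le_of_le_one_right (norm_nonneg _) h3)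
    refine max_le ?_ ?_
    · obtain ⟨s, hs1, hs2⟩ := hs (B 0 0)
      obtain ⟨t, ht1, ht2⟩ := hs (B 0 1)
      have h1 := (norm_fst_le (clm B (s, t))).trans (hb s t hs1 ht1)
      rw [clm_apply] at h1
      have h2 := (le_abs_self (B 0 0 * s + B 0 1 * t)).trans h1
      linarith only [h2, hs2, ht2]
    · obtain ⟨s, hs1, hs2⟩ := hs (B 1 0)
      obtain ⟨t, ht1, ht2⟩ := hs (B 1 1)
      have h1 := (norm_snd_le (clm B (s, t))).trans (hb s t hs1 ht1)
      rw [clm_apply] at h1
      have h2 := (le_abs_self (B 1 0 * s + B 1 1 * t)).trans h1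
      linarith only [h2, hs2, ht2]

private theorem h42_clm_mul (B C : Matrix (Fin 2) (Fin 2) ℝ) :
    ‖clm (B * C)‖ ≤ ‖clm B‖ * ‖clm C‖ := by
  have h : clm (B * C) = (clm B).comp (clm C) := by
    refine ContinuousLinearMap.ext fun v => ?_
    rw [ContinuousLinearMap.comp_apply, clm_apply, clm_apply, clm_apply]
    refine Prod.ext ?_ ?_
    · simp only [Matrix.mul_apply, Fin.sum_univ_two]
      ring
    · simp only [Matrix.mul_apply, Fin.sum_univ_two]
      ring
  rw [h]
  exact ContinuousLinearMap.opNorm_comp_le _ _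

private theorem h42_one_le (a : ℝ) (n : ℕ) (q : ℝ × ℝ) : 1 ≤ ‖clm (M a n q)‖ := by
  have h := det_M a n q
  rw [Matrix.det_fin_two] at h
  rw [h42_norm_clm]
  generalize M a n q 0 0 = x at *
  generalize M a n q 0 1 = y at *
  generalize M a n q 1 0 = z at *
  generalize M a n q 1 1 = w at *
  have h1 : 1 ≤ |x| * |w| + |y| * |z| := by
    have h2 := abs_sub (x * w) (y * z)
    rw [h, abs_one, abs_mul, abs_mul] at h2
    exact h2
  have hx := abs_nonneg x
  have hy := abs_nonneg y
  have hz := abs_nonneg z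
  have hw := abs_nonneg w
  by_contra hcon
  rw [not_le, max_lt_iff] at hcon
  obtain ⟨h3, h4⟩ := hcon
  have h5 : (|x| + |y|) * (|z| + |w|) < 1 := by
    calc (|x| + |y|) * (|z| + |w|) ≤ 1 * (|z| + |w|) :=
          mul_le_mul_of_nonneg_right h3.le (by positivity)
      _ < 1 := by linarith
  nlinarith [mul_nonneg hx hz, mul_nonneg hy hw]

private theorem h42_clm_le (a : ℝ) (n : ℕ) (q : ℝ × ℝ) : ‖clm (M a n q)‖ ≤ LL a ^ n := by
  induction n with
  | zero =>
    rw [M_zero, h42_norm_clm]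
    simp
  | succ n ih =>
    calc ‖clm (M a (n + 1) q)‖ ≤ ‖clm (A a ((F a)^[n] q))‖ * ‖clm (M a n q)‖ := by
          rw [M_succ]
          exact h42_clm_mul _ _
      _ ≤ LL a * LL a ^ n :=
          mul_le_mul ((norm_clm_le _).trans (nn_A_le a _)) ih (norm_nonneg _) (LL_pos a).le
      _ = LL a ^ (n + 1) := by ring

private theorem h42_ae_plane {P : T2 → Prop} (h : ∀ᵐ z, P z) :
    ∀ᵐ q : ℝ × ℝ, P (toT q) := by
  obtain ⟨N, hN1, hN2, hN3⟩ := exists_measurable_superset_of_null (ae_iff.mp h)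
  have h0 : volume (toT ⁻¹' N ∩ (Ico (0:ℝ) 1 ×ˢ Ico (0:ℝ) 1)) = 0 := by
    rw [← vol_rep (measurable_toT hN2)]
    have : rep ⁻¹' (toT ⁻¹' N) = N := by
      ext z
      simp [toT_rep]
    rw [this, hN3]
  have h1 : ∀ k : ℤ × ℤ, volume ((fun q : ℝ × ℝ => q + ((k.1 : ℝ), (k.2 : ℝ))) ⁻¹'
      (toT ⁻¹' N ∩ (Ico (0:ℝ) 1 ×ˢ Ico (0:ℝ) 1))) = 0 := by
    intro k
    rw [measure_preimage_add_right, h0]
  rw [ae_iff]
  refine measure_mono_null ?_ (measure_iUnion_null h1)
  intro q hq
  obtain ⟨u, w, h2⟩ := rep_toT q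
  refine mem_iUnion.mpr ⟨(u, w), ?_⟩
  have h3 : q + ((u : ℝ), (w : ℝ)) = rep (toT q) := by
    rw [h2]
    rfl
  rw [mem_preimage, h3]
  refine ⟨?_, rep_mem _⟩
  change toT (rep (toT q)) ∈ N
  rw [toT_rep]
  exact hN1 hq

private theorem h42_prob : IsProbabilityMeasure (volume : Measure T2) := by
  have h1 : IsProbabilityMeasure (volume : Measure UnitAddCircle) := ⟨by
    rw [AddCircle.measure_univ, ENNReal.ofReal_one]⟩
  change IsProbabilityMeasure ((volume : Measure UnitAddCircle).prod (volume : Measure UnitAddCircle))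
  infer_instance

theorem exists_lam (hS : IsS a S) :
    ∃ lam : T2 → ℝ, Measurable lam ∧ (∀ z, |lam z| ≤ Real.log (LL a)) ∧
      (∀ᵐ z, lam (S z) = lam z) ∧
      (∀ᵐ q : ℝ × ℝ, Tendsto (fun n : ℕ => Real.log ‖fderiv ℝ ((F a)^[n]) q‖ / n) atTop
        (𝓝 (lam (toT q)))) ∧
      ∀ c : ℝ, ∀ᵐ z, z ∈ om a c ↔ c < lam z := by
  have hmeas : ∀ n, Measurable fun z : T2 => Real.log ‖clm (M a n (rep z))‖ := by
    intro n
    simp only [h42_norm_clm]
    exact Real.measurable_log.comp
      (((h42_meas_entry a n 0 0).abs.add (h42_meas_entry a n 0 1).abs).max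
        ((h42_meas_entry a n 1 0).abs.add (h42_meas_entry a n 1 1).abs))
  have hbd : ∀ (n : ℕ) (z : T2), |Real.log ‖clm (M a n (rep z))‖| ≤ Real.log (LL a) * n := by
    intro n z
    rw [abs_of_nonneg (Real.log_nonneg (h42_one_le a n _))]
    have h1 := Real.log_le_log (lt_of_lt_of_le one_pos (h42_one_le a n (rep z)))
      (h42_clm_le a n (rep z))
    rw [Real.log_pow] at h1
    linarith
  have hsub : ∀ (n m : ℕ) (z : T2), Real.log ‖clm (M a (n + m) (rep z))‖ ≤
      Real.log ‖clm (M a n (rep z))‖ + Real.log ‖clm (M a m (rep (S^[n] z)))‖ := by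
    intro n m z
    have hp : ∀ (k : ℕ) (q : ℝ × ℝ), ‖clm (M a k q)‖ ≠ 0 := fun k q =>
      (lt_of_lt_of_le one_pos (h42_one_le a k q)).ne'
    rw [h42_M_rep hS, M_add, ← Real.log_mul (hp _ _) (hp _ _)]
    refine Real.log_le_log ?_ ?_
    · rw [← M_add]
      exact lt_of_lt_of_le one_pos (h42_one_le a _ _)
    · rw [mul_comm ‖clm (M a n (rep z))‖]
      exact h42_clm_mul _ _
  have := h42_prob
  obtain ⟨lam, hl1, hl2, hl3, hl4, -⟩ := Pool.Agent.Helper18.SD.kingman_bdd (S_mp hS) hmeas hbd hsub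
  refine ⟨lam, hl1, hl2, hl3, ?_, ?_⟩
  · have h1 := h42_ae_plane hl4
    filter_upwards [h1] with q hq
    refine hq.congr fun n => ?_
    rw [h42_M_toT, (hasFDerivAt_iter a n q).fderiv]
  · intro c
    filter_upwards [hl4] with z hz
    have h1 : Tendsto (fun n : ℕ => Real.log (nn (M a n (rep z))) / n) atTop (𝓝 (lam z)) := by
      have h2 := h42_tendsto_quot (C := Real.log 2) (w := fun n => Real.log (nn (M a n (rep z))) -
        Real.log ‖clm (M a n (rep z))‖) (fun n => by
          have hp := lt_of_lt_of_le one_pos (h42_one_le a n (rep z))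
          refine h42_log_diff (h42_nn_pos a n _) hp (by norm_num) (nn_le_clm _) ?_
          have h3 := norm_clm_le (M a n (rep z))
          have h4 := nn_nonneg (M a n (rep z))
          linarith)
      have h3 := h2.add hz
      rw [zero_add] at h3
      refine h3.congr fun n => ?_
      rw [← add_div]
      congr 1
      ring
    change c < _ ↔ _
    rw [h1.liminf_eq]

end Pool.Agent.Helper18.UC
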