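import Pool.Agent.Helper18.UC.Defs

/-! Block UC-BASIC: algebra of the cocycle.

* `F_cont`: continuity of `F`.
* `iter_sh`: `F (q + (k, l)) = F q + (2 k - l, k)` (sin has period `2π`), and the integer matrix
  `[[2,-1],[1,0]] = 1 + N` with `N = [[1,-1],[1,-1]]`, `N² = 0`, so its `n`-th power is `1 + n N`. Induction on `n`.
* `M_sh`: `vv` has period one; induction with `iter_sh`.
* `M_add`: induction on `m` (`Function.iterate_add_apply`).
* `det_M`: `det (A q) = 1`, multiplicative.
* `F_rev`: `F (swap (F q)) = swap q`; induction.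
* `M_rev`: `A (swap (F q)) * R * A q = R` with `R = !![0,1;1,0]` (the first coordinate of `swap (F q)` is `q.1`);
  induction on `n`: `M (n+1) (swap (F^[n+1] q)) = M n (F (swap (F^[n+1] q))) * A (swap (F^[n+1] q))` by `M_add`,
  and `F (swap (F (F^[n] q))) = swap (F^[n] q)`.
* `nn_rev`: from `M_rev`: `M n (swap ..) = R * (M n q)⁻¹ * R`; the entries of the inverse of a matrix of
  determinant one are the entries up to order and sign; or directly: with `X = M n (swap ..)`, `Y = M n q`,
  `X R Y = R`, `det Y = 1`, multiply by the adjugate of `Y` on the right.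
* `nn_succ_le`: `nn_mul`, `nn_A_le`.
* `nn_le_succ`: `M n q = adj (A ..) * M (n+1) q` and `nn (adj (A ..)) = nn (A ..) ≤ LL a`.
* `two_le_nn`: `1 = |ad - bc| ≤ |a||d| + |b||c|`, so `(|a| + |d| + |b| + |c|)² ≥ 4 (|a||d| + |b||c|) ≥ 4`. -/

set_option autoImplicit false
open MeasureTheory Real Set

namespace Pool.Agent.Helper18.UC

theorem F_cont (a : ℝ) : Continuous (F a) := by
  unfold F
  fun_prop

private lemma h24_F_sh (a : ℝ) (q : ℝ × ℝ) (k l : ℤ) :
    F a (sh q k l) = sh (F a q) (2 * k - l) k := by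
  have h : Real.sin (2 * π * (q.1 + k)) = Real.sin (2 * π * q.1) := by
    have e : 2 * π * (q.1 + k) = 2 * π * q.1 + k * (2 * π) := by ring
    rw [e, Real.sin_add_int_mul_two_pi]
  unfold F sh
  ext
  · simp only
    rw [h]
    push_cast
    ring
  · rfl

theorem iter_sh (a : ℝ) (n : ℕ) (q : ℝ × ℝ) (k l : ℤ) :
    (F a)^[n] (sh q k l) = sh ((F a)^[n] q) (k + n * (k - l)) (l + n * (k - l)) := by
  induction n with
  | zero => simp
  | succ n ih =>
    rw [Function.iterate_succ_apply', ih, h24_F_sh, Function.iterate_succ_apply']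
    congr 1
    · push_cast
      ring
    · push_cast
      ring

private lemma h24_A_sh (a : ℝ) (q : ℝ × ℝ) (k l : ℤ) : A a (sh q k l) = A a q := by
  have h : Real.cos (2 * π * (q.1 + k)) = Real.cos (2 * π * q.1) := by
    have e : 2 * π * (q.1 + k) = 2 * π * q.1 + k * (2 * π) := by ring
    rw [e, Real.cos_add_int_mul_two_pi]
  unfold A vv sh
  simp only
  rw [h]

theorem M_sh (a : ℝ) (n : ℕ) (q : ℝ × ℝ) (k l : ℤ) : M a n (sh q k l) = M a n q := by
  induction n with
  | zero => rw [M_zero, M_zero]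
  | succ n ih => rw [M_succ, M_succ, ih, iter_sh, h24_A_sh]

theorem M_add (a : ℝ) (n m : ℕ) (q : ℝ × ℝ) :
    M a (n + m) q = M a m ((F a)^[n] q) * M a n q := by
  induction m with
  | zero => rw [add_zero, M_zero, one_mul]
  | succ m ih =>
    rw [← add_assoc, M_succ, ih, M_succ, mul_assoc, ← Function.iterate_add_apply, add_comm m n]

private lemma h24_det_A (a : ℝ) (q : ℝ × ℝ) : (A a q).det = 1 := by
  unfold A
  rw [Matrix.det_fin_two_of]
  ring

theorem det_M (a : ℝ) (n : ℕ) (q : ℝ × ℝ) : (M a n q).det = 1 := by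
  induction n with
  | zero => rw [M_zero, Matrix.det_one]
  | succ n ih => rw [M_succ, Matrix.det_mul, h24_det_A, ih, one_mul]

private lemma h24_F_rev (a : ℝ) (q : ℝ × ℝ) : F a (Prod.swap (F a q)) = Prod.swap q := by
  unfold F
  ext
  · simp only [Prod.swap]
    ring
  · rfl

theorem F_rev (a : ℝ) (n : ℕ) (q : ℝ × ℝ) :
    (F a)^[n] (Prod.swap ((F a)^[n] q)) = Prod.swap q := by
  induction n with
  | zero => rfl
  | succ n ih =>
    rw [Function.iterate_succ_apply' (F a) n q, Function.iterate_succ_apply, h24_F_rev, ih]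

private lemma h24_A_rev (a : ℝ) (q : ℝ × ℝ) :
    A a (Prod.swap (F a q)) * !![0, 1; 1, 0] * A a q = !![0, 1; 1, 0] := by
  have h : (Prod.swap (F a q)).1 = q.1 := rfl
  unfold A
  rw [h]
  generalize vv a q.1 = v
  rw [Matrix.mul_fin_two, Matrix.mul_fin_two]
  congr 1
  ext i j
  fin_cases i <;> fin_cases j <;> simp

theorem M_rev (a : ℝ) (n : ℕ) (q : ℝ × ℝ) :
    M a n (Prod.swap ((F a)^[n] q)) * !![0, 1; 1, 0] * M a n q = !![0, 1; 1, 0] := by
  induction n with
  | zero => simp [M_zero]
  | succ n ih =>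
    have h1 := M_add a 1 n (Prod.swap ((F a)^[n + 1] q))
    rw [add_comm 1 n] at h1
    rw [h1, M_succ a n q, M_succ a 0, M_zero, mul_one, Function.iterate_one,
      Function.iterate_zero, id, Function.iterate_succ_apply', h24_F_rev]
    have h2 := h24_A_rev a ((F a)^[n] q)
    calc M a n (Prod.swap ((F a)^[n] q)) * A a (Prod.swap (F a ((F a)^[n] q))) * !![0, 1; 1, 0] *
          (A a ((F a)^[n] q) * M a n q)
        = M a n (Prod.swap ((F a)^[n] q)) * (A a (Prod.swap (F a ((F a)^[n] q))) *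
          !![0, 1; 1, 0] * A a ((F a)^[n] q)) * M a n q := by
          simp only [mul_assoc]
      _ = !![0, 1; 1, 0] := by rw [h2, ih]

theorem nn_rev (a : ℝ) (n : ℕ) (q : ℝ × ℝ) :
    nn (M a n (Prod.swap ((F a)^[n] q))) = nn (M a n q) := by
  have h1 := M_rev a n q
  have h2 := det_M a n q
  set X := M a n (Prod.swap ((F a)^[n] q))
  set Y := M a n q
  have h3 : X * !![0, 1; 1, 0] = !![0, 1; 1, 0] * Y.adjugate := by
    calc X * !![0, 1; 1, 0] = X * !![0, 1; 1, 0] * (Y * Y.adjugate) := by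
          rw [Matrix.mul_adjugate, h2, one_smul, mul_one]
      _ = (X * !![0, 1; 1, 0] * Y) * Y.adjugate := by rw [mul_assoc (X * !![0, 1; 1, 0]) Y]
      _ = !![0, 1; 1, 0] * Y.adjugate := by rw [h1]
  rw [Matrix.adjugate_fin_two] at h3
  have e00 := congrFun (congrFun h3 0) 0
  have e01 := congrFun (congrFun h3 0) 1
  have e10 := congrFun (congrFun h3 1) 0
  have e11 := congrFun (congrFun h3 1) 1
  simp [Matrix.mul_apply, Fin.sum_univ_two] at e00 e01 e10 e11
  unfold nn
  rw [e00, e01, e10, e11, abs_neg, abs_neg]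
  ring

theorem nn_succ_le (a : ℝ) (n : ℕ) (q : ℝ × ℝ) : nn (M a (n + 1) q) ≤ LL a * nn (M a n q) := by
  rw [M_succ]
  exact (nn_mul _ _).trans (mul_le_mul_of_nonneg_right (nn_A_le a _) (nn_nonneg _))

theorem nn_le_succ (a : ℝ) (n : ℕ) (q : ℝ × ℝ) : nn (M a n q) ≤ LL a * nn (M a (n + 1) q) := by
  set B := A a ((F a)^[n] q) with hB
  have h1 : M a n q = B.adjugate * M a (n + 1) q := by
    rw [M_succ, ← hB, ← mul_assoc, Matrix.adjugate_mul, hB, h24_det_A, one_smul, one_mul]
  have h2 : nn B.adjugate ≤ LL a := by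
    refine le_trans (le_of_eq ?_) (nn_A_le a ((F a)^[n] q))
    rw [← hB, Matrix.adjugate_fin_two]
    unfold nn
    simp
    ring
  conv_lhs => rw [h1]
  exact (nn_mul _ _).trans (mul_le_mul_of_nonneg_right h2 (nn_nonneg _))

theorem two_le_nn (a : ℝ) (n : ℕ) (q : ℝ × ℝ) : 2 ≤ nn (M a n q) := by
  have h := det_M a n q
  rw [Matrix.det_fin_two] at h
  unfold nn
  generalize M a n q 0 0 = x at *
  generalize M a n q 0 1 = y at *
  generalize M a n q 1 0 = z at *
  generalize M a n q 1 1 = w at *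
  have h1 : 1 ≤ |x| * |w| + |y| * |z| := by
    have h2 := abs_sub (x * w) (y * z)
    rw [h, abs_one, abs_mul, abs_mul] at h2
    exact h2
  have hx := abs_nonneg x
  have hy := abs_nonneg y
  have hz := abs_nonneg z
  have hw := abs_nonneg w
  by_contra hcon
  rw [not_le] at hcon
  nlinarith [sq_nonneg (|x| - |w|), sq_nonneg (|y| - |z|), mul_nonneg hx hy, mul_nonneg hx hz,
    mul_nonneg hw hy, mul_nonneg hw hz]

theorem M_entry_cont (a : ℝ) (n : ℕ) (i j : Fin 2) : Continuous (fun q : ℝ × ℝ => M a n q i j) := by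
  induction n generalizing i j with
  | zero =>
    simp only [M_zero]
    exact continuous_const
  | succ n ih =>
    simp only [M_succ, Matrix.mul_apply, Fin.sum_univ_two]
    have hA : ∀ i k : Fin 2, Continuous (fun q : ℝ × ℝ => A a ((F a)^[n] q) i k) := by
      intro i k
      have h1 : Continuous (fun q : ℝ × ℝ => vv a ((F a)^[n] q).1) := by
        have h2 := (F_cont a).iterate n
        unfold vv
        fun_prop
      fin_cases i <;> fin_cases k
      · exact h1
      · exact continuous_const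
      · exact continuous_const
      · exact continuous_const
    exact ((hA i 0).mul (ih 0 j)).add ((hA i 1).mul (ih 1 j))

end Pool.Agent.Helper18.UC
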