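import Mathlib

/-! Project UC (MP_9ee088_an): all Lyapunov exponents above `(1/2) log |a| + C` of the standard map
`S_a` live in one ergodic component. Definitions and the algebra of the derivative cocycle. -/

set_option autoImplicit false
open MeasureTheory Real Set

namespace Pool.Agent.Helper18.UC

/-- the plane map -/
noncomputable def F (a : ℝ) (q : ℝ × ℝ) : ℝ × ℝ :=
  (2 * q.1 - q.2 + a * Real.sin (2 * π * q.1), q.1)

/-- derivative of the first component in the first variable -/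
noncomputable def vv (a x : ℝ) : ℝ := 2 + 2 * π * a * Real.cos (2 * π * x)

/-- the derivative matrix at a point -/
noncomputable def A (a : ℝ) (q : ℝ × ℝ) : Matrix (Fin 2) (Fin 2) ℝ := !![vv a q.1, -1; 1, 0]

/-- the derivative matrix of the `n`-th iterate -/
noncomputable def M (a : ℝ) : ℕ → ℝ × ℝ → Matrix (Fin 2) (Fin 2) ℝ
  | 0, _ => 1
  | n + 1, q => A a ((F a)^[n] q) * M a n q

/-- sum of the absolute values of the entries -/
noncomputable def nn (B : Matrix (Fin 2) (Fin 2) ℝ) : ℝ :=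
  |B 0 0| + |B 0 1| + |B 1 0| + |B 1 1|

/-- upper bound of the size of the derivative -/
noncomputable def LL (a : ℝ) : ℝ := 2 * π * |a| + 4

/-- the hyperbolicity rate -/
noncomputable def KK (a B : ℝ) : ℝ := 4 * B * Real.sqrt (LL a)

/-- `n` is a hyperbolic time of the point `q` -/
def Hyp (a B : ℝ) (n : ℕ) (q : ℝ × ℝ) : Prop :=
  ∀ i ≤ n, KK a B ^ (n - i) * nn (M a i q) ≤ nn (M a n q)

/-- the point with label `t` and coordinate `s` on a horizontal (`k = 0`) or vertical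
(`k = 1`) line -/
def pt (k : Fin 2) (t s : ℝ) : ℝ × ℝ := if k = 0 then (s, t) else (t, s)

/-- the label coordinate of a point -/
def lab (k : Fin 2) (q : ℝ × ℝ) : ℝ := if k = 0 then q.2 else q.1

/-- the other coordinate of a point -/
def cor (k : Fin 2) (q : ℝ × ℝ) : ℝ := if k = 0 then q.1 else q.2

/-- translation by an integer vector -/
def sh (q : ℝ × ℝ) (k l : ℤ) : ℝ × ℝ := (q.1 + k, q.2 + l)

/-- the half open square with lower left corner `c` and side `s` -/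
def sqo (c : ℝ × ℝ) (s : ℝ) : Set (ℝ × ℝ) := Ico c.1 (c.1 + s) ×ˢ Ico c.2 (c.2 + s)

/-- `S ^ n` stretches the lines of direction `k` through the square of radius `B / ‖DS ^ n(p)‖`
around `p` almost uniformly (factor `m`) and almost horizontally -/
def Good (a B : ℝ) (n : ℕ) (p : ℝ × ℝ) (k : Fin 2) (m : ℝ) : Prop :=
  (49 / 100) * nn (M a n p) ≤ |m| ∧ |m| ≤ nn (M a n p) ∧
  ∀ q : ℝ × ℝ, dist q p ≤ B / nn (M a n p) →
    |M a n q 0 k - m| ≤ (3 / B) * |m| ∧ |M a n q 1 k| ≤ (5 / KK a B) * |m|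

/-- points of a square whose orbit hits the reflection of another square after `N` steps,
modulo integer translations -/
def Hit (a : ℝ) (N : ℕ) (c : ℝ × ℝ) (s : ℝ) (c' : ℝ × ℝ) (s' : ℝ) : Set (ℝ × ℝ) :=
  {q | q ∈ sqo c s ∧ ∃ u w : ℤ, sh (Prod.swap ((F a)^[N] q)) u w ∈ sqo c' s'}

lemma LL_pos (a : ℝ) : 0 < LL a := by
  unfold LL; have := abs_nonneg a; positivity

lemma LL_ge (a : ℝ) : 4 ≤ LL a := by
  unfold LL; have h := abs_nonneg a; have : 0 ≤ 2 * π * |a| := by positivity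
  linarith

lemma KK_pos (a : ℝ) {B : ℝ} (hB : 0 < B) : 0 < KK a B := by
  unfold KK; have := Real.sqrt_pos.2 (LL_pos a); positivity

lemma KK_sq (a B : ℝ) : KK a B ^ 2 = 16 * B ^ 2 * LL a := by
  unfold KK; rw [mul_pow, Real.sq_sqrt (LL_pos a).le]; ring

lemma pt_lab_cor (k : Fin 2) (q : ℝ × ℝ) : pt k (lab k q) (cor k q) = q := by
  unfold pt lab cor; split_ifs <;> rfl

lemma lab_pt (k : Fin 2) (t s : ℝ) : lab k (pt k t s) = t := by
  unfold pt lab; split_ifs <;> rfl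

lemma cor_pt (k : Fin 2) (t s : ℝ) : cor k (pt k t s) = s := by
  unfold pt cor; split_ifs <;> rfl

lemma mem_sqo_iff (k : Fin 2) (c q : ℝ × ℝ) (s : ℝ) :
    q ∈ sqo c s ↔ lab k q ∈ Ico (lab k c) (lab k c + s) ∧ cor k q ∈ Ico (cor k c) (cor k c + s) := by
  unfold sqo lab cor
  split_ifs
  · rw [Set.mem_prod]; tauto
  · rw [Set.mem_prod]

lemma pt_mem_sqo_iff (k : Fin 2) (c : ℝ × ℝ) (t s s0 : ℝ) :
    pt k t s ∈ sqo c s0 ↔ t ∈ Ico (lab k c) (lab k c + s0) ∧ s ∈ Ico (cor k c) (cor k c + s0) := by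
  rw [mem_sqo_iff k, lab_pt, cor_pt]

lemma M_zero (a : ℝ) (q : ℝ × ℝ) : M a 0 q = 1 := by rw [M]

lemma M_succ (a : ℝ) (n : ℕ) (q : ℝ × ℝ) : M a (n + 1) q = A a ((F a)^[n] q) * M a n q := by rw [M]

lemma nn_nonneg (B : Matrix (Fin 2) (Fin 2) ℝ) : 0 ≤ nn B := by unfold nn; positivity

lemma nn_mul (B C : Matrix (Fin 2) (Fin 2) ℝ) : nn (B * C) ≤ nn B * nn C := by
  have key : ∀ i j : Fin 2, |(B * C) i j| ≤ |B i 0| * |C 0 j| + |B i 1| * |C 1 j| := by
    intro i j
    rw [Matrix.mul_apply, Fin.sum_univ_two, ← abs_mul, ← abs_mul]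
    exact abs_add_le _ _
  have h00 := key 0 0
  have h01 := key 0 1
  have h10 := key 1 0
  have h11 := key 1 1
  unfold nn
  have e : ∀ x : ℝ, 0 ≤ |x| := abs_nonneg
  nlinarith [mul_nonneg (e (B 0 0)) (e (C 1 0)), mul_nonneg (e (B 0 0)) (e (C 1 1)),
    mul_nonneg (e (B 0 1)) (e (C 0 0)), mul_nonneg (e (B 0 1)) (e (C 0 1)),
    mul_nonneg (e (B 1 0)) (e (C 1 0)), mul_nonneg (e (B 1 0)) (e (C 1 1)),
    mul_nonneg (e (B 1 1)) (e (C 0 0)), mul_nonneg (e (B 1 1)) (e (C 0 1))]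

lemma nn_sub_le (B C : Matrix (Fin 2) (Fin 2) ℝ) : nn B ≤ nn C + nn (B - C) := by
  have key : ∀ i j : Fin 2, |B i j| ≤ |C i j| + |(B - C) i j| := by
    intro i j
    have : B i j = C i j + (B - C) i j := by simp
    conv_lhs => rw [this]
    exact abs_add_le _ _
  have h00 := key 0 0
  have h01 := key 0 1
  have h10 := key 1 0
  have h11 := key 1 1
  unfold nn
  linarith

lemma nn_add_le (B C : Matrix (Fin 2) (Fin 2) ℝ) : nn (B + C) ≤ nn B + nn C := by
  have key : ∀ i j : Fin 2, |(B + C) i j| ≤ |B i j| + |C i j| := by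
    intro i j
    rw [Matrix.add_apply]
    exact abs_add_le _ _
  have h00 := key 0 0
  have h01 := key 0 1
  have h10 := key 1 0
  have h11 := key 1 1
  unfold nn
  linarith

lemma abs_entry_le (B : Matrix (Fin 2) (Fin 2) ℝ) (i j : Fin 2) : |B i j| ≤ nn B := by
  have e : ∀ x : ℝ, 0 ≤ |x| := abs_nonneg
  unfold nn
  fin_cases i <;> fin_cases j <;> simp <;>
    linarith [e (B 0 0), e (B 0 1), e (B 1 0), e (B 1 1)]

lemma nn_one : nn 1 = 2 := by unfold nn; norm_num

lemma vv_abs (a x : ℝ) : |vv a x| ≤ 2 * π * |a| + 2 := by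
  unfold vv
  have h1 : |2 * π * a * Real.cos (2 * π * x)| ≤ 2 * π * |a| := by
    rw [abs_mul, abs_mul, abs_of_pos (by positivity : (0:ℝ) < 2 * π)]
    have := Real.abs_cos_le_one (2 * π * x)
    have h2 : 0 ≤ 2 * π * |a| := by positivity
    nlinarith
  calc |2 + 2 * π * a * Real.cos (2 * π * x)| ≤ |(2:ℝ)| + |2 * π * a * Real.cos (2 * π * x)| :=
        abs_add_le _ _
    _ ≤ _ := by rw [abs_of_pos (by norm_num : (0:ℝ) < 2)]; linarith

lemma nn_A_le (a : ℝ) (q : ℝ × ℝ) : nn (A a q) ≤ LL a := by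
  have := vv_abs a q.1
  unfold nn A LL
  simp
  linarith

/-- `v` is Lipschitz with constant `4 π² |a| ≤ 7 LL`. -/
lemma vv_lip (a x y : ℝ) : |vv a x - vv a y| ≤ 7 * LL a * |x - y| := by
  have hc : |Real.cos (2 * π * x) - Real.cos (2 * π * y)| ≤ 2 * π * |x - y| := by
    have h := Real.abs_cos_sub_cos_le (2 * π * x) (2 * π * y)
    rw [← mul_sub, abs_mul, abs_of_pos (by positivity : (0:ℝ) < 2 * π)] at h
    exact h
  have h1 : vv a x - vv a y = 2 * π * a * (Real.cos (2 * π * x) - Real.cos (2 * π * y)) := by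
    unfold vv; ring
  rw [h1, abs_mul, abs_mul, abs_of_pos (by positivity : (0:ℝ) < 2 * π)]
  have hp : 2 * π ≤ 7 := by have := Real.pi_lt_d2; linarith
  have h2 : 2 * π * |a| * |Real.cos (2 * π * x) - Real.cos (2 * π * y)| ≤
      2 * π * |a| * (2 * π * |x - y|) := mul_le_mul_of_nonneg_left hc (by positivity)
  have h3 : 2 * π * |a| * (2 * π * |x - y|) ≤ 2 * π * |a| * (7 * |x - y|) :=
    mul_le_mul_of_nonneg_left (mul_le_mul_of_nonneg_right hp (abs_nonneg _)) (by positivity)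
  have h4 : 2 * π * |a| * (7 * |x - y|) ≤ LL a * (7 * |x - y|) :=
    mul_le_mul_of_nonneg_right (by unfold LL; linarith) (by positivity)
  nlinarith

end Pool.Agent.Helper18.UC
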