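import Pool.Agent.Helper18.UC.NL

/-! Block UC-DIR: directions and curves at a hyperbolic time.

`exists_good`: `Λ = nn (M a n p)`, `n ≥ 1`. The second row of `M a n q` is the first row of `M a (n-1) q`
(`M_succ`, `A = !![v, -1; 1, 0]`), so `|M n p 1 0| + |M n p 1 1| ≤ nn (M (n-1) p) ≤ Λ / K`, `K = KK a B ≥ 8 B ≥ 800`
(`LL ≥ 4`). Hence `|M n p 0 0| + |M n p 0 1| ≥ (1 - 1/800) Λ` and one of the two, index `k`, is at least
`(49/100) Λ` in absolute value; `m := M n p 0 k`. For `q` in the ball: `|M n q 0 k - m| ≤ nn (M n q - M n p)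
≤ Λ / B ≤ (3 / B) |m|` (`near_linear` with `i = n`), and `|M n q 1 k| = |M (n-1) q 0 k| ≤ nn (M (n-1) p) +
nn (M (n-1) q - M (n-1) p) ≤ Λ / K + Λ / (B K²) ≤ 2 Λ / K ≤ (5 / K) |m|`.

`good_curve`: mean value inequality on the segment between `s` and `s'` (all points `pt k t u`, `u` between,
are in the ball: sup norm, convex): the function `u ↦ (F^[n] (pt k t u)).1 - m u` has derivative
`M n (..) 0 k - m`, the function `u ↦ (F^[n] (pt k t u)).2` has derivative `M n (..) 1 k`
(`hasFDerivAt_iter`, composed with `pt k t`). -/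

set_option autoImplicit false
open MeasureTheory Real Set

namespace Pool.Agent.Helper18.UC

private lemma dir_row (a : ℝ) (n : ℕ) (q : ℝ × ℝ) (j : Fin 2) :
    M a (n + 1) q 1 j = M a n q 0 j := by
  rw [M_succ, Matrix.mul_apply, Fin.sum_univ_two]
  simp [A]

private lemma dir_KK {a B : ℝ} (hB : 100 ≤ B) : 800 ≤ KK a B := by
  have h1 : (2 : ℝ) ≤ Real.sqrt (LL a) := by
    have : (2 : ℝ) = Real.sqrt 4 := by
      rw [show (4 : ℝ) = 2 ^ 2 by norm_num, Real.sqrt_sq (by norm_num)]
    rw [this]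
    exact Real.sqrt_le_sqrt (LL_ge a)
  unfold KK
  nlinarith

theorem exists_good {a B : ℝ} (hB : 100 ≤ B) {n : ℕ} (hn : 1 ≤ n) {p : ℝ × ℝ} (hp : Hyp a B n p) :
    ∃ (k : Fin 2) (m : ℝ), Good a B n p k m := by
  obtain ⟨n', rfl⟩ : ∃ n', n = n' + 1 := ⟨n - 1, by omega⟩
  have hB0 : 0 < B := by linarith
  have hK := dir_KK (a := a) hB
  have hK0 : 0 < KK a B := by linarith
  set Λ := nn (M a (n' + 1) p) with hΛ
  set K := KK a B with hKdef
  have hΛ0 : 0 ≤ Λ := nn_nonneg _
  have h1 : nn (M a n' p) ≤ Λ / K := by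
    have h := hp n' (by omega)
    rw [show n' + 1 - n' = 1 by omega, pow_one] at h
    rw [le_div_iff₀ hK0]
    linarith
  have hΛK : Λ / K ≤ Λ / 800 := div_le_div_of_nonneg_left hΛ0 (by norm_num) hK
  -- the first row is large
  have hrow : (799 / 800) * Λ ≤ |M a (n' + 1) p 0 0| + |M a (n' + 1) p 0 1| := by
    have h2 : |M a (n' + 1) p 1 0| + |M a (n' + 1) p 1 1| ≤ nn (M a n' p) := by
      rw [dir_row, dir_row]
      unfold nn
      linarith [abs_nonneg (M a n' p 1 0), abs_nonneg (M a n' p 1 1)]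
    have h3 : Λ = |M a (n' + 1) p 0 0| + |M a (n' + 1) p 0 1| + |M a (n' + 1) p 1 0| +
        |M a (n' + 1) p 1 1| := rfl
    linarith
  have hk : ∃ k : Fin 2, (49 / 100) * Λ ≤ |M a (n' + 1) p 0 k| := by
    by_contra hcon
    push Not at hcon
    have ha := hcon 0
    have hb := hcon 1
    linarith
  obtain ⟨k, hk⟩ := hk
  have hm0 : 0 ≤ |M a (n' + 1) p 0 k| := abs_nonneg _
  refine ⟨k, M a (n' + 1) p 0 k, hk, abs_entry_le _ _ _, ?_⟩
  intro q hq
  have hnl := near_linear (by linarith : 1 ≤ B) hp hq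
  constructor
  · have h2 := hnl (n' + 1) le_rfl
    rw [Nat.sub_self, Nat.mul_zero, pow_zero, one_mul] at h2
    have h3 : |M a (n' + 1) q 0 k - M a (n' + 1) p 0 k| ≤
        nn (M a (n' + 1) q - M a (n' + 1) p) := by
      have := abs_entry_le (M a (n' + 1) q - M a (n' + 1) p) 0 k
      rwa [Matrix.sub_apply] at this
    refine h3.trans (h2.trans ?_)
    rw [← hΛ, div_mul_eq_mul_div]
    exact div_le_div_of_nonneg_right (by linarith) hB0.le
  · have h2 := hnl n' (by omega)
    rw [show 2 * (n' + 1 - n') = 2 by omega, ← hΛ] at h2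
    have h3 : |M a n' q 0 k| ≤ |M a n' p 0 k| + nn (M a n' q - M a n' p) := by
      have h4 := abs_entry_le (M a n' q - M a n' p) 0 k
      rw [Matrix.sub_apply] at h4
      have h5 : |M a n' q 0 k| ≤ |M a n' p 0 k| + |M a n' q 0 k - M a n' p 0 k| := by
        calc |M a n' q 0 k| = |M a n' p 0 k + (M a n' q 0 k - M a n' p 0 k)| := by
              congr 1; ring
          _ ≤ _ := abs_add_le _ _
      linarith
    have h6 : |M a n' p 0 k| ≤ Λ / K := (abs_entry_le _ _ _).trans h1
    have h7 : nn (M a n' q - M a n' p) ≤ Λ / K := by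
      rw [le_div_iff₀ hK0]
      have h8 : Λ / B ≤ Λ := div_le_self hΛ0 (by linarith)
      have h9 : nn (M a n' q - M a n' p) * K ≤ K ^ 2 * nn (M a n' q - M a n' p) := by
        have h11 := nn_nonneg (M a n' q - M a n' p)
        have h12 : K ≤ K ^ 2 := by nlinarith
        calc nn (M a n' q - M a n' p) * K ≤ nn (M a n' q - M a n' p) * K ^ 2 :=
              mul_le_mul_of_nonneg_left h12 h11
          _ = _ := mul_comm _ _
      exact h9.trans (h2.trans h8)
    rw [dir_row]
    have h10 : |M a n' q 0 k| ≤ 2 * Λ / K := by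
      have : 2 * Λ / K = Λ / K + Λ / K := by ring
      linarith
    refine h10.trans ?_
    rw [div_mul_eq_mul_div]
    exact div_le_div_of_nonneg_right (by linarith) hK0.le

/-- derivative of the iterate along a line -/
theorem hasDerivAt_line (a : ℝ) (n : ℕ) (k : Fin 2) (t s : ℝ) :
    HasDerivAt (fun u : ℝ => ((F a)^[n] (pt k t u)).1) (M a n (pt k t s) 0 k) s ∧
    HasDerivAt (fun u : ℝ => ((F a)^[n] (pt k t u)).2) (M a n (pt k t s) 1 k) s := by
  have hpt : HasDerivAt (fun u : ℝ => pt k t u) (if k = 0 then ((1 : ℝ), (0 : ℝ)) else (0, 1)) s := by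
    unfold pt
    by_cases hk : k = 0
    · simp only [hk, if_true]
      exact (hasDerivAt_id s).prodMk (hasDerivAt_const s t)
    · simp only [hk, if_false]
      exact (hasDerivAt_const s t).prodMk (hasDerivAt_id s)
  have h1 := (hasFDerivAt_iter a n (pt k t s)).comp_hasDerivAt s hpt
  have h2 : clm (M a n (pt k t s)) (if k = 0 then ((1 : ℝ), (0 : ℝ)) else (0, 1)) =
      (M a n (pt k t s) 0 k, M a n (pt k t s) 1 k) := by
    rw [clm_apply]
    fin_cases k <;> simp
  rw [h2] at h1
  constructor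
  · exact (ContinuousLinearMap.fst ℝ ℝ ℝ).hasFDerivAt.comp_hasDerivAt s h1
  · exact (ContinuousLinearMap.snd ℝ ℝ ℝ).hasFDerivAt.comp_hasDerivAt s h1

private lemma dir_convex (k : Fin 2) (t r : ℝ) (p : ℝ × ℝ) :
    Convex ℝ {u : ℝ | dist (pt k t u) p ≤ r} := by
  intro u hu v hv x y hx hy hxy
  have h1 : pt k t (x • u + y • v) = x • pt k t u + y • pt k t v := by
    have ht : t = x * t + y * t := by rw [← add_mul, hxy, one_mul]
    unfold pt
    split_ifs
    · ext
      · simp
      · simpa using ht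
    · ext
      · simpa using ht
      · simp
  have h2 := convex_closedBall p r (Metric.mem_closedBall.2 hu) (Metric.mem_closedBall.2 hv) hx hy hxy
  rw [← h1] at h2
  exact Metric.mem_closedBall.1 h2

theorem good_curve {a B : ℝ} (hB : 100 ≤ B) {n : ℕ} {p : ℝ × ℝ} {k : Fin 2} {m : ℝ}
    (hG : Good a B n p k m) {t s s' : ℝ} (hs : dist (pt k t s) p ≤ B / nn (M a n p))
    (hs' : dist (pt k t s') p ≤ B / nn (M a n p)) :
    |((F a)^[n] (pt k t s)).1 - ((F a)^[n] (pt k t s')).1 - m * (s - s')| ≤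
        (3 / B) * |m| * |s - s'| ∧
    |((F a)^[n] (pt k t s)).2 - ((F a)^[n] (pt k t s')).2| ≤ (5 / KK a B) * |m| * |s - s'| := by
  have hconv := dir_convex k t (B / nn (M a n p)) p
  constructor
  · have h1 := hconv.norm_image_sub_le_of_norm_hasDerivWithin_le
      (f := fun u : ℝ => ((F a)^[n] (pt k t u)).1 - m * u)
      (f' := fun u : ℝ => M a n (pt k t u) 0 k - m) (C := (3 / B) * |m|) (x := s') (y := s)
      (fun u _ => by
        have h2 := (hasDerivAt_line a n k t u).1
        have h3 : HasDerivAt (fun u : ℝ => m * u) m u := by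
          simpa using (hasDerivAt_id u).const_mul m
        exact (h2.sub h3).hasDerivWithinAt)
      (fun u hu => by
        rw [Real.norm_eq_abs]
        exact (hG.2.2 _ hu).1) hs' hs
    rw [Real.norm_eq_abs, Real.norm_eq_abs] at h1
    refine le_of_eq_of_le ?_ h1
    congr 1
    ring
  · have h1 := hconv.norm_image_sub_le_of_norm_hasDerivWithin_le
      (f := fun u : ℝ => ((F a)^[n] (pt k t u)).2)
      (f' := fun u : ℝ => M a n (pt k t u) 1 k) (C := (5 / KK a B) * |m|) (x := s') (y := s)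
      (fun u _ => (hasDerivAt_line a n k t u).2.hasDerivWithinAt)
      (fun u hu => by
        rw [Real.norm_eq_abs]
        exact (hG.2.2 _ hu).2) hs' hs
    rw [Real.norm_eq_abs, Real.norm_eq_abs] at h1
    exact h1

end Pool.Agent.Helper18.UC
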