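import Pool.Agent.Helper18.UC.Dir
import Pool.Agent.Helper18.UC.Curve

/-! Block UC-EXIST: for all labels `t`, `t'` the image at time `n + j` (`j = 0, 1`) of the line with label `t` of
the square `Q` crosses the reflected image at time `n'` of the line with label `t'` of the square `Q'`.

All points of `sqo c s` are at sup distance at most `s ≤ B / Λ` from `p` (`Λ = nn (M a n p)`), so `Good` and
`good_curve` apply. Let `σ` run over `J = [cor k c + s/4, cor k c + 3s/4]`, `X σ = (F^[n] (pt k t σ)).1`,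
`Y σ = (..).2`. `good_curve`: `|X σ - X σ'| ≥ (1 - 3/B) |m| |σ - σ'|`, `|Y σ - Y σ'| ≤ (5/K) |m| |σ - σ'|`,
`K = KK a B ≥ 8 B ≥ 800`, hence slope at most `(5/800)/(0.97) ≤ 1/8`, and the extent over `J` is at least
`(s/2) 0.97 0.49 Λ ≥ 0.118 B ≥ 11 ≥ 4` as `s ≥ B / (2 Λ)`. The same for `Q'`; after `Prod.swap` it is a nearly
vertical curve: `X' r = (F^[n'] (pt k' t' r)).2`, `Y' r = (..).1`. `curve_cross` gives `j = 0`.

`j = 1`: `X` is continuous on `J` with extent at least `11`, so by the intermediate value theorem there are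
`σ0, σ1 ∈ J` and an integer `μ` with `X σ0 = μ/2 - 1/8`, `X σ1 = μ/2 + 1/8`; on the interval between `σ0` and `σ1`
`X` stays between these values (`X` is injective there, i.e. strictly monotone: from `good_curve`,
`|X σ - X σ' - m (σ - σ')| ≤ (3/B) |m| |σ - σ'|`), so `|cos (2 π X)| ≥ √2/2`
of constant sign, and the curve `F ∘ (X, Y) = (f X - Y, X)`, `f x = 2 x + a sin 2πx`, has
`|f X - f X'| ≥ (√2 π |a| - 2) |X - X'|` (mean value theorem, `f' = vv a`), so the extent is at least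
`(√2 π |a| - 3) / 4 ≥ 4` and the slope at most `1 / (√2 π |a| - 3) ≤ 1/8` for `|a| ≥ 10`. `curve_cross` again. -/

set_option autoImplicit false
open MeasureTheory Real Set

namespace Pool.Agent.Helper18.UC

private theorem kk_ge {a B : ℝ} (hB : 100 ≤ B) : 800 ≤ KK a B := by
  unfold KK
  have h1 : 2 ≤ Real.sqrt (LL a) := by
    rw [show (2:ℝ) = Real.sqrt 4 by
      rw [show (4:ℝ) = 2 ^ 2 by norm_num]; exact (Real.sqrt_sq (by norm_num)).symm]
    exact Real.sqrt_le_sqrt (LL_ge a)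
  nlinarith

private theorem dist_sqo {c p q : ℝ × ℝ} {s : ℝ} (hq : q ∈ sqo c s) (hp : p ∈ sqo c s) :
    dist q p ≤ s := by
  obtain ⟨⟨h1, h2⟩, h3, h4⟩ := hq
  obtain ⟨⟨h5, h6⟩, h7, h8⟩ := hp
  rw [Prod.dist_eq, Real.dist_eq, Real.dist_eq]
  refine max_le ?_ ?_ <;> rw [abs_le] <;> constructor <;> linarith

/-- The image of the line with label `t` (the first coordinate grows almost linearly). -/
private theorem line_props {a B : ℝ} (hB : 100 ≤ B) {n : ℕ} {p : ℝ × ℝ} {k : Fin 2} {m : ℝ}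
    (hG : Good a B n p k m) {c : ℝ × ℝ} {s : ℝ} (hs1 : B / (2 * nn (M a n p)) ≤ s)
    (hs2 : s ≤ B / nn (M a n p)) (hpc : p ∈ sqo c s) {t : ℝ}
    (ht : t ∈ Ioo (lab k c) (lab k c + s)) :
    ∃ u0 u1 : ℝ, u0 ≤ u1 ∧ (∀ σ ∈ Icc u0 u1, pt k t σ ∈ sqo c s) ∧
      (∀ σ ∈ Icc u0 u1, ∀ σ' ∈ Icc u0 u1,
        |((F a)^[n] (pt k t σ)).1 - ((F a)^[n] (pt k t σ')).1 - m * (σ - σ')| ≤
          (3 / 100) * (|m| * |σ - σ'|)) ∧
      (∀ σ ∈ Icc u0 u1, ∀ σ' ∈ Icc u0 u1,
        |((F a)^[n] (pt k t σ)).2 - ((F a)^[n] (pt k t σ')).2| ≤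
          (1 / 8) * |((F a)^[n] (pt k t σ)).1 - ((F a)^[n] (pt k t σ')).1|) ∧
      11 ≤ |((F a)^[n] (pt k t u1)).1 - ((F a)^[n] (pt k t u0)).1| := by
  have hL : 2 ≤ nn (M a n p) := two_le_nn a n p
  set Λ := nn (M a n p) with hΛ
  have hLp : 0 < Λ := by linarith
  have hs0 : 0 < s := lt_of_lt_of_le (by positivity) hs1
  have hK := kk_ge (a := a) hB
  have hBp : 0 < B := by linarith
  obtain ⟨hm1, hm2, -⟩ := id hG
  rw [← hΛ] at hm1 hm2
  have hmem : ∀ σ ∈ Icc (cor k c) (cor k c + s / 2), pt k t σ ∈ sqo c s := by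
    intro σ hσ
    rw [pt_mem_sqo_iff]
    exact ⟨⟨ht.1.le, ht.2⟩, hσ.1, by linarith [hσ.2]⟩
  have hdist : ∀ σ ∈ Icc (cor k c) (cor k c + s / 2), dist (pt k t σ) p ≤ B / nn (M a n p) :=
    fun σ hσ => (dist_sqo (hmem σ hσ) hpc).trans hs2
  have hA : ∀ σ ∈ Icc (cor k c) (cor k c + s / 2), ∀ σ' ∈ Icc (cor k c) (cor k c + s / 2),
      |((F a)^[n] (pt k t σ)).1 - ((F a)^[n] (pt k t σ')).1 - m * (σ - σ')| ≤
          (3 / 100) * (|m| * |σ - σ'|) := by
    intro σ hσ σ' hσ'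
    have h1 := (good_curve hB hG (hdist σ hσ) (hdist σ' hσ')).1
    have h2 : 3 / B ≤ 3 / 100 := by
      apply div_le_div_of_nonneg_left (by norm_num) (by norm_num) hB
    refine h1.trans ?_
    rw [mul_assoc]
    exact mul_le_mul_of_nonneg_right h2 (by positivity)
  have hA' : ∀ σ ∈ Icc (cor k c) (cor k c + s / 2), ∀ σ' ∈ Icc (cor k c) (cor k c + s / 2),
      (97 / 100) * (|m| * |σ - σ'|) ≤ |((F a)^[n] (pt k t σ)).1 - ((F a)^[n] (pt k t σ')).1| := by
    intro σ hσ σ' hσ'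
    have h1 := hA σ hσ σ' hσ'
    have h2 : |m * (σ - σ')| = |m| * |σ - σ'| := abs_mul _ _
    have h3 := abs_sub_abs_le_abs_sub (m * (σ - σ'))
      (((F a)^[n] (pt k t σ)).1 - ((F a)^[n] (pt k t σ')).1)
    rw [abs_sub_comm (m * (σ - σ'))] at h3
    rw [h2] at h3
    linarith
  refine ⟨cor k c, cor k c + s / 2, by linarith, hmem, hA, ?_, ?_⟩
  · intro σ hσ σ' hσ'
    have h1 := (good_curve hB hG (hdist σ hσ) (hdist σ' hσ')).2
    have h2 : 5 / KK a B ≤ 5 / 800 := by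
      apply div_le_div_of_nonneg_left (by norm_num) (by norm_num) hK
    have h3 := hA' σ hσ σ' hσ'
    have h4 : 0 ≤ |m| * |σ - σ'| := by positivity
    have h5 : (5 / KK a B) * |m| * |σ - σ'| ≤ 5 / 800 * (|m| * |σ - σ'|) := by
      rw [mul_assoc]
      exact mul_le_mul_of_nonneg_right h2 h4
    linarith
  · have h1 := hA' (cor k c + s / 2) ⟨by linarith, le_rfl⟩ (cor k c) ⟨le_rfl, by linarith⟩
    have h2 : |cor k c + s / 2 - cor k c| = s / 2 := by
      rw [add_sub_cancel_left, abs_of_pos (by linarith)]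
    rw [h2] at h1
    have h3 : B / (2 * Λ) * Λ = B / 2 := by field_simp
    have h4 : B / 2 ≤ s * Λ := by
      rw [← h3]
      exact mul_le_mul_of_nonneg_right hs1 hLp.le
    have h5 : (49 / 100) * Λ * (s / 2) ≤ |m| * (s / 2) :=
      mul_le_mul_of_nonneg_right hm1 (by linarith)
    nlinarith

private theorem line_cont (a : ℝ) (n : ℕ) (k : Fin 2) (t : ℝ) :
    Continuous (fun u : ℝ => ((F a)^[n] (pt k t u)).1) ∧
    Continuous (fun u : ℝ => ((F a)^[n] (pt k t u)).2) :=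
  ⟨continuous_iff_continuousAt.2 fun s => (hasDerivAt_line a n k t s).1.continuousAt,
    continuous_iff_continuousAt.2 fun s => (hasDerivAt_line a n k t s).2.continuousAt⟩

/-- `x ↦ sin 2πx` is uniformly expanding near the half integers. -/
private theorem sin_expand {μ : ℤ} {x y : ℝ} (hx : |x - μ / 2| ≤ 1 / 8) (hy : |y - μ / 2| ≤ 1 / 8) :
    (14 / 5) * |x - y| ≤ |Real.sin (2 * π * x) - Real.sin (2 * π * y)| := by
  rw [abs_le] at hx hy
  have hπ := Real.pi_pos
  have h1 : Real.sin (2 * π * x) - Real.sin (2 * π * y) =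
      2 * Real.sin (π * (x - y)) * Real.cos (π * (x + y - μ) + μ * π) := by
    rw [Real.sin_sub_sin]
    congr 2
    · congr 1; ring
    · ring
  have h2 : 2 * |x - y| ≤ |Real.sin (π * (x - y))| := by
    have h3 : |Real.sin (π * (x - y))| = Real.sin (π * |x - y|) := by
      rcases le_total 0 (x - y) with h | h
      · rw [abs_of_nonneg h, abs_of_nonneg]
        apply Real.sin_nonneg_of_nonneg_of_le_pi (by positivity)
        nlinarith
      · rw [abs_of_nonpos h, mul_neg, Real.sin_neg, abs_of_nonpos]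
        rw [← neg_nonneg, ← Real.sin_neg, ← mul_neg]
        apply Real.sin_nonneg_of_nonneg_of_le_pi
        · have : 0 ≤ -(x - y) := by linarith
          positivity
        · nlinarith
    have h4 : |x - y| ≤ 1 / 4 := by rw [abs_le]; constructor <;> linarith
    have h5 := Real.mul_le_sin (x := π * |x - y|) (by positivity) (by nlinarith)
    rw [h3]
    calc 2 * |x - y| = 2 / π * (π * |x - y|) := by field_simp
      _ ≤ _ := h5
  have h6 : 7 / 10 ≤ |Real.cos (π * (x + y - μ) + μ * π)| := by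
    rw [Real.cos_add_int_mul_pi, abs_mul, abs_zpow, abs_neg, abs_one, one_zpow, one_mul]
    have h7 : |π * (x + y - μ)| ≤ π / 4 := by
      rw [abs_mul, abs_of_pos hπ]
      have : |x + y - μ| ≤ 1 / 4 := by rw [abs_le]; constructor <;> linarith
      nlinarith
    have h8 : Real.cos (π / 4) ≤ Real.cos |π * (x + y - μ)| := by
      apply Real.cos_le_cos_of_nonneg_of_le_pi (abs_nonneg _) (by linarith) h7
    rw [Real.cos_abs, Real.cos_pi_div_four] at h8
    have h9 : (7 : ℝ) / 10 ≤ √2 / 2 := by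
      have : (14 : ℝ) / 10 ≤ √2 := by
        apply Real.le_sqrt_of_sq_le
        norm_num
      linarith
    exact (h9.trans h8).trans (le_abs_self _)
  rw [h1, abs_mul, abs_mul, abs_two]
  have h10 : 0 ≤ |x - y| := abs_nonneg _
  calc (14 / 5) * |x - y| = 2 * (2 * |x - y|) * (7 / 10) := by ring
    _ ≤ 2 * |Real.sin (π * (x - y))| * |Real.cos (π * (x + y - μ) + μ * π)| := by
        apply mul_le_mul _ h6 (by norm_num) (by positivity)
        linarith

theorem cross_exists {a B : ℝ} (hB : 100 ≤ B) (ha : 10 ≤ |a|) {n n' : ℕ}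
    {p p' : ℝ × ℝ} {k k' : Fin 2} {m m' : ℝ}
    (hG : Good a B n p k m) (hG' : Good a B n' p' k' m')
    {c c' : ℝ × ℝ} {s s' : ℝ} (hs1 : B / (2 * nn (M a n p)) ≤ s) (hs2 : s ≤ B / nn (M a n p))
    (hpc : p ∈ sqo c s) (hs1' : B / (2 * nn (M a n' p')) ≤ s') (hs2' : s' ≤ B / nn (M a n' p'))
    (hpc' : p' ∈ sqo c' s') {j : ℕ} (hj : j ≤ 1) {t t' : ℝ}
    (ht : t ∈ Ioo (lab k c) (lab k c + s)) (ht' : t' ∈ Ioo (lab k' c') (lab k' c' + s')) :
    ∃ σ σ' : ℝ, pt k t σ ∈ sqo c s ∧ pt k' t' σ' ∈ sqo c' s' ∧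
      ∃ u w : ℤ, (F a)^[n + j] (pt k t σ) = sh (Prod.swap ((F a)^[n'] (pt k' t' σ'))) u w := by
  obtain ⟨u0, u1, hu, hmem, hA, hsl, hext⟩ := line_props hB hG hs1 hs2 hpc ht
  obtain ⟨r0, r1, hr, hmem', hA', hsl', hext'⟩ := line_props hB hG' hs1' hs2' hpc' ht'
  obtain ⟨hcX, hcY⟩ := line_cont a n k t
  obtain ⟨hcX', hcY'⟩ := line_cont a n' k' t'
  have hj' : j = 0 ∨ j = 1 := by omega
  rcases hj' with rfl | rfl
  · obtain ⟨σ, hσ, r, hr', u, w, h1, h2⟩ := curve_cross hu hr hcX.continuousOn hcY.continuousOn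
      hcY'.continuousOn hcX'.continuousOn (by linarith) hsl (by linarith) hsl'
    exact ⟨σ, r, hmem σ hσ, hmem' r hr', u, w, Prod.ext h1 h2⟩
  · -- one more iterate
    set X : ℝ → ℝ := fun u => ((F a)^[n] (pt k t u)).1 with hXdef
    set Y : ℝ → ℝ := fun u => ((F a)^[n] (pt k t u)).2 with hYdef
    have hF : ∀ u, (F a)^[n + 1] (pt k t u) = (2 * X u - Y u + a * Real.sin (2 * π * X u), X u) := by
      intro u
      rw [Function.iterate_succ_apply']
      rfl
    -- the final step on a subinterval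
    have key : ∀ (μ : ℤ) (a0 a1 : ℝ), a0 ≤ a1 → u0 ≤ a0 → a1 ≤ u1 →
        (∀ σ ∈ Icc a0 a1, |X σ - μ / 2| ≤ 1 / 8) → |X a1 - X a0| = 1 / 4 →
        ∃ σ σ' : ℝ, pt k t σ ∈ sqo c s ∧ pt k' t' σ' ∈ sqo c' s' ∧
          ∃ u w : ℤ, (F a)^[n + 1] (pt k t σ) =
            sh (Prod.swap ((F a)^[n'] (pt k' t' σ'))) u w := by
      intro μ a0 a1 h01 h0 h1 hX hext1
      have hexp : ∀ σ ∈ Icc a0 a1, ∀ σ' ∈ Icc a0 a1, 25 * |X σ - X σ'| ≤
          |(2 * X σ - Y σ + a * Real.sin (2 * π * X σ)) -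
            (2 * X σ' - Y σ' + a * Real.sin (2 * π * X σ'))| := by
        intro σ hσ σ' hσ'
        have e1 := sin_expand (hX σ hσ) (hX σ' hσ')
        have e2 : 28 * |X σ - X σ'| ≤
            |a * (Real.sin (2 * π * X σ) - Real.sin (2 * π * X σ'))| := by
          rw [abs_mul]
          have := abs_nonneg (X σ - X σ')
          nlinarith [mul_le_mul ha e1 (by positivity) (by positivity)]
        have e3 := hsl σ ⟨h0.trans hσ.1, hσ.2.trans h1⟩ σ' ⟨h0.trans hσ'.1, hσ'.2.trans h1⟩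
        have e4 : (2 * X σ - Y σ + a * Real.sin (2 * π * X σ)) -
            (2 * X σ' - Y σ' + a * Real.sin (2 * π * X σ')) =
            a * (Real.sin (2 * π * X σ) - Real.sin (2 * π * X σ')) -
              ((Y σ - Y σ') - 2 * (X σ - X σ')) := by ring
        have e5 := abs_sub_abs_le_abs_sub (a * (Real.sin (2 * π * X σ) - Real.sin (2 * π * X σ')))
          ((Y σ - Y σ') - 2 * (X σ - X σ'))
        have e6 : |(Y σ - Y σ') - 2 * (X σ - X σ')| ≤ |Y σ - Y σ'| + 2 * |X σ - X σ'| := by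
          refine (abs_sub _ _).trans ?_
          rw [abs_mul, abs_two]
        rw [e4]
        have e7 : |Y σ - Y σ'| ≤ 1 / 8 * |X σ - X σ'| := e3
        have := abs_nonneg (X σ - X σ')
        linarith
      have hc1 : ContinuousOn (fun u => 2 * X u - Y u + a * Real.sin (2 * π * X u)) (Icc a0 a1) := by
        apply Continuous.continuousOn
        exact ((continuous_const.mul hcX).sub hcY).add
          (continuous_const.mul (Real.continuous_sin.comp (continuous_const.mul hcX)))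
      obtain ⟨σ, hσ, r, hr', u, w, e1, e2⟩ := curve_cross h01 hr hc1 hcX.continuousOn
        hcY'.continuousOn hcX'.continuousOn
        (by
          have e1 := hexp a1 ⟨h01, le_rfl⟩ a0 ⟨le_rfl, h01⟩
          rw [hext1] at e1
          exact le_trans (by norm_num) e1)
        (fun σ hσ σ' hσ' => by
          have e1 := hexp σ hσ σ' hσ'
          have e2 := abs_nonneg (X σ - X σ')
          change |X σ - X σ'| ≤ 1 / 8 * |(2 * X σ - Y σ + a * Real.sin (2 * π * X σ)) -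
            (2 * X σ' - Y σ' + a * Real.sin (2 * π * X σ'))|
          linarith)
        (by linarith) hsl'
      refine ⟨σ, r, hmem σ ⟨h0.trans hσ.1, hσ.2.trans h1⟩, hmem' r hr', u, w, ?_⟩
      rw [hF]
      exact Prod.ext e1 e2
    -- monotonicity
    have hA2 : ∀ σ ∈ Icc u0 u1, ∀ σ' ∈ Icc u0 u1,
        |X σ - X σ' - m * (σ - σ')| ≤ (3 / 100) * (|m| * |σ - σ'|) := hA
    have hext2 : 11 ≤ |X u1 - X u0| := hext
    set μ : ℤ := round (X u0 + X u1) with hμdef
    have hμ : |X u0 + X u1 - μ| ≤ 1 / 2 := abs_sub_round _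
    rw [abs_le] at hμ
    rcases le_total 0 m with hm | hm
    · have hmono : ∀ σ ∈ Icc u0 u1, ∀ σ' ∈ Icc u0 u1, σ' ≤ σ → X σ' ≤ X σ := by
        intro σ hσ σ' hσ' hle
        have e1 := hA2 σ hσ σ' hσ'
        rw [abs_of_nonneg hm, abs_of_nonneg (sub_nonneg.2 hle), abs_le] at e1
        have e2 : 0 ≤ m * (σ - σ') := mul_nonneg hm (sub_nonneg.2 hle)
        linarith [e1.1]
      have e0 := hmono u1 ⟨hu, le_rfl⟩ u0 ⟨le_rfl, hu⟩ hu
      rw [abs_of_nonneg (sub_nonneg.2 e0)] at hext2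
      have hivt := intermediate_value_Icc hu hcX.continuousOn
      obtain ⟨σ0, hσ0, hσ0'⟩ := hivt (show (μ / 2 - 1 / 8 : ℝ) ∈ Icc (X u0) (X u1) from
        ⟨by linarith [hμ.1, hμ.2], by linarith [hμ.1, hμ.2]⟩)
      obtain ⟨σ1, hσ1, hσ1'⟩ := hivt (show (μ / 2 + 1 / 8 : ℝ) ∈ Icc (X u0) (X u1) from
        ⟨by linarith [hμ.1, hμ.2], by linarith [hμ.1, hμ.2]⟩)
      have h01 : σ0 ≤ σ1 := by
        by_contra hcon
        have := hmono σ0 hσ0 σ1 hσ1 (not_le.1 hcon).le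
        change X σ1 ≤ X σ0 at this
        change X σ0 = _ at hσ0'
        change X σ1 = _ at hσ1'
        linarith
      refine key μ σ0 σ1 h01 hσ0.1 hσ1.2 ?_ ?_
      · intro σ hσ
        have hσJ : σ ∈ Icc u0 u1 := ⟨hσ0.1.trans hσ.1, hσ.2.trans hσ1.2⟩
        have e1 := hmono σ hσJ σ0 hσ0 hσ.1
        have e2 := hmono σ1 hσ1 σ hσJ hσ.2
        change X σ0 = _ at hσ0'
        change X σ1 = _ at hσ1'
        rw [abs_le]
        constructor <;> linarith
      · change X σ0 = _ at hσ0'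
        change X σ1 = _ at hσ1'
        rw [hσ0', hσ1', abs_of_nonneg] <;> linarith
    · have hmono : ∀ σ ∈ Icc u0 u1, ∀ σ' ∈ Icc u0 u1, σ' ≤ σ → X σ ≤ X σ' := by
        intro σ hσ σ' hσ' hle
        have e1 := hA2 σ hσ σ' hσ'
        rw [abs_of_nonpos hm, abs_of_nonneg (sub_nonneg.2 hle), abs_le] at e1
        have e2 : m * (σ - σ') ≤ 0 := mul_nonpos_of_nonpos_of_nonneg hm (sub_nonneg.2 hle)
        linarith [e1.2]
      have e0 := hmono u1 ⟨hu, le_rfl⟩ u0 ⟨le_rfl, hu⟩ hu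
      rw [abs_of_nonpos (sub_nonpos.2 e0)] at hext2
      have hivt := intermediate_value_Icc' hu hcX.continuousOn
      obtain ⟨σ0, hσ0, hσ0'⟩ := hivt (show (μ / 2 - 1 / 8 : ℝ) ∈ Icc (X u1) (X u0) from
        ⟨by linarith [hμ.1, hμ.2], by linarith [hμ.1, hμ.2]⟩)
      obtain ⟨σ1, hσ1, hσ1'⟩ := hivt (show (μ / 2 + 1 / 8 : ℝ) ∈ Icc (X u1) (X u0) from
        ⟨by linarith [hμ.1, hμ.2], by linarith [hμ.1, hμ.2]⟩)
      have h01 : σ1 ≤ σ0 := by
        by_contra hcon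
        have := hmono σ1 hσ1 σ0 hσ0 (not_le.1 hcon).le
        change X σ1 ≤ X σ0 at this
        change X σ0 = _ at hσ0'
        change X σ1 = _ at hσ1'
        linarith
      refine key μ σ1 σ0 h01 hσ1.1 hσ0.2 ?_ ?_
      · intro σ hσ
        have hσJ : σ ∈ Icc u0 u1 := ⟨hσ1.1.trans hσ.1, hσ.2.trans hσ0.2⟩
        have e1 := hmono σ hσJ σ1 hσ1 hσ.1
        have e2 := hmono σ0 hσ0 σ hσJ hσ.2
        change X σ0 = _ at hσ0'
        change X σ1 = _ at hσ1'
        rw [abs_le]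
        constructor <;> linarith
      · change X σ0 = _ at hσ0'
        change X σ1 = _ at hσ1'
        rw [hσ0', hσ1', abs_of_nonpos] <;> linarith

end Pool.Agent.Helper18.UC
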