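import Pool.Agent.Helper18.UC.Eig
import Pool.Agent.Helper18.UC.Expo

/-! Assembly of project UC. -/

set_option autoImplicit false
open MeasureTheory Real Set Filter Topology

namespace Pool.Agent.Helper18.UC

private lemma LL_le {a : ℝ} (ha : 1000 ≤ |a|) : LL a ≤ 629 / 100 * |a| := by
  unfold LL
  have := Real.pi_lt_d4
  nlinarith

private lemma le_LL {a : ℝ} : |a| ≤ LL a := by
  unfold LL
  have := Real.pi_gt_three
  nlinarith [abs_nonneg a]

private lemma logKK {a B : ℝ} (hB : 0 < B) :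
    Real.log (KK a B) = Real.log (4 * B) + 1 / 2 * Real.log (LL a) := by
  unfold KK
  rw [Real.log_mul (by positivity) (Real.sqrt_pos.2 (LL_pos a)).ne', Real.log_sqrt (LL_pos a).le]
  ring

private lemma KK_small {a B : ℝ} (_hB : 0 < B) (ha : 64 * B ^ 2 ≤ |a|) : 2 * KK a B ≤ LL a := by
  have h1 : 64 * B ^ 2 ≤ LL a := ha.trans le_LL
  have h2 : (8 * B) ≤ Real.sqrt (LL a) := by
    apply Real.le_sqrt_of_sq_le
    nlinarith
  have h3 : Real.sqrt (LL a) * Real.sqrt (LL a) = LL a := Real.mul_self_sqrt (LL_pos a).le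
  unfold KK
  have h4 : 0 ≤ Real.sqrt (LL a) := Real.sqrt_nonneg _
  nlinarith

private lemma thr {a : ℝ} (ha : 110000 ≤ |a|) :
    Real.log (KK a 100) < 1 / 2 * Real.log |a| + 7 := by
  have ha0 : 0 < |a| := by linarith
  have hK : 0 < KK a 100 := KK_pos a (by norm_num)
  have h1 : KK a 100 ^ 2 < |a| * Real.exp 14 := by
    rw [KK_sq]
    have hL := LL_le (a := a) (by linarith)
    have he : (1100000 : ℝ) < Real.exp 14 := by
      have h := Real.exp_one_gt_d9
      have h2 : Real.exp 14 = Real.exp 1 ^ 14 := by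
        rw [← Real.exp_nat_mul]; norm_num
      rw [h2]
      calc (1100000:ℝ) < 2.718 ^ 14 := by norm_num
        _ ≤ Real.exp 1 ^ 14 := pow_le_pow_left₀ (by norm_num) (by linarith) 14
    nlinarith
  have h2 := Real.log_lt_log (by positivity) h1
  rw [Real.log_pow, Real.log_mul ha0.ne' (Real.exp_pos _).ne', Real.log_exp] at h2
  push_cast at h2
  linarith

private lemma thr2 {a : ℝ} (ha : 110000 ≤ |a|) :
    1 / 2 * Real.log |a| + 7 ≤ Real.log (LL a) := by
  have ha0 : 0 < |a| := by linarith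
  have h1 : |a| * Real.exp 14 ≤ LL a ^ 2 := by
    have h3 : 628 / 100 * |a| ≤ LL a := by
      unfold LL; have := Real.pi_gt_d2; nlinarith
    have he : Real.exp 14 < 1300000 := by
      have h := Real.exp_one_lt_d9
      have h2 : Real.exp 14 = Real.exp 1 ^ 14 := by
        rw [← Real.exp_nat_mul]; norm_num
      rw [h2]
      calc Real.exp 1 ^ 14 ≤ 2.7182818286 ^ 14 :=
            pow_le_pow_left₀ (Real.exp_pos 1).le (by linarith) 14
        _ < 1300000 := by norm_num
    nlinarith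
  have h2 := Real.log_le_log (by positivity) h1
  rw [Real.log_pow, Real.log_mul ha0.ne' (Real.exp_pos _).ne', Real.log_exp] at h2
  push_cast at h2
  linarith

private lemma prob_T2 : IsProbabilityMeasure (volume : Measure T2) := by
  have h1 : IsProbabilityMeasure (volume : Measure UnitAddCircle) := by
    constructor
    rw [UnitAddCircle.measure_univ]
  show IsProbabilityMeasure ((volume : Measure UnitAddCircle).prod volume)
  infer_instance

/-- the numbers in the second part -/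
private lemma num {θ t e B μ δ : ℝ} (ht : 1 / 2 ≤ t) (ht1 : t ≤ 1) (he : 0 ≤ e) (he2 : e ≤ 1 / 8)
    (hθ : t - e ≤ θ) (hθ1 : θ ≤ 1) (hB : 0 < B) (hBδ : 100 / B ≤ δ / 2) (heδ : 16 * e ≤ δ / 2)
    (hμ0 : 0 ≤ μ) (hμ1 : μ ≤ 1) (h : 2 * θ - 1 ≤ (1 + 100 / B) * θ ^ 2 * μ) :
    1 - ((1 - t) / t) ^ 2 - δ ≤ μ := by
  have hθ0 : 3 / 8 ≤ θ := by linarith
  have ht0 : 0 < t := by linarith
  have h1 : 1 - ((1 - θ) / θ) ^ 2 ≤ (1 + 100 / B) * μ := by
    have : 1 - ((1 - θ) / θ) ^ 2 = (2 * θ - 1) / θ ^ 2 := by field_simp; ring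
    rw [this, div_le_iff₀ (by positivity)]
    linarith
  have h2 : (1 + 100 / B) * μ ≤ μ + δ / 2 := by
    have h0 : 0 ≤ 100 / B := by positivity
    nlinarith
  have h3 : (1 - θ) / θ ≤ (1 - t) / t + 16 / 3 * e := by
    rw [div_add' _ _ _ ht0.ne', div_le_div_iff₀ (by linarith) ht0]
    have hb : (1 - θ) * t - (1 - t) * θ ≤ e := by nlinarith
    have hc : 16 / 3 * e * t * θ ≥ e := by
      have : t * θ ≥ 3 / 16 := by nlinarith
      nlinarith
    nlinarith
  have h4 : 0 ≤ (1 - θ) / θ := div_nonneg (by linarith) (by linarith)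
  have h5 : 0 ≤ (1 - t) / t := div_nonneg (by linarith) ht0.le
  have h6 : (1 - t) / t ≤ 1 := by rw [div_le_one ht0]; linarith
  have h7 : ((1 - θ) / θ) ^ 2 ≤ ((1 - t) / t) ^ 2 + 16 * e := by
    have h8 : ((1 - θ) / θ) ^ 2 ≤ ((1 - t) / t + 16 / 3 * e) ^ 2 :=
      pow_le_pow_left₀ h4 h3 2
    nlinarith
  linarith

theorem main : ∀ δ : ℝ, 0 < δ → ∃ A : ℝ, ∀ a : ℝ, A ≤ |a| →
    ∀ S : UnitAddCircle × UnitAddCircle → UnitAddCircle × UnitAddCircle,
    (∀ x y : ℝ, S ((x : UnitAddCircle), (y : UnitAddCircle)) =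
      (((2 * x - y + a * Real.sin (2 * π * x) : ℝ) : UnitAddCircle), (x : UnitAddCircle))) →
    ∃ lam : UnitAddCircle × UnitAddCircle → ℝ, Measurable lam ∧
      (∀ᵐ p : ℝ × ℝ, Tendsto (fun n : ℕ => Real.log
          ‖fderiv ℝ ((fun q : ℝ × ℝ => (2 * q.1 - q.2 + a * Real.sin (2 * π * q.1), q.1))^[n]) p‖
            / n) atTop (𝓝 (lam ((p.1 : UnitAddCircle), (p.2 : UnitAddCircle))))) ∧
      (∀ (ξ : ℂ) (h : UnitAddCircle × UnitAddCircle → ℂ), Measurable h →
        (∀ᵐ z, 1 / 2 * Real.log |a| + 7 < lam z → h (S z) = ξ * h z) →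
        ∃ w : ℂ, ∀ᵐ z, 1 / 2 * Real.log |a| + 7 < lam z → h z = w) ∧
      (∀ σ : ℝ, 0 ≤ σ → σ ≤ 1 / 4 → volume {z | (1 - σ) * Real.log |a| ≤ lam z} ≠ 0 →
        1 - (2 * σ / (1 - 2 * σ)) ^ 2 - δ ≤
          volume.real {z | 1 / 2 * Real.log |a| + 7 < lam z}) := by
  intro δ hδ
  obtain ⟨B, hB, hBδ⟩ : ∃ B : ℝ, 100 ≤ B ∧ 100 / B ≤ δ / 2 := by
    refine ⟨max 100 (200 / δ), le_max_left _ _, ?_⟩
    have h100 : (0:ℝ) < max 100 (200 / δ) := lt_of_lt_of_le (by norm_num) (le_max_left _ _)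
    rw [div_le_div_iff₀ h100 (by norm_num)]
    have : 200 / δ ≤ max 100 (200 / δ) := le_max_right _ _
    rw [div_le_iff₀ hδ] at this
    linarith
  have hB0 : 0 < B := by linarith
  have hlog4B : 0 ≤ Real.log (4 * B) := Real.log_nonneg (by linarith)
  have hlog7 : 0 ≤ Real.log 7 := Real.log_nonneg (by norm_num)
  obtain ⟨C1, hC1⟩ : ∃ C1 : ℝ, C1 = 1 + Real.log (4 * B) + 1 / 2 * Real.log 7 := ⟨_, rfl⟩
  have hC1pos : 0 < C1 := by rw [hC1]; linarith
  obtain ⟨D1, hD1⟩ : ∃ D1 : ℝ, D1 = 2 * C1 + Real.log 7 := ⟨_, rfl⟩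
  have hD1pos : 0 < D1 := by rw [hD1]; linarith
  refine ⟨max (max 110000 (64 * B ^ 2)) (Real.exp (max 32 (8 * D1 + 32 * D1 / δ))), ?_⟩
  intro a ha S hS
  have ha1 : 110000 ≤ |a| := (le_max_left _ _).trans ((le_max_left _ _).trans ha)
  have ha2 : 64 * B ^ 2 ≤ |a| := (le_max_right _ _).trans ((le_max_left _ _).trans ha)
  have ha3 : Real.exp (max 32 (8 * D1 + 32 * D1 / δ)) ≤ |a| := (le_max_right _ _).trans ha
  have ha0 : 0 < |a| := by linarith
  have hl : max 32 (8 * D1 + 32 * D1 / δ) ≤ Real.log |a| := by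
    rw [Real.le_log_iff_exp_le ha0]; exact ha3
  have hl1 : 32 ≤ Real.log |a| := (le_max_left _ _).trans hl
  have hl2 : 8 * D1 + 32 * D1 / δ ≤ Real.log |a| := (le_max_right _ _).trans hl
  have hS' : IsS a S := hS
  obtain ⟨lam, hlm, -, -, hlim, hom⟩ := exists_lam hS'
  refine ⟨lam, hlm, hlim, ?_, ?_⟩
  · -- uniqueness and weak mixing
    intro ξ h hh heq
    set c : ℝ := 1 / 2 * Real.log |a| + 7 with hc
    have hcK : Real.log (KK a 100) < c := thr ha1
    have hcL : c ≤ Real.log (LL a) := thr2 ha1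
    have hLK : 2 * KK a 100 ≤ LL a := KK_small (by norm_num) (by nlinarith)
    have hmeas := measurableSet_om a c
    have hinv := om_inv hS' c
    have hP := om_PN (a := a) c
    have heq' : ∀ᵐ z, z ∈ om a c → h (S z) = ξ * h z := by
      filter_upwards [heq, hom c] with z h1 h2 hz
      exact h1 (h2.1 hz)
    obtain ⟨w, hw⟩ := eig_const (S_mp hS') hmeas hinv (fun E E' hE hE' hEΩ hEΩ' hm hm' =>
      pos hS' (by norm_num : (100:ℝ) ≤ 100) (by linarith) hLK hcK hcL hmeas hinv hP hE hEΩ hE' hEΩ'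
        hm hm') hh heq'
    refine ⟨w, ?_⟩
    filter_upwards [hw, hom c] with z h1 h2 hz
    exact h1 (h2.2 hz)
  · -- the measure
    have := prob_T2
    intro σ hσ0 hσ1 hvol
    obtain ⟨c, hc⟩ : ∃ c : ℝ, c = (1 - σ) * Real.log |a| - 1 := ⟨_, rfl⟩
    have hLa : Real.log (LL a) ≤ Real.log |a| + Real.log 7 := by
      rw [← Real.log_mul ha0.ne' (by norm_num)]
      apply Real.log_le_log (LL_pos a)
      have := LL_le (a := a) (by linarith)
      linarith
    have hLa2 : Real.log |a| ≤ Real.log (LL a) := Real.log_le_log ha0 le_LL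
    have hlK := logKK (a := a) hB0
    have hLK : 2 * KK a B ≤ LL a := KK_small hB0 ha2
    have hKpos := KK_pos a hB0
    have hden : 0 < Real.log (LL a) - Real.log (KK a B) := by
      have h1 : KK a B < LL a := by linarith
      have := Real.log_lt_log hKpos h1
      linarith
    have hden2 : Real.log (LL a) - Real.log (KK a B) ≤ 1 / 2 * (Real.log |a| + Real.log 7) := by
      rw [hlK]; linarith
    have hnum : (1 / 2 - σ) * Real.log |a| - C1 ≤ c - Real.log (KK a B) := by
      rw [hlK, hc, hC1]; nlinarith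
    have hδ1 : 0 ≤ 32 * D1 / δ := by positivity
    have hcK : Real.log (KK a B) < c := by
      have h1 : 0 < (1 / 2 - σ) * Real.log |a| - C1 := by
        have h2 : 1 / 4 * Real.log |a| ≤ (1 / 2 - σ) * Real.log |a| := by nlinarith
        have h3 : 8 * D1 ≤ Real.log |a| := by linarith
        rw [hD1] at h3
        linarith
      linarith
    have hcL : c ≤ Real.log (LL a) := by
      rw [hc]; nlinarith
    have hmeas := measurableSet_om a c
    have hinv := om_inv hS' c
    have hP := om_PN (a := a) c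
    have hne : volume (om a c) ≠ 0 := by
      intro h0
      apply hvol
      have h1 : ∀ᵐ z, z ∉ om a c := by
        rw [ae_iff]; simpa using h0
      have h2 : ∀ᵐ z, ¬ ((1 - σ) * Real.log |a| ≤ lam z) := by
        filter_upwards [h1, hom c] with z h3 h4 h5
        exact h3 (h4.2 (by rw [hc]; linarith))
      rw [ae_iff] at h2
      simpa using h2
    obtain ⟨θ, hθ⟩ : ∃ θ : ℝ, θ = (c - Real.log (KK a B)) / (Real.log (LL a) - Real.log (KK a B)) :=
      ⟨_, rfl⟩
    have hbig := big hS' hB hLK hcK hcL hmeas hinv hP hne hθ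
    have hθ1 : θ ≤ 1 := by rw [hθ, div_le_one hden]; linarith
    have hl0 : 0 < Real.log |a| := by linarith
    have hθt : (1 - 2 * σ) - D1 / Real.log |a| ≤ θ := by
      rw [hθ, le_div_iff₀ hden]
      have h1 : ((1 - 2 * σ) - D1 / Real.log |a|) * (Real.log (LL a) - Real.log (KK a B)) ≤
          (1 / 2 - σ) * Real.log |a| - C1 := by
        have hq : D1 / Real.log |a| ≤ 1 / 8 := by
          rw [div_le_iff₀ hl0]; linarith
        have hpos : 0 ≤ (1 - 2 * σ) - D1 / Real.log |a| := by linarith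
        calc ((1 - 2 * σ) - D1 / Real.log |a|) * (Real.log (LL a) - Real.log (KK a B)) ≤
            ((1 - 2 * σ) - D1 / Real.log |a|) * (1 / 2 * (Real.log |a| + Real.log 7)) :=
              mul_le_mul_of_nonneg_left hden2 hpos
          _ = 1 / 2 * ((1 - 2 * σ) * Real.log |a| + (1 - 2 * σ) * Real.log 7 -
                D1 / Real.log |a| * Real.log |a| - D1 / Real.log |a| * Real.log 7) := by ring
          _ = 1 / 2 * ((1 - 2 * σ) * Real.log |a| + (1 - 2 * σ) * Real.log 7 - D1 -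
                D1 / Real.log |a| * Real.log 7) := by rw [div_mul_cancel₀ _ hl0.ne']
          _ ≤ _ := by
            have h2 : 0 ≤ D1 / Real.log |a| * Real.log 7 := by positivity
            have h3 : (1 - 2 * σ) * Real.log 7 ≤ Real.log 7 :=
              mul_le_of_le_one_left hlog7 (by linarith)
            linarith
      linarith
    have hsub : volume.real (om a c) ≤ volume.real {z | 1 / 2 * Real.log |a| + 7 < lam z} := by
      apply ENNReal.toReal_mono (measure_ne_top _ _)
      apply measure_mono_ae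
      filter_upwards [hom c] with z h1 h2
      have h3 := h1.1 h2
      show 1 / 2 * Real.log |a| + 7 < lam z
      have : 1 / 2 * Real.log |a| + 7 ≤ c := by rw [hc]; nlinarith
      linarith
    refine le_trans ?_ hsub
    have hfin := num (t := 1 - 2 * σ) (e := D1 / Real.log |a|) (by linarith) (by linarith)
      (by positivity) (by rw [div_le_iff₀ hl0]; linarith) hθt hθ1 hB0 hBδ
      (by
        rw [← mul_div_assoc, div_le_iff₀ hl0]
        have h4 : 32 * D1 / δ ≤ Real.log |a| := by linarith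
        rw [div_le_iff₀ hδ] at h4
        linarith) measureReal_nonneg (measureReal_le_one (μ := (volume : Measure T2))) hbig
    have he : (1 - (1 - 2 * σ)) / (1 - 2 * σ) = 2 * σ / (1 - 2 * σ) := by ring
    rw [he] at hfin
    exact hfin

end Pool.Agent.Helper18.UC
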