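import Pool.Agent.Helper18.UC.Exist

/-! Block UC-MLOW: lower bound for the measure of the hits.

`N = n + j + n'`, `Λ = nn (M a n p)`, `Λ' = nn (M a n' p')`. For `k`-labels `t ∈ (lab k c, lab k c + s)` let
`A t = {σ | pt k t σ ∈ Hit a N c s c' s'}`; claim `volume (A t) ≥ s' / C` with `C = 1.03 LL^j Λ Λ'`. For integers
`u w` let `A t u w = {σ | pt k t σ ∈ sqo c s ∧ sh (swap (F^[N] (pt k t σ))) u w ∈ sqo c' s'}` (Borel sets, pairwise
disjoint in `(u, w)` because `s' < 1`: two points of `sqo c' s'` do not differ by a nonzero integer vector; `s' ≤ B / Λ'`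
may be large for small `n'`, so either use the hypothesis `hs1` below or avoid disjointness by choosing for
every `t'` one pair: see below) and
`g u w σ = lab k' (sh (swap (F^[N] (pt k t σ))) u w)`. `g u w` is differentiable with `|g'| ≤ nn (M a N (pt k t σ))`
(the derivative is an entry of `M a N`, `hasDerivAt_line`), and on `A t u w`, with `q = pt k t σ`, `z = F^[n+j] q`,
`q'' = sh (swap (F^[N] q)) u w ∈ sqo c' s'`: `nn (M N q) ≤ nn (M n' z) nn (M (n+j) q)` (`M_add`, `nn_mul`),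
`nn (M n' z) = nn (M n' (swap (F^[n'] z)))` (`nn_rev`) `= nn (M n' q'')` (`M_sh`) `≤ (1 + 1/B) Λ'`
(`near_linear` with `i = n'`, `nn_sub_le`), `nn (M (n+j) q) ≤ LL^j nn (M n q) ≤ LL^j (1 + 1/B) Λ`.
By `cross_exists` every `t' ∈ (lab k' c', lab k' c' + s')` is in `g u w '' (A t u w)` for some `(u, w)`
(`F^[N] = F^[n'] ∘ F^[n+j]`, `iter_sh`, `F_rev`: `F^[n'] (sh (swap (F^[n'] q')) u w) = sh (swap q') u' w'`). So
`s' ≤ ∑ volume (g '' A) ≤ ∑ ∫_A |g'| ≤ C ∑ volume (A t u w) = C volume (A t)`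
(`MeasureTheory.addHaar_image_le_lintegral_abs_det_fderiv` in dimension one or
`lintegral_image_eq_lintegral_abs_deriv_mul`-type lemmas; the sets are measurable). Fubini:
`volume Hit ≥ s * s' / C` and `Λ ≤ B / s`, `Λ' ≤ B / s'` give `≥ s² s'² / (1.03 LL^j B²)`.
(`volume` on `ℝ × ℝ` is the product measure; `pt 1 t σ = swap (pt 0 t σ)` and `swap` preserves volume,
`MeasureTheory.Measure.measurePreserving_swap`, so the case `k = 1` reduces to slices in the other variable,
`Measure.prod_apply_symm`.) -/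

set_option autoImplicit false
open MeasureTheory Real Set

namespace Pool.Agent.Helper18.UC

private theorem ml_sqo_meas (c : ℝ × ℝ) (s : ℝ) : MeasurableSet (sqo c s) :=
  measurableSet_Ico.prod measurableSet_Ico

private theorem ml_sh_cont (u w : ℤ) : Continuous (fun q : ℝ × ℝ => sh q u w) := by
  unfold sh
  fun_prop

theorem measurableSet_hit (a : ℝ) (N : ℕ) (c : ℝ × ℝ) (s : ℝ) (c' : ℝ × ℝ) (s' : ℝ) :
    MeasurableSet (Hit a N c s c' s') := by
  have h : Hit a N c s c' s' = sqo c s ∩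
      ⋃ u : ℤ, ⋃ w : ℤ, (fun q => sh (Prod.swap ((F a)^[N] q)) u w) ⁻¹' sqo c' s' := by
    ext q
    simp only [Hit, mem_ofPred_eq, mem_inter_iff, mem_iUnion, mem_preimage]
  rw [h]
  refine (ml_sqo_meas c s).inter (MeasurableSet.iUnion fun u => MeasurableSet.iUnion fun w => ?_)
  exact ((ml_sh_cont u w).comp (continuous_swap.comp ((F_cont a).iterate N))).measurable
    (ml_sqo_meas c' s')

private theorem ml_dist_sqo {c p q : ℝ × ℝ} {s : ℝ} (hq : q ∈ sqo c s) (hp : p ∈ sqo c s) :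
    dist q p ≤ s := by
  obtain ⟨⟨h1, h2⟩, h3, h4⟩ := hq
  obtain ⟨⟨h5, h6⟩, h7, h8⟩ := hp
  rw [Prod.dist_eq, Real.dist_eq, Real.dist_eq]
  refine max_le ?_ ?_ <;> rw [abs_le] <;> constructor <;> linarith

private theorem ml_near {a B : ℝ} (hB : 100 ≤ B) {n : ℕ} {p : ℝ × ℝ} (hp : Hyp a B n p)
    {c : ℝ × ℝ} {s : ℝ} (hs2 : s ≤ B / nn (M a n p)) (hpc : p ∈ sqo c s) {q : ℝ × ℝ}
    (hq : q ∈ sqo c s) : nn (M a n q) ≤ (1 + 1 / B) * nn (M a n p) := by
  have h1 := near_linear (by linarith : 1 ≤ B) hp ((ml_dist_sqo hq hpc).trans hs2) n le_rfl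
  rw [Nat.sub_self, Nat.mul_zero, pow_zero, one_mul] at h1
  have h2 := nn_sub_le (M a n q) (M a n p)
  have h3 : (1 + 1 / B) * nn (M a n p) = nn (M a n p) + nn (M a n p) / B := by ring
  linarith

private theorem ml_deriv {a B : ℝ} (hB : 100 ≤ B) {n n' : ℕ}
    {p p' : ℝ × ℝ} (hp : Hyp a B n p) (hp' : Hyp a B n' p')
    {c c' : ℝ × ℝ} {s s' : ℝ} (hs2 : s ≤ B / nn (M a n p))
    (hpc : p ∈ sqo c s) (hs2' : s' ≤ B / nn (M a n' p'))
    (hpc' : p' ∈ sqo c' s') {j : ℕ} (hj : j ≤ 1) {q : ℝ × ℝ}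
    (hq : q ∈ Hit a (n + j + n') c s c' s') (i l : Fin 2) :
    |M a (n + j + n') q i l| ≤
      LL a ^ j * (1 + 1 / B) ^ 2 * (nn (M a n p) * nn (M a n' p')) := by
  obtain ⟨hqs, u, w, hq'⟩ := hq
  have h1 := ml_near hB hp hs2 hpc hqs
  have h2 := ml_near hB hp' hs2' hpc' hq'
  rw [M_sh, add_comm (n + j) n', Function.iterate_add_apply, nn_rev] at h2
  have h3 : nn (M a (n + j) q) ≤ LL a ^ j * nn (M a n q) := by
    have hj' : j = 0 ∨ j = 1 := by omega
    rcases hj' with rfl | rfl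
    · simp
    · rw [pow_one]
      exact nn_succ_le a n q
  have hL := LL_pos a
  have hB0 : 0 < B := by linarith
  calc |M a (n + j + n') q i l| ≤ nn (M a (n + j + n') q) := abs_entry_le _ _ _
    _ ≤ nn (M a n' ((F a)^[n + j] q)) * nn (M a (n + j) q) := by
        rw [M_add]
        exact nn_mul _ _
    _ ≤ ((1 + 1 / B) * nn (M a n' p')) * (LL a ^ j * ((1 + 1 / B) * nn (M a n p))) := by
        refine mul_le_mul h2 (h3.trans (mul_le_mul_of_nonneg_left h1 (by positivity)))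
          (nn_nonneg _) ?_
        have := nn_nonneg (M a n' p')
        positivity
    _ = _ := by ring

/-- the label of the swapped image of a point of a line -/
private noncomputable def mlh (a : ℝ) (N : ℕ) (k k' : Fin 2) (t : ℝ) (σ : ℝ) : ℝ :=
  lab k' (Prod.swap ((F a)^[N] (pt k t σ)))

private theorem mlh_deriv (a : ℝ) (N : ℕ) (k k' : Fin 2) (t σ : ℝ) :
    HasDerivAt (mlh a N k k' t) (M a N (pt k t σ) (if k' = 0 then 0 else 1) k) σ := by
  have h := hasDerivAt_line a N k t σ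
  by_cases hk : k' = 0
  · have e : mlh a N k k' t = fun u : ℝ => ((F a)^[N] (pt k t u)).1 := by
      funext u
      simp [mlh, lab, hk]
    rw [e, if_pos hk]
    exact h.1
  · have e : mlh a N k k' t = fun u : ℝ => ((F a)^[N] (pt k t u)).2 := by
      funext u
      simp [mlh, lab, hk]
    rw [e, if_neg hk]
    exact h.2

private theorem ml_pt_cont (k : Fin 2) (t : ℝ) : Continuous (fun σ : ℝ => pt k t σ) := by
  unfold pt
  split_ifs <;> fun_prop

private theorem mlh_cont (a : ℝ) (N : ℕ) (k k' : Fin 2) (t : ℝ) :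
    Continuous (mlh a N k k' t) :=
  continuous_iff_continuousAt.2 fun σ => (mlh_deriv a N k k' t σ).continuousAt

private theorem ml_slice {a B : ℝ} (hB : 100 ≤ B) (ha : 10 ≤ |a|) {n n' : ℕ}
    {p p' : ℝ × ℝ} (hp : Hyp a B n p) (hp' : Hyp a B n' p')
    {k k' : Fin 2} {m m' : ℝ} (hG : Good a B n p k m) (hG' : Good a B n' p' k' m')
    {c c' : ℝ × ℝ} {s s' : ℝ} (hs1 : B / (2 * nn (M a n p)) ≤ s) (hs2 : s ≤ B / nn (M a n p))
    (hpc : p ∈ sqo c s) (hs1' : B / (2 * nn (M a n' p')) ≤ s') (hs2' : s' ≤ B / nn (M a n' p'))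
    (hpc' : p' ∈ sqo c' s') (hs1'' : s' < 1) {j : ℕ} (hj : j ≤ 1) {t : ℝ}
    (ht : t ∈ Ioo (lab k c) (lab k c + s)) :
    ENNReal.ofReal s' ≤
      ENNReal.ofReal (LL a ^ j * (1 + 1 / B) ^ 2 * (nn (M a n p) * nn (M a n' p'))) *
        volume {σ : ℝ | pt k t σ ∈ Hit a (n + j + n') c s c' s'} := by
  set N := n + j + n' with hN
  set C := LL a ^ j * (1 + 1 / B) ^ 2 * (nn (M a n p) * nn (M a n' p')) with hC
  set S : Set ℝ := {σ : ℝ | pt k t σ ∈ Hit a N c s c' s'} with hS
  have hSm : MeasurableSet S :=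
    (ml_pt_cont k t).measurable (measurableSet_hit a N c s c' s')
  let T : ℤ → Set ℝ := fun i =>
    S ∩ (mlh a N k k' t) ⁻¹' Ico (lab k' c' - i) (lab k' c' + s' - i)
  have hTm : ∀ i, MeasurableSet (T i) := fun i =>
    hSm.inter ((mlh_cont a N k k' t).measurable measurableSet_Ico)
  have hTd : Pairwise (Function.onFun Disjoint T) := by
    intro i i' hii
    refine Set.disjoint_left.2 ?_
    rintro σ ⟨-, h1⟩ ⟨-, h2⟩
    rw [mem_preimage, mem_Ico] at h1 h2
    apply hii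
    have h3 : |((i : ℝ) - i')| < 1 := by
      rw [abs_lt]
      constructor <;> linarith [h1.1, h1.2, h2.1, h2.2]
    have h4 : |i - i'| < 1 := by
      have : ((|i - i'| : ℤ) : ℝ) < 1 := by
        push_cast
        exact h3
      exact_mod_cast this
    have h5 := Int.abs_lt_one_iff.1 h4
    omega
  have hcov : Ioo (lab k' c') (lab k' c' + s') ⊆
      ⋃ i : ℤ, (fun σ => mlh a N k k' t σ + i) '' T i := by
    intro t' ht'
    obtain ⟨σ, σ', hσ, hσ', u, w, huw⟩ :=
      cross_exists hB ha hG hG' hs1 hs2 hpc hs1' hs2' hpc' hj ht ht'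
    have h1 : (F a)^[N] (pt k t σ) =
        sh (Prod.swap (pt k' t' σ')) (u + n' * (u - w)) (w + n' * (u - w)) := by
      rw [hN, add_comm (n + j) n', Function.iterate_add_apply, huw, iter_sh, F_rev]
    set u' : ℤ := u + n' * (u - w) with hu'
    set w' : ℤ := w + n' * (u - w) with hw'
    have h2 : Prod.swap ((F a)^[N] (pt k t σ)) = sh (pt k' t' σ') w' u' := by
      rw [h1]
      simp [sh, Prod.swap]
    have h3 : sh (Prod.swap ((F a)^[N] (pt k t σ))) (-w') (-u') = pt k' t' σ' := by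
      rw [h2]
      simp [sh]
    have h4 : σ ∈ S := ⟨hσ, -w', -u', by rw [h3]; exact hσ'⟩
    have h5 : mlh a N k k' t σ = t' + ((if k' = 0 then u' else w' : ℤ) : ℝ) := by
      unfold mlh
      rw [h2]
      by_cases hk : k' = 0
      · simp [lab, sh, pt, hk]
      · simp [lab, sh, pt, hk]
    refine mem_iUnion.2 ⟨-(if k' = 0 then u' else w'), σ, ⟨h4, ?_⟩, ?_⟩
    · rw [mem_preimage, mem_Ico, h5]
      push_cast
      constructor <;> linarith [ht'.1, ht'.2]
    · simp only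
      rw [h5]
      push_cast
      ring
  have hbd : ∀ i : ℤ, volume ((fun σ => mlh a N k k' t σ + i) '' T i) ≤
      ENNReal.ofReal C * volume (T i) := by
    intro i
    have h1 := addHaar_image_le_lintegral_abs_det_fderiv (μ := (volume : Measure ℝ)) (hTm i)
      (f := fun σ => mlh a N k k' t σ + i)
      (fun σ _ => ((mlh_deriv a N k k' t σ).add_const (i : ℝ)).hasDerivWithinAt.hasFDerivWithinAt)
    refine h1.trans ?_
    simp only [ContinuousLinearMap.det_toSpanSingleton]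
    rw [← setLIntegral_const]
    refine setLIntegral_mono_ae' (hTm i) (Filter.Eventually.of_forall fun σ hσ => ?_)
    exact ENNReal.ofReal_le_ofReal (ml_deriv hB hp hp' hs2 hpc hs2' hpc' hj hσ.1 _ _)
  calc ENNReal.ofReal s' = volume (Ioo (lab k' c') (lab k' c' + s')) := by
        rw [Real.volume_Ioo]
        congr 1
        ring
    _ ≤ volume (⋃ i : ℤ, (fun σ => mlh a N k k' t σ + i) '' T i) := measure_mono hcov
    _ ≤ ∑' i : ℤ, volume ((fun σ => mlh a N k k' t σ + i) '' T i) := measure_iUnion_le _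
    _ ≤ ∑' i : ℤ, ENNReal.ofReal C * volume (T i) := ENNReal.tsum_le_tsum hbd
    _ = ENNReal.ofReal C * volume (⋃ i : ℤ, T i) := by
        rw [ENNReal.tsum_mul_left, measure_iUnion hTd hTm]
    _ ≤ ENNReal.ofReal C * volume S := by
        gcongr
        exact iUnion_subset fun i => inter_subset_left

private theorem ml_fubini (k : Fin 2) {S : Set (ℝ × ℝ)} (hS : MeasurableSet S) :
    volume S = ∫⁻ t : ℝ, volume {σ : ℝ | pt k t σ ∈ S} := by
  by_cases hk : k = 0
  · have e : ∀ t : ℝ, {σ : ℝ | pt k t σ ∈ S} = (fun x => (x, t)) ⁻¹' S := by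
      intro t
      ext σ
      simp [pt, hk]
    simp_rw [e]
    rw [Measure.volume_eq_prod, Measure.prod_apply_symm hS]
  · have e : ∀ t : ℝ, {σ : ℝ | pt k t σ ∈ S} = Prod.mk t ⁻¹' S := by
      intro t
      ext σ
      simp [pt, hk]
    simp_rw [e]
    rw [Measure.volume_eq_prod, Measure.prod_apply hS]

theorem hit_low {a B : ℝ} (hB : 100 ≤ B) (ha : 10 ≤ |a|) {n n' : ℕ}
    {p p' : ℝ × ℝ} (hp : Hyp a B n p) (hp' : Hyp a B n' p')
    {k k' : Fin 2} {m m' : ℝ} (hG : Good a B n p k m) (hG' : Good a B n' p' k' m')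
    {c c' : ℝ × ℝ} {s s' : ℝ} (hs1 : B / (2 * nn (M a n p)) ≤ s) (hs2 : s ≤ B / nn (M a n p))
    (hpc : p ∈ sqo c s) (hs1' : B / (2 * nn (M a n' p')) ≤ s') (hs2' : s' ≤ B / nn (M a n' p'))
    (hpc' : p' ∈ sqo c' s') (hs1'' : s' < 1) {j : ℕ} (hj : j ≤ 1) :
    ENNReal.ofReal (s ^ 2 * s' ^ 2 / (2 * B ^ 2 * LL a ^ j)) ≤
      volume (Hit a (n + j + n') c s c' s') := by
  have hB0 : 0 < B := by linarith
  have hL := LL_pos a
  have hΛ : 0 < nn (M a n p) := by have := two_le_nn a n p; linarith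
  have hΛ' : 0 < nn (M a n' p') := by have := two_le_nn a n' p'; linarith
  have hs0 : 0 < s := lt_of_lt_of_le (by positivity) hs1
  have hs0' : 0 < s' := lt_of_lt_of_le (by positivity) hs1'
  set C := LL a ^ j * (1 + 1 / B) ^ 2 * (nn (M a n p) * nn (M a n' p')) with hC
  have hC0 : 0 < C := by positivity
  have h1 : s ^ 2 * s' ^ 2 / (2 * B ^ 2 * LL a ^ j) ≤ s' / C * s := by
    rw [div_mul_eq_mul_div, div_le_div_iff₀ (by positivity) hC0]
    have h2 : s * nn (M a n p) ≤ B := by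
      rwa [le_div_iff₀ hΛ] at hs2
    have h3 : s' * nn (M a n' p') ≤ B := by
      rwa [le_div_iff₀ hΛ'] at hs2'
    have h4 : (1 + 1 / B) ^ 2 ≤ 2 := by
      have h5 : 1 / B ≤ 1 / 100 := by
        apply one_div_le_one_div_of_le (by norm_num) hB
      have h6 : 0 ≤ 1 / B := by positivity
      nlinarith
    have h7 : (s * nn (M a n p)) * (s' * nn (M a n' p')) ≤ B * B :=
      mul_le_mul h2 h3 (by positivity) hB0.le
    calc s ^ 2 * s' ^ 2 * C = (s' * s * LL a ^ j) * ((1 + 1 / B) ^ 2 *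
          ((s * nn (M a n p)) * (s' * nn (M a n' p')))) := by rw [hC]; ring
      _ ≤ (s' * s * LL a ^ j) * (2 * (B * B)) := by
          refine mul_le_mul_of_nonneg_left ?_ (by positivity)
          exact mul_le_mul h4 h7 (by positivity) (by norm_num)
      _ = s' * s * (2 * B ^ 2 * LL a ^ j) := by ring
  have h2 : ∀ t ∈ Ioo (lab k c) (lab k c + s), ENNReal.ofReal (s' / C) ≤
      volume {σ : ℝ | pt k t σ ∈ Hit a (n + j + n') c s c' s'} := by
    intro t ht
    have h3 := ml_slice hB ha hp hp' hG hG' hs1 hs2 hpc hs1' hs2' hpc' hs1'' hj ht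
    rw [← hC] at h3
    rw [ENNReal.ofReal_div_of_pos hC0]
    refine ENNReal.div_le_of_le_mul ?_
    rw [mul_comm]
    exact h3
  calc ENNReal.ofReal (s ^ 2 * s' ^ 2 / (2 * B ^ 2 * LL a ^ j))
      ≤ ENNReal.ofReal (s' / C * s) := ENNReal.ofReal_le_ofReal h1
    _ = ∫⁻ _ in Ioo (lab k c) (lab k c + s), ENNReal.ofReal (s' / C) := by
        rw [setLIntegral_const, Real.volume_Ioo, ENNReal.ofReal_mul (by positivity)]
        congr 2
        ring
    _ ≤ ∫⁻ t in Ioo (lab k c) (lab k c + s),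
        volume {σ : ℝ | pt k t σ ∈ Hit a (n + j + n') c s c' s'} := by
        refine setLIntegral_mono_ae' measurableSet_Ioo (Filter.Eventually.of_forall fun t ht => ?_)
        exact h2 t ht
    _ ≤ ∫⁻ t : ℝ, volume {σ : ℝ | pt k t σ ∈ Hit a (n + j + n') c s c' s'} :=
        setLIntegral_le_lintegral _ _
    _ = volume (Hit a (n + j + n') c s c' s') :=
        (ml_fubini k (measurableSet_hit a (n + j + n') c s c' s')).symm

end Pool.Agent.Helper18.UC
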