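import Pool.Agent.Helper18.UC.FD

/-! Block UC-NL: at a hyperbolic time the iterate is nearly linear on the square of radius
`B / ‖DS ^ n(p)‖`.

Write `Λ = nn (M a n p)`, `K = KK a B`, `r = B / Λ`, `e_i = sup over the closed ball of radius r of
nn (M a i q - M a i p)`. Claim `K ^ (2 (n - i)) e_i ≤ Λ / B`, induction on `i`, for all `q` in the ball at once.
`i = 0`: the difference is `0`. Step `i → i + 1 ≤ n`: for `q'` in the ball
`nn (M a i q') ≤ nn (M a i p) + e_i ≤ Λ K ^ -(n-i) + (Λ / B) K ^ (-2 (n-i)) ≤ 2 Λ K ^ -(n-i)` (by `Hyp`, `K ≥ 1`,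
`B ≥ 1`), so by `iter_dist_le` on the closed ball (convex) `dist (F^[i] q) (F^[i] p) ≤ 2 Λ K ^ -(n-i) r
= 2 B K ^ -(n-i)`. Now `M (i+1) q - M (i+1) p = A (F^[i] q) * (M i q - M i p) + (A (F^[i] q) - A (F^[i] p)) * M i p`;
the second matrix difference has the single entry `vv - vv`, at most `7 LL * 2 B K ^ -(n-i)` (`vv_lip`). So
`nn (..) ≤ LL e_i + 14 LL B K ^ -(n-i) K ^ -(n-i) Λ ≤ LL (1 / B + 14 B) K ^ (-2 (n-i)) Λ
≤ (1 / B) 16 B² LL K ^ (-2 (n-i)) Λ = (1 / B) K ^ (-2 (n-(i+1))) Λ` because `1 + 14 B² ≤ 16 B²`. (`KK_sq`.) -/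

set_option autoImplicit false
open MeasureTheory Real Set

namespace Pool.Agent.Helper18.UC

theorem near_linear {a B : ℝ} (hB : 1 ≤ B) {n : ℕ} {p q : ℝ × ℝ} (hp : Hyp a B n p)
    (hq : dist q p ≤ B / nn (M a n p)) :
    ∀ i ≤ n, KK a B ^ (2 * (n - i)) * nn (M a i q - M a i p) ≤ nn (M a n p) / B := by
  have hB0 : 0 < B := by linarith
  have hK0 : 0 < KK a B := KK_pos a hB0
  have hL4 : 4 ≤ LL a := LL_ge a
  have hL0 : 0 < LL a := LL_pos a
  have hK1 : 1 ≤ KK a B := by
    have h1 := KK_sq a B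
    have h2 : 1 ≤ KK a B ^ 2 := by
      rw [h1]
      nlinarith [mul_le_mul hB hB (by norm_num) hB0.le]
    nlinarith
  have hΛ : 0 < nn (M a n p) := by have := two_le_nn a n p; linarith
  set Λ := nn (M a n p) with hΛdef
  intro i
  induction i generalizing q with
  | zero =>
    intro _
    rw [M_zero, M_zero, sub_self]
    have h0 : nn (0 : Matrix (Fin 2) (Fin 2) ℝ) = 0 := by unfold nn; simp
    rw [h0, mul_zero]
    positivity
  | succ i ih =>
    intro hi
    have hi' : i ≤ n := by omega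
    set X := KK a B ^ (2 * (n - (i + 1))) with hX
    set P := KK a B ^ (n - i) with hP
    have hX0 : 0 < X := pow_pos hK0 _
    have hP0 : 0 < P := pow_pos hK0 _
    have hP1 : 1 ≤ P := one_le_pow₀ hK1
    have hPX : KK a B ^ (2 * (n - i)) = P ^ 2 := by
      rw [hP, ← pow_mul, mul_comm 2]
    have hPX2 : P ^ 2 = X * (16 * B ^ 2 * LL a) := by
      rw [← KK_sq, hX, ← pow_add, ← hPX]
      congr 1
      omega
    have hμ : P * nn (M a i p) ≤ Λ := hp i hi'
    have hμ' : nn (M a i p) ≤ Λ / P := by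
      rw [le_div_iff₀ hP0]
      linarith
    have he : ∀ q' : ℝ × ℝ, dist q' p ≤ B / Λ → nn (M a i q' - M a i p) ≤ Λ / (B * P ^ 2) := by
      intro q' hq'
      have h1 := ih hq' hi'
      rw [hPX] at h1
      have h2 : nn (M a i q' - M a i p) ≤ (Λ / B) / P ^ 2 := by
        rw [le_div_iff₀ (by positivity)]
        linarith
      rw [div_div] at h2
      exact h2
    have hball : ∀ q' ∈ Metric.closedBall p (B / Λ), nn (M a i q') ≤ 2 * Λ / P := by
      intro q' hq'
      have h1 := nn_sub_le (M a i q') (M a i p)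
      have h2 := he q' (Metric.mem_closedBall.1 hq')
      have h3 : Λ / (B * P ^ 2) ≤ Λ / P := by
        refine div_le_div_of_nonneg_left hΛ.le hP0 ?_
        nlinarith [mul_le_mul hB (le_refl (P ^ 2)) (by positivity) hB0.le]
      have h4 : 2 * Λ / P = Λ / P + Λ / P := by ring
      linarith
    have hdist : dist ((F a)^[i] q) ((F a)^[i] p) ≤ 2 * B / P := by
      have h1 := iter_dist_le a i (convex_closedBall p (B / Λ)) hball
        (Metric.mem_closedBall_self (by positivity)) (Metric.mem_closedBall.2 hq)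
      have h2 : 2 * Λ / P * dist q p ≤ 2 * Λ / P * (B / Λ) :=
        mul_le_mul_of_nonneg_left hq (by positivity)
      have h3 : 2 * Λ / P * (B / Λ) = 2 * B / P := by field_simp
      linarith
    have hA : nn (A a ((F a)^[i] q) - A a ((F a)^[i] p)) ≤ 14 * LL a * B / P := by
      have h1 : nn (A a ((F a)^[i] q) - A a ((F a)^[i] p)) =
          |vv a ((F a)^[i] q).1 - vv a ((F a)^[i] p).1| := by
        unfold nn A
        simp
      have h2 := vv_lip a ((F a)^[i] q).1 ((F a)^[i] p).1
      have h3 : |((F a)^[i] q).1 - ((F a)^[i] p).1| ≤ dist ((F a)^[i] q) ((F a)^[i] p) := by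
        rw [Prod.dist_eq, Real.dist_eq]
        exact le_max_left _ _
      have h4 : 7 * LL a * |((F a)^[i] q).1 - ((F a)^[i] p).1| ≤ 7 * LL a * (2 * B / P) :=
        mul_le_mul_of_nonneg_left (h3.trans hdist) (by positivity)
      have h5 : 7 * LL a * (2 * B / P) = 14 * LL a * B / P := by ring
      rw [h1]
      linarith
    have hdec : M a (i + 1) q - M a (i + 1) p = A a ((F a)^[i] q) * (M a i q - M a i p) +
        (A a ((F a)^[i] q) - A a ((F a)^[i] p)) * M a i p := by
      rw [M_succ, M_succ, mul_sub, sub_mul]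
      abel
    have hT : nn (M a (i + 1) q - M a (i + 1) p) ≤
        LL a * (Λ / (B * P ^ 2)) + 14 * LL a * B / P * (Λ / P) := by
      rw [hdec]
      refine (nn_add_le _ _).trans (add_le_add ?_ ?_)
      · exact (nn_mul _ _).trans (mul_le_mul (nn_A_le a _) (he q hq) (nn_nonneg _) hL0.le)
      · exact (nn_mul _ _).trans (mul_le_mul hA hμ' (nn_nonneg _) (by positivity))
    calc X * nn (M a (i + 1) q - M a (i + 1) p)
        ≤ X * (LL a * (Λ / (B * P ^ 2)) + 14 * LL a * B / P * (Λ / P)) :=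
          mul_le_mul_of_nonneg_left hT hX0.le
      _ = (X * LL a * Λ / P ^ 2) * (1 / B + 14 * B) := by field_simp
      _ = (Λ / (16 * B ^ 2)) * (1 / B + 14 * B) := by
          rw [hPX2]
          congr 1
          field_simp
      _ ≤ (Λ / (16 * B ^ 2)) * (16 * B) := by
          refine mul_le_mul_of_nonneg_left ?_ (by positivity)
          have h1 : 1 / B ≤ 1 := by
            rw [div_le_one hB0]
            exact hB
          linarith
      _ = Λ / B := by field_simp

end Pool.Agent.Helper18.UC
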