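import Pool.Agent.Helper18.UC.Sums

/-! Block UC-POS: the two abstract conclusions.

`pos`: `θ > 0` because `log K < c`. Put `μ = vol E`, `μ' = vol E'`, `h0 = θ μ / 2`, `h0' = θ μ' / 2`,
`b = 1 / (2 B² LL)` (`≤ 1 / (2 B²)`, `LL ≥ 4`), `η = b h0 h0' / 4`, `ε = min (h0) (h0')`; `family_fwd`, `family_bwd` with `n1 = 1`, `sum_low` with
`j = 0` and `j = 1` (same families): both measures are `≥ b h0 h0' - 2 η > 0`. `N = n + n'`.
`big`: `E` invariant, `μ = vol E > 0`. With `ε → 0`, `η → 0`: there are `h, h'` with `h, h' ≥ θ μ - ε`, `h, h' ≤ μ + ...` and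
`h + h' - (1 + δ) h h' ≤ μ + 2 η`, `δ = 100/B`. Put `x = θ μ - ε` (assume `x ≥ 0`). If `(1 + δ) h' ≤ 1`, then
`h + h' - (1+δ) h h' = h (1 - (1+δ) h') + h' ≥ x (1 - (1+δ) h') + h' = x + h' (1 - (1+δ) x) ≥ x + x (1 - (1+δ) x)` provided `(1+δ) x ≤ 1`
(true since `x ≤ h'`). If `(1 + δ) h' > 1`: `h' ≤ μ + η h'`... since `⋃₀ 𝒬'` is almost inside `swap⁻¹ E`, `h' ≤ μ + η`, so
`μ ≥ 1 / (1 + δ) - η`. Letting `ε, η → 0`: either `μ ≥ 1 / (1 + δ)` or `μ ≥ 2 θ μ - (1 + δ) θ² μ²`, i.e.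
`1 ≥ 2 θ - (1 + δ) θ² μ`. In both cases `(1 + δ) μ θ² ≥ 2 θ - 1` (in the first case `θ² ≥ 2 θ - 1`). -/

set_option autoImplicit false
open MeasureTheory Real Set Filter

namespace Pool.Agent.Helper18.UC

variable {a : ℝ} {S : T2 → T2}

private lemma h31_KK {a B : ℝ} (hB : 100 ≤ B) (hLK : 2 * KK a B ≤ LL a) :
    0 < Real.log (LL a) - Real.log (KK a B) := by
  have h1 : 0 < KK a B := KK_pos a (by linarith)
  have h2 : KK a B < LL a := by linarith
  have := Real.log_lt_log h1 h2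
  linarith

private lemma h31_real_pos {E : Set T2} (h : volume E ≠ 0) : 0 < volume.real E :=
  ENNReal.toReal_pos h (measure_ne_top _ _)

theorem pos (hS : IsS a S) {B c : ℝ} (hB : 100 ≤ B) (ha : 10 ≤ |a|) (hLK : 2 * KK a B ≤ LL a)
    (hc : Real.log (KK a B) < c) (hc2 : c ≤ Real.log (LL a)) {Ω : Set T2} (hΩ : MeasurableSet Ω)
    (hinv : S ⁻¹' Ω = Ω) (hP : ∀ z ∈ Ω, ∀ᶠ N : ℕ in atTop, z ∈ PN a c N) {E E' : Set T2}
    (hE : MeasurableSet E) (hEΩ : E ⊆ Ω) (hE' : MeasurableSet E') (hEΩ' : E' ⊆ Ω)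
    (hm : volume E ≠ 0) (hm' : volume E' ≠ 0) :
    ∃ N : ℕ, volume (E ∩ S^[N] ⁻¹' E') ≠ 0 ∧ volume (E ∩ S^[N + 1] ⁻¹' E') ≠ 0 := by
  have hD := h31_KK hB hLK
  set θ := (c - Real.log (KK a B)) / (Real.log (LL a) - Real.log (KK a B)) with hθ
  have hθ0 : 0 < θ := div_pos (by linarith) hD
  have hμ := h31_real_pos hm
  have hμ' := h31_real_pos hm'
  set μ := volume.real E with hμd
  set μ' := volume.real E' with hμd'
  have hL := LL_ge a
  have hBp : 0 < B := by linarith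
  set b : ℝ := 1 / (2 * B ^ 2 * LL a) with hb
  have hb0 : 0 < b := by positivity
  have hx : 0 < θ * μ / 2 := by positivity
  have hx' : 0 < θ * μ' / 2 := by positivity
  set x := θ * μ / 2 with hxd
  set x' := θ * μ' / 2 with hxd'
  set η : ℝ := b * (x * x') / 4 with hη
  have hη0 : 0 < η := by positivity
  obtain ⟨n, 𝒬, hn, hF, hh⟩ := family_fwd hB hLK hc.le hc2 hΩ hP hE hEΩ hη0 hx 1
  obtain ⟨n', 𝒬', hn', hF', hh'⟩ := family_bwd hS hB hLK hc.le hc2 hΩ hinv hP hE' hEΩ' hη0 hx' 1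
  rw [← hθ, ← hμd] at hh
  rw [← hθ, ← hμd'] at hh'
  have k1 : x ≤ volume.real (⋃₀ 𝒬) := by linarith
  have k2 : x' ≤ volume.real (⋃₀ 𝒬') := by linarith
  have k3 : x * x' ≤ volume.real (⋃₀ 𝒬) * volume.real (⋃₀ 𝒬') :=
    mul_le_mul k1 k2 hx'.le (hx.le.trans k1)
  have k4 : b ≤ 1 / (2 * B ^ 2 * LL a ^ 0) := by
    rw [hb, pow_zero, mul_one]
    apply one_div_le_one_div_of_le (by positivity)
    have : 0 ≤ 2 * B ^ 2 := by positivity
    nlinarith
  have k5 : b = 1 / (2 * B ^ 2 * LL a ^ 1) := by rw [hb, pow_one]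
  have s0 := sum_low hS hB ha hn hn' hE hE' hη0.le hF hF' (j := 0) (by norm_num)
  have s1 := sum_low hS hB ha hn hn' hE hE' hη0.le hF hF' (j := 1) le_rfl
  rw [← k5] at s1
  have p0 : 0 < x * x' := mul_pos hx hx'
  have k6 : b * (x * x') ≤ b * (volume.real (⋃₀ 𝒬) * volume.real (⋃₀ 𝒬')) :=
    mul_le_mul_of_nonneg_left k3 hb0.le
  have k7 : b * (volume.real (⋃₀ 𝒬) * volume.real (⋃₀ 𝒬')) ≤
      1 / (2 * B ^ 2 * LL a ^ 0) * (volume.real (⋃₀ 𝒬) * volume.real (⋃₀ 𝒬')) :=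
    mul_le_mul_of_nonneg_right k4 (p0.le.trans k3)
  have k8 : 0 < b * (x * x') := mul_pos hb0 p0
  refine ⟨n + n', fun h0 => ?_, fun h0 => ?_⟩
  · have e : volume.real (E ∩ S^[n + 0 + n'] ⁻¹' E') = 0 := by
      rw [add_zero, measureReal_def, h0, ENNReal.toReal_zero]
    rw [e] at s0
    linarith
  · have e : volume.real (E ∩ S^[n + 1 + n'] ⁻¹' E') = 0 := by
      rw [show n + 1 + n' = n + n' + 1 by ring, measureReal_def, h0, ENNReal.toReal_zero]
    rw [e] at s1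
    linarith

/-- the union of a family is almost inside the set -/
private lemma h31_union {B : ℝ} {n : ℕ} {E : Set T2} (hE : MeasurableSet E) {η : ℝ} (hη : 0 ≤ η)
    {𝒬 : Set (Set T2)} (hF : Fam a B n E η 𝒬) : volume.real (⋃₀ 𝒬) ≤ volume.real E + η := by
  obtain ⟨hc, hd, hcell, hv⟩ := hF
  have hmeas : ∀ Q ∈ 𝒬, MeasurableSet Q := by
    intro Q hQ
    obtain ⟨κ, z, rfl, -⟩ := hcell Q hQ
    exact measurableSet_cell κ z
  have h1 : volume (⋃₀ 𝒬 \ E) ≤ ENNReal.ofReal η * volume (⋃₀ 𝒬) := by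
    have e1 : ⋃₀ 𝒬 \ E = ⋃ Q ∈ 𝒬, (Q \ E) := by
      ext z
      simp only [Set.mem_sdiff, mem_sUnion, mem_iUnion]
      constructor
      · rintro ⟨⟨Q, hQ, hz⟩, hzE⟩
        exact ⟨Q, hQ, hz, hzE⟩
      · rintro ⟨Q, hQ, hz, hzE⟩
        exact ⟨⟨Q, hQ, hz⟩, hzE⟩
    rw [e1, measure_sUnion hc hd hmeas, ← ENNReal.tsum_mul_left]
    refine (measure_biUnion_le volume hc _).trans ?_
    exact ENNReal.tsum_le_tsum fun Q => hv Q Q.2
  have h2 : volume (⋃₀ 𝒬) ≤ 1 := by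
    refine (measure_mono (subset_univ _)).trans (le_of_eq ?_)
    rw [← univ_prod_univ, Measure.volume_eq_prod, Measure.prod_prod, UnitAddCircle.measure_univ, mul_one]
  have h3 : volume (⋃₀ 𝒬) ≤ volume E + ENNReal.ofReal η := by
    calc volume (⋃₀ 𝒬) ≤ volume (E ∪ (⋃₀ 𝒬 \ E)) := measure_mono (by
            intro z hz
            by_cases h : z ∈ E
            · exact Or.inl h
            · exact Or.inr ⟨hz, h⟩)
      _ ≤ volume E + volume (⋃₀ 𝒬 \ E) := measure_union_le _ _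
      _ ≤ volume E + ENNReal.ofReal η := by
          gcongr
          refine h1.trans ?_
          calc ENNReal.ofReal η * volume (⋃₀ 𝒬) ≤ ENNReal.ofReal η * 1 := by gcongr
            _ = ENNReal.ofReal η := mul_one _
  have h4 := ENNReal.toReal_mono (by finiteness) h3
  rw [ENNReal.toReal_add (by finiteness) (by finiteness), ENNReal.toReal_ofReal hη] at h4
  exact h4

private lemma h31_swap {E : Set T2} (hE : MeasurableSet E) :
    volume.real (Prod.swap ⁻¹' E : Set T2) = volume.real E := by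
  have h : MeasurePreserving (Prod.swap : T2 → T2) volume volume := Measure.measurePreserving_swap
  rw [measureReal_def, measureReal_def, h.measure_preimage hE.nullMeasurableSet]

theorem big (hS : IsS a S) {B c : ℝ} (hB : 100 ≤ B) (hLK : 2 * KK a B ≤ LL a)
    (hc : Real.log (KK a B) < c) (hc2 : c ≤ Real.log (LL a)) {E : Set T2} (hE : MeasurableSet E)
    (hinv : S ⁻¹' E = E) (hP : ∀ z ∈ E, ∀ᶠ N : ℕ in atTop, z ∈ PN a c N) (hm : volume E ≠ 0)
    {θ : ℝ} (hθ : θ = (c - Real.log (KK a B)) / (Real.log (LL a) - Real.log (KK a B))) :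
    2 * θ - 1 ≤ (1 + 100 / B) * θ ^ 2 * volume.real E := by
  have hD := h31_KK hB hLK
  have hμ := h31_real_pos hm
  set μ := volume.real E with hμd
  set w : ℝ := 1 + 100 / B with hw
  have hBp : 0 < B := by linarith
  have hw0 : 1 ≤ w := by
    have : 0 ≤ 100 / B := by positivity
    linarith
  have hw2 : w ≤ 2 := by
    have : 100 / B ≤ 1 := by rw [div_le_one hBp]; exact hB
    linarith
  have hθ0 : 0 < θ := by rw [hθ]; exact div_pos (by linarith) hD
  by_cases hcase : 1 ≤ w * μ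
  · have h1 : θ ^ 2 * 1 ≤ θ ^ 2 * (w * μ) := mul_le_mul_of_nonneg_left hcase (by positivity)
    nlinarith [sq_nonneg (θ - 1)]
  rw [not_le] at hcase
  -- `f 0 ≤ μ`
  have key : 2 * (θ * μ) - w * (θ * μ) ^ 2 ≤ μ := by
    by_contra hcon
    rw [not_le] at hcon
    set d := 2 * (θ * μ) - w * (θ * μ) ^ 2 - μ with hd
    have hd0 : 0 < d := by rw [hd]; linarith
    set ε : ℝ := min (min (d / 8) 1) ((1 - w * μ) / 2) with hε
    have hε0 : 0 < ε := by
      rw [hε]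
      exact lt_min (lt_min (by linarith) one_pos) (by linarith)
    have e1 : ε ≤ d / 8 := (min_le_left _ _).trans (min_le_left _ _)
    have e2 : ε ≤ 1 := (min_le_left _ _).trans (min_le_right _ _)
    have e3 : ε ≤ (1 - w * μ) / 2 := min_le_right _ _
    obtain ⟨n, 𝒬, hn, hF, hh⟩ := family_fwd hB hLK hc.le hc2 hE hP hE subset_rfl hε0 hε0 1
    obtain ⟨n', 𝒬', hn', hF', hh'⟩ :=
      family_bwd hS hB hLK hc.le hc2 hE hinv hP hE subset_rfl hε0 hε0 1
    rw [← hθ, ← hμd] at hh hh'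
    have hu := sum_up hS hB hn hn' hE hinv hε0.le hF hF'
    have hx' := h31_union (measurable_swap hE) hε0.le hF'
    rw [h31_swap hE, ← hμd] at hx'
    rw [← hμd, ← hw] at hu
    set h := volume.real (⋃₀ 𝒬) with hhd
    set h' := volume.real (⋃₀ 𝒬') with hhd'
    have g1 : w * h' ≤ 1 := by
      have : w * h' ≤ w * (μ + ε) := mul_le_mul_of_nonneg_left hx' (by linarith)
      nlinarith
    set s := θ * μ - ε with hs
    have g2 : w * s ≤ 1 := by
      have : w * s ≤ w * h' := mul_le_mul_of_nonneg_left hh' (by linarith)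
      linarith
    have g3 : 0 ≤ (h - s) * (1 - w * h') := mul_nonneg (by linarith) (by linarith)
    have g4 : 0 ≤ (h' - s) * (1 - w * s) := mul_nonneg (by linarith) (by linarith)
    have g5 : 2 * s - w * s ^ 2 ≤ μ + 2 * ε := by nlinarith
    have g6 : 2 * s - w * s ^ 2 = 2 * (θ * μ) - w * (θ * μ) ^ 2 - 2 * ε + 2 * w * (θ * μ) * ε - w * ε ^ 2 := by
      rw [hs]; ring
    have g7 : 0 ≤ 2 * w * (θ * μ) * ε := by positivity
    have g8 : w * ε ^ 2 ≤ 2 * ε := by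
      have : ε ^ 2 ≤ ε := by nlinarith
      nlinarith
    linarith
  have h2 : μ * (2 * θ - 1) ≤ μ * (w * θ ^ 2 * μ) := by nlinarith
  exact le_of_mul_le_mul_left h2 hμ

end Pool.Agent.Helper18.UC
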