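import Pool.Agent.Helper18.UC.MeasLow
import Pool.Agent.Helper18.UC.MeasUp
import Pool.Agent.Helper18.UC.Cell

/-! Block UC-TORUS: the torus map, and the two crossing estimates for cells.

* `S_iter`: `S (toT q) = toT (F q)`, induction.
* `S_mp`: `S` preserves `volume`; `S` is a homeomorphism with inverse `swap ∘ S ∘ swap` (`F_rev` with `n = 1`). Measure
  preservation: the map is `(x, y) ↦ (f x - y, x)`; for fixed `x` the map `y ↦ f x - y` preserves the Haar measure of the circle
  (`MeasureTheory.measurePreserving_sub_left`?), so use `MeasurePreserving.skew_product` and `swap`; similar proofs are in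
  `Pool/Agent/Helper18/SD` and `Pool/Agent/Helper78/SM` (look for the measure preservation of the standard map there).
* `S_rev`: `S^[n] (swap (S^[n] z)) = swap z` from `F_rev`.
* `cell_hit`: `{w ∈ cell κ z | swap (S^[N] w) ∈ cell κ' z'}` is the set of `w` with `rep w ∈ Hit a N (corner κ z) 2^-κ (corner κ' z') 2^-κ'`:
  `rep (swap (S^[N] w))` and `swap (F^[N] (rep w))` differ by an integer vector, and a point of the plane has exactly one integer
  translate in `[0,1)²`. Then `vol_rep`, `cell_sub`.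
* `cell_low`, `cell_up`: from `hit_low`, `hit_up`, `exists_good`, `vol_cell` (`n ≥ 1`, `n' ≥ 1`). -/

set_option autoImplicit false
open MeasureTheory Real Set

namespace Pool.Agent.Helper18.UC

/-- `S` is the standard map on the torus -/
def IsS (a : ℝ) (S : T2 → T2) : Prop :=
  ∀ x y : ℝ, S ((x : UnitAddCircle), (y : UnitAddCircle)) =
    (((2 * x - y + a * Real.sin (2 * π * x) : ℝ) : UnitAddCircle), (x : UnitAddCircle))

variable {a : ℝ} {S : T2 → T2}

theorem S_iter (hS : IsS a S) (n : ℕ) (q : ℝ × ℝ) : S^[n] (toT q) = toT ((F a)^[n] q) := by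
  induction n with
  | zero => rfl
  | succ n ih =>
    rw [Function.iterate_succ_apply', ih, Function.iterate_succ_apply']
    exact hS _ _

private theorem S_eq (hS : IsS a S) (z : T2) : S z = toT (F a (rep z)) := by
  have h := S_iter hS 1 (rep z)
  rw [toT_rep] at h
  exact h

theorem S_mp (hS : IsS a S) : MeasurePreserving S volume volume := by
  have hmeas : Measurable S := by
    have h1 : S = fun z => toT (F a (rep z)) := funext (S_eq hS)
    rw [h1]
    exact measurable_toT.comp ((F_cont a).measurable.comp measurable_rep)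
  set φ : UnitAddCircle → UnitAddCircle := fun x => (S (x, 0)).1 with hφ
  have hφm : Measurable φ :=
    measurable_fst.comp (hmeas.comp (measurable_id.prodMk measurable_const))
  have hform : ∀ z : T2, S z = (φ z.1 - z.2, z.1) := by
    rintro ⟨x, y⟩
    obtain ⟨x, rfl⟩ := QuotientAddGroup.mk_surjective x
    obtain ⟨y, rfl⟩ := QuotientAddGroup.mk_surjective y
    have h1 := hS x y
    have h2 := hS x 0
    have h3 : φ (x : UnitAddCircle) = ((2 * x - 0 + a * Real.sin (2 * π * x) : ℝ) : UnitAddCircle) := by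
      rw [hφ]
      have h4 : ((0 : ℝ) : UnitAddCircle) = 0 := AddCircle.coe_zero 1
      rw [← h4]
      simp only
      rw [h2]
    refine h1.trans ?_
    refine Prod.ext ?_ rfl
    change _ = φ (x : UnitAddCircle) - (y : UnitAddCircle)
    rw [h3, ← AddCircle.coe_sub]
    exact congrArg (fun t : ℝ => (t : UnitAddCircle)) (by ring)
  have h5 : MeasurePreserving (fun p : T2 => (p.1, φ p.1 - p.2)) volume volume := by
    have h6 := MeasurePreserving.skew_product (μa := (volume : Measure UnitAddCircle))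
      (μb := (volume : Measure UnitAddCircle)) (μc := (volume : Measure UnitAddCircle))
      (μd := (volume : Measure UnitAddCircle)) (f := id) (g := fun x y => φ x - y)
      (MeasurePreserving.id _) ((hφm.comp measurable_fst).sub measurable_snd)
      (Filter.Eventually.of_forall fun x => (Measure.measurePreserving_sub_left volume (φ x)).map_eq)
    exact h6
  have h7 : MeasurePreserving (Prod.swap : T2 → T2) volume volume := Measure.measurePreserving_swap
  have h8 := h7.comp h5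
  have h9 : S = Prod.swap ∘ fun p : T2 => (p.1, φ p.1 - p.2) := by
    funext z
    rw [hform z]
    rfl
  rw [h9]
  exact h8

theorem S_rev (hS : IsS a S) (n : ℕ) (z : T2) : S^[n] (Prod.swap (S^[n] z)) = Prod.swap z := by
  have h1 : S^[n] z = toT ((F a)^[n] (rep z)) := by
    rw [← S_iter hS, toT_rep]
  have h2 : Prod.swap (toT ((F a)^[n] (rep z))) = toT (Prod.swap ((F a)^[n] (rep z))) := rfl
  rw [h1, h2, S_iter hS, F_rev]
  have h3 : toT (Prod.swap (rep z)) = Prod.swap (toT (rep z)) := rfl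
  rw [h3, toT_rep]

theorem nn_rep (hS : IsS a S) (n m : ℕ) (z : T2) :
    nn (M a n (rep (S^[m] z))) = nn (M a n ((F a)^[m] (rep z))) := by
  have h1 : S^[m] z = toT ((F a)^[m] (rep z)) := by
    rw [← S_iter hS, toT_rep]
  obtain ⟨u, w, h⟩ := rep_toT ((F a)^[m] (rep z))
  rw [h1, h, M_sh]

theorem nn_rep_rev (hS : IsS a S) (n : ℕ) (z : T2) :
    nn (M a n (rep (Prod.swap (S^[n] z)))) = nn (M a n (rep z)) := by
  have h1 : Prod.swap (S^[n] z) = toT (Prod.swap ((F a)^[n] (rep z))) := by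
    have : S^[n] z = toT ((F a)^[n] (rep z)) := by
      rw [← S_iter hS, toT_rep]
    rw [this]
    rfl
  obtain ⟨u, w, h⟩ := rep_toT (Prod.swap ((F a)^[n] (rep z)))
  rw [h1, h, M_sh, nn_rev]

/-- the cells `cell κ z` and `cell κ' z'` have the right size for the times `n`, `n'` -/
def Fit (a B : ℝ) (n κ : ℕ) (z : T2) : Prop :=
  Hyp a B n (rep z) ∧ B / (2 * nn (M a n (rep z))) ≤ 1 / 2 ^ κ ∧ 1 / 2 ^ κ ≤ B / nn (M a n (rep z)) ∧
    1 ≤ κ

/-- A point of the plane has at most one integer translate in the unit square. -/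
private theorem sh_unique {p : ℝ × ℝ} {u v u' v' : ℤ} (h : sh p u v ∈ Ico (0:ℝ) 1 ×ˢ Ico (0:ℝ) 1)
    (h' : sh p u' v' ∈ Ico (0:ℝ) 1 ×ˢ Ico (0:ℝ) 1) : sh p u v = sh p u' v' := by
  have key : ∀ (x : ℝ) (i j : ℤ), x + i ∈ Ico (0:ℝ) 1 → x + j ∈ Ico (0:ℝ) 1 → i = j := by
    intro x i j hi hj
    have h1 : (i : ℝ) < j + 1 := by linarith [hi.2, hj.1]
    have h2 : (j : ℝ) < i + 1 := by linarith [hi.1, hj.2]
    have h3 : i < j + 1 := by exact_mod_cast h1
    have h4 : j < i + 1 := by exact_mod_cast h2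
    omega
  have e1 := key _ _ _ h.1 h'.1
  have e2 := key _ _ _ h.2 h'.2
  rw [e1, e2]

private theorem cell_hit (hS : IsS a S) (N κ κ' : ℕ) (z z' : T2) :
    cell κ z ∩ {w | Prod.swap (S^[N] w) ∈ cell κ' z'} =
      rep ⁻¹' Hit a N (corner κ z) (1 / 2 ^ κ) (corner κ' z') (1 / 2 ^ κ') := by
  ext w
  have h1 : Prod.swap (S^[N] w) = toT (Prod.swap ((F a)^[N] (rep w))) := by
    have : S^[N] w = toT ((F a)^[N] (rep w)) := by
      rw [← S_iter hS, toT_rep]
    rw [this]
    rfl
  obtain ⟨u, v, huv⟩ := rep_toT (Prod.swap ((F a)^[N] (rep w)))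
  rw [mem_inter_iff, mem_cell_iff, mem_ofPred_eq, mem_cell_iff, h1, huv, mem_preimage]
  constructor
  · rintro ⟨h2, h3⟩
    exact ⟨h2, u, v, h3⟩
  · rintro ⟨h2, u', v', h3⟩
    refine ⟨h2, ?_⟩
    have h4 := rep_mem (toT (Prod.swap ((F a)^[N] (rep w))))
    rw [huv] at h4
    rw [sh_unique h4 (cell_sub κ' z' h3)]
    exact h3

private theorem vol_cell_hit (hS : IsS a S) (N κ κ' : ℕ) (z z' : T2) :
    volume (cell κ z ∩ {w | Prod.swap (S^[N] w) ∈ cell κ' z'}) =
      volume (Hit a N (corner κ z) (1 / 2 ^ κ) (corner κ' z') (1 / 2 ^ κ')) := by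
  rw [cell_hit hS, vol_rep (measurableSet_hit _ _ _ _ _ _)]
  congr 1
  refine inter_eq_left.2 fun q hq => cell_sub κ z hq.1

private theorem inv_pow_lt_one {κ : ℕ} (h : 1 ≤ κ) : (1 : ℝ) / 2 ^ κ < 1 := by
  rw [div_lt_one (by positivity)]
  exact one_lt_pow₀ (by norm_num) (by omega)

theorem cell_low (hS : IsS a S) {B : ℝ} (hB : 100 ≤ B) (ha : 10 ≤ |a|) {n n' κ κ' : ℕ}
    (hn : 1 ≤ n) (hn' : 1 ≤ n') {z z' : T2} (hz : Fit a B n κ z) (hz' : Fit a B n' κ' z')
    {j : ℕ} (hj : j ≤ 1) :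
    ENNReal.ofReal (1 / (2 * B ^ 2 * LL a ^ j)) * (volume (cell κ z) * volume (cell κ' z')) ≤
      volume (cell κ z ∩ {w | Prod.swap (S^[n + j + n'] w) ∈ cell κ' z'}) := by
  obtain ⟨hp, h1, h2, h3⟩ := hz
  obtain ⟨hp', h1', h2', h3'⟩ := hz'
  obtain ⟨k, m, hG⟩ := exists_good hB hn hp
  obtain ⟨k', m', hG'⟩ := exists_good hB hn' hp'
  have h4 := hit_low hB ha hp hp' hG hG' (c := corner κ z) (c' := corner κ' z') h1 h2
    ((mem_cell_iff κ z z).1 (mem_cell_self κ z)) h1' h2'
    ((mem_cell_iff κ' z' z').1 (mem_cell_self κ' z')) (inv_pow_lt_one h3') hj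
  rw [vol_cell_hit hS, vol_cell, vol_cell]
  refine le_trans (le_of_eq ?_) h4
  have hL := LL_pos a
  rw [← ENNReal.ofReal_mul (by positivity), ← ENNReal.ofReal_mul (by positivity)]
  congr 1
  ring

theorem cell_up (hS : IsS a S) {B : ℝ} (hB : 100 ≤ B) {n n' κ κ' : ℕ}
    (hn : 1 ≤ n) (hn' : 1 ≤ n') {z z' : T2} (hz : Fit a B n κ z) (hz' : Fit a B n' κ' z') :
    volume (cell κ z ∩ {w | Prod.swap (S^[n + n'] w) ∈ cell κ' z'}) ≤
      ENNReal.ofReal (1 + 100 / B) * (volume (cell κ z) * volume (cell κ' z')) := by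
  obtain ⟨hp, h1, h2, h3⟩ := hz
  obtain ⟨hp', h1', h2', h3'⟩ := hz'
  obtain ⟨k, m, hG⟩ := exists_good hB hn hp
  obtain ⟨k', m', hG'⟩ := exists_good hB hn' hp'
  have h4 := hit_up hB hp hp' hG hG' (c := corner κ z) (c' := corner κ' z') h1 h2
    ((mem_cell_iff κ z z).1 (mem_cell_self κ z)) h1' h2'
    ((mem_cell_iff κ' z' z').1 (mem_cell_self κ' z')) (inv_pow_lt_one h3')
  rw [vol_cell_hit hS, vol_cell, vol_cell]
  refine h4.trans (le_of_eq ?_)
  have hB0 : 0 < B := by linarith
  rw [← ENNReal.ofReal_mul (by positivity), ← ENNReal.ofReal_mul (by positivity)]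

end Pool.Agent.Helper18.UC
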