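import Pool.Agent.Helper18.UC.Strips

/-! Block UC-SUMS: summing the crossing estimates over the two families.

`Θ w = swap (S^[N] w)` is measurable and preserves volume. Families `𝒬` (for `E`, time `n`) and `𝒬'` (for `E'' = swap ⁻¹' E'`, time
`n'`).
`sum_low`: for `j ≤ 1`, `N = n + j + n'`: the sets `X Q Q' = Q ∩ Θ ⁻¹' Q'` are pairwise disjoint, their union is
`⋃₀ 𝒬 ∩ Θ ⁻¹' (⋃₀ 𝒬')`, and by `cell_low` each has measure at least `b vol Q vol Q'`, `b = 1 / (2 B² LL^j)`; so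
`vol (⋃₀ 𝒬 ∩ Θ⁻¹ ⋃₀ 𝒬') ≥ b h h'`. The part of it outside `E ∩ S^-N E'` is contained in `(⋃₀ 𝒬 \ E) ∪ Θ⁻¹ (⋃₀ 𝒬' \ E'')`
(`w ∈ Θ⁻¹ E''` means `S^[N] w ∈ E'`), of measure at most `η h + η h' ≤ 2 η`. So
`vol (E ∩ S^-N E') ≥ b h h' - 2 η`.
`sum_up`: `j = 0`: `vol (⋃₀ 𝒬 ∩ Θ⁻¹ ⋃₀ 𝒬') ≤ (1 + 100/B) h h'` by `cell_up`, so
`vol (⋃₀ 𝒬 ∪ Θ⁻¹ ⋃₀ 𝒬') ≥ h + h' - (1 + 100/B) h h'`; if `E = E'` is invariant, `⋃₀ 𝒬 ∪ Θ⁻¹ ⋃₀ 𝒬'` is in `E` up to measure `2 η`. -/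

set_option autoImplicit false
open MeasureTheory Real Set Filter

namespace Pool.Agent.Helper18.UC

variable {a : ℝ} {S : T2 → T2}

private lemma fam_meas {B : ℝ} {n : ℕ} {E : Set T2} {η : ℝ} {𝒬 : Set (Set T2)}
    (hQ : Fam a B n E η 𝒬) : ∀ Q ∈ 𝒬, MeasurableSet Q := by
  intro Q h
  obtain ⟨κ, z, rfl, -⟩ := hQ.2.2.1 Q h
  exact measurableSet_cell κ z

private lemma fam_sUnion_meas {B : ℝ} {n : ℕ} {E : Set T2} {η : ℝ} {𝒬 : Set (Set T2)}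
    (hQ : Fam a B n E η 𝒬) : MeasurableSet (⋃₀ 𝒬) :=
  MeasurableSet.sUnion hQ.1 (fam_meas hQ)

private lemma sUnion_tsum {𝒬 : Set (Set T2)} (hc : 𝒬.Countable) (hd : 𝒬.PairwiseDisjoint id)
    (hm : ∀ Q ∈ 𝒬, MeasurableSet Q) (μ : Measure T2) : μ (⋃₀ 𝒬) = ∑' Q : 𝒬, μ Q :=
  measure_sUnion hc hd hm

private lemma double_tsum {𝒬 𝒬' : Set (Set T2)} (hc : 𝒬.Countable) (hd : 𝒬.PairwiseDisjoint id)
    (hm : ∀ Q ∈ 𝒬, MeasurableSet Q) (hc' : 𝒬'.Countable) (hd' : 𝒬'.PairwiseDisjoint id)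
    (hm' : ∀ Q ∈ 𝒬', MeasurableSet Q) {Θ : T2 → T2} (hΘ : Measurable Θ) :
    volume (⋃₀ 𝒬 ∩ Θ ⁻¹' (⋃₀ 𝒬')) =
      ∑' Q : 𝒬, ∑' Q' : 𝒬', volume ((Q : Set T2) ∩ Θ ⁻¹' (Q' : Set T2)) := by
  have hU' : MeasurableSet (⋃₀ 𝒬') := MeasurableSet.sUnion hc' hm'
  have hU : MeasurableSet (⋃₀ 𝒬) := MeasurableSet.sUnion hc hm
  rw [← Measure.restrict_apply hU, sUnion_tsum hc hd hm]
  refine tsum_congr fun Q => ?_
  have hQm : MeasurableSet (Q : Set T2) := hm Q Q.2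
  rw [Measure.restrict_apply hQm, inter_comm (Q : Set T2),
    ← Measure.restrict_apply (hΘ hU'), ← Measure.map_apply hΘ hU', sUnion_tsum hc' hd' hm']
  refine tsum_congr fun Q' => ?_
  have hQm' : MeasurableSet (Q' : Set T2) := hm' Q' Q'.2
  rw [Measure.map_apply hΘ hQm', Measure.restrict_apply (hΘ hQm'), inter_comm]

private lemma prod_tsum {𝒬 𝒬' : Set (Set T2)} (hc : 𝒬.Countable) (hd : 𝒬.PairwiseDisjoint id)
    (hm : ∀ Q ∈ 𝒬, MeasurableSet Q) (hc' : 𝒬'.Countable) (hd' : 𝒬'.PairwiseDisjoint id)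
    (hm' : ∀ Q ∈ 𝒬', MeasurableSet Q) (b : ENNReal) :
    ∑' Q : 𝒬, ∑' Q' : 𝒬', b * (volume (Q : Set T2) * volume (Q' : Set T2)) =
      b * (volume (⋃₀ 𝒬) * volume (⋃₀ 𝒬')) := by
  rw [sUnion_tsum hc hd hm volume, sUnion_tsum hc' hd' hm' volume, ← ENNReal.tsum_mul_right,
    ← ENNReal.tsum_mul_left]
  refine tsum_congr fun Q => ?_
  rw [← ENNReal.tsum_mul_left, ← ENNReal.tsum_mul_left]

private lemma vol_univ : volume (univ : Set T2) = 1 := by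
  rw [Measure.volume_eq_prod, ← univ_prod_univ, Measure.prod_prod, UnitAddCircle.measure_univ, mul_one]

private lemma fam_diff {B : ℝ} {n : ℕ} {E : Set T2} {η : ℝ} {𝒬 : Set (Set T2)}
    (hE : MeasurableSet E) (hη : 0 ≤ η) (hQ : Fam a B n E η 𝒬) :
    volume.real (⋃₀ 𝒬 \ E) ≤ η := by
  have h1 : volume (⋃₀ 𝒬 \ E) ≤ ENNReal.ofReal η := by
    have hm := fam_meas hQ
    have hU : MeasurableSet (⋃₀ 𝒬) := fam_sUnion_meas hQ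
    calc volume (⋃₀ 𝒬 \ E) = (volume.restrict Eᶜ) (⋃₀ 𝒬) := by
          rw [Measure.restrict_apply hU]; rfl
      _ = ∑' Q : 𝒬, (volume.restrict Eᶜ) Q := sUnion_tsum hQ.1 hQ.2.1 hm _
      _ ≤ ∑' Q : 𝒬, ENNReal.ofReal η * volume (Q : Set T2) := by
          refine ENNReal.tsum_le_tsum fun Q => ?_
          rw [Measure.restrict_apply (hm Q Q.2)]
          exact hQ.2.2.2 Q Q.2
      _ = ENNReal.ofReal η * volume (⋃₀ 𝒬) := by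
          rw [ENNReal.tsum_mul_left, sUnion_tsum hQ.1 hQ.2.1 hm volume]
      _ ≤ ENNReal.ofReal η * 1 := by
          have h1 : volume (⋃₀ 𝒬) ≤ 1 := (measure_mono (subset_univ _)).trans vol_univ.le
          exact mul_le_mul_right h1 _
      _ = ENNReal.ofReal η := mul_one _
  exact ENNReal.toReal_le_of_le_ofReal hη h1

private lemma theta_mp (hS : IsS a S) (N : ℕ) :
    MeasurePreserving (fun w => Prod.swap (S^[N] w)) (volume : Measure T2) volume := by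
  have h1 : MeasurePreserving (S^[N]) (volume : Measure T2) volume := (S_mp hS).iterate N
  have h2 : MeasurePreserving (Prod.swap : T2 → T2) volume volume :=
    Measure.measurePreserving_swap
  exact h2.comp h1

theorem sum_low (hS : IsS a S) {B : ℝ} (hB : 100 ≤ B) (ha : 10 ≤ |a|) {n n' : ℕ} (hn : 1 ≤ n)
    (hn' : 1 ≤ n') {E E' : Set T2} (hE : MeasurableSet E) (hE' : MeasurableSet E') {η : ℝ}
    (hη : 0 ≤ η) {𝒬 𝒬' : Set (Set T2)} (hQ : Fam a B n E η 𝒬)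
    (hQ' : Fam a B n' (Prod.swap ⁻¹' E') η 𝒬') {j : ℕ} (hj : j ≤ 1) :
    1 / (2 * B ^ 2 * LL a ^ j) * (volume.real (⋃₀ 𝒬) * volume.real (⋃₀ 𝒬')) - 2 * η ≤
      volume.real (E ∩ S^[n + j + n'] ⁻¹' E') := by
  set N := n + j + n' with hN
  set Θ : T2 → T2 := fun w => Prod.swap (S^[N] w) with hΘd
  have hΘ : MeasurePreserving Θ volume volume := theta_mp hS N
  have hm := fam_meas hQ
  have hm' := fam_meas hQ'
  have hU := fam_sUnion_meas hQ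
  have hU' := fam_sUnion_meas hQ'
  have hE'' : MeasurableSet (Prod.swap ⁻¹' E' : Set T2) := measurable_swap hE'
  have hb0 : 0 ≤ 1 / (2 * B ^ 2 * LL a ^ j) := by
    have := LL_pos a
    positivity
  have key : 1 / (2 * B ^ 2 * LL a ^ j) * (volume.real (⋃₀ 𝒬) * volume.real (⋃₀ 𝒬')) ≤
      volume.real (⋃₀ 𝒬 ∩ Θ ⁻¹' (⋃₀ 𝒬')) := by
    have h : ENNReal.ofReal (1 / (2 * B ^ 2 * LL a ^ j)) * (volume (⋃₀ 𝒬) * volume (⋃₀ 𝒬')) ≤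
        volume (⋃₀ 𝒬 ∩ Θ ⁻¹' (⋃₀ 𝒬')) := by
      rw [double_tsum hQ.1 hQ.2.1 hm hQ'.1 hQ'.2.1 hm' hΘ.measurable,
        ← prod_tsum hQ.1 hQ.2.1 hm hQ'.1 hQ'.2.1 hm']
      refine ENNReal.tsum_le_tsum fun Q => ENNReal.tsum_le_tsum fun Q' => ?_
      obtain ⟨κ, z, hz, hf⟩ := hQ.2.2.1 Q Q.2
      obtain ⟨κ', z', hz', hf'⟩ := hQ'.2.2.1 Q' Q'.2
      rw [hz, hz']
      exact cell_low hS hB ha hn hn' hf hf' hj
    have h2 := ENNReal.toReal_mono (measure_ne_top _ _) h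
    rwa [ENNReal.toReal_mul, ENNReal.toReal_mul, ENNReal.toReal_ofReal hb0] at h2
  have hsub : ⋃₀ 𝒬 ∩ Θ ⁻¹' (⋃₀ 𝒬') ⊆
      (E ∩ S^[N] ⁻¹' E') ∪ ((⋃₀ 𝒬 \ E) ∪ Θ ⁻¹' (⋃₀ 𝒬' \ (Prod.swap ⁻¹' E'))) := by
    rintro w ⟨h1, h2⟩
    by_cases h3 : w ∈ E
    · by_cases h4 : S^[N] w ∈ E'
      · exact Or.inl ⟨h3, h4⟩
      · refine Or.inr (Or.inr ⟨h2, ?_⟩)
        intro h5
        apply h4
        have : Prod.swap (Prod.swap (S^[N] w)) ∈ E' := h5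
        rwa [Prod.swap_swap] at this
    · exact Or.inr (Or.inl ⟨h1, h3⟩)
  have hd1 : volume.real (⋃₀ 𝒬 \ E) ≤ η := fam_diff hE hη hQ
  have hd2 : volume.real (Θ ⁻¹' (⋃₀ 𝒬' \ (Prod.swap ⁻¹' E'))) ≤ η := by
    rw [Measure.real, hΘ.measure_preimage (hU'.diff hE'').nullMeasurableSet]
    exact fam_diff hE'' hη hQ'
  have h1 : volume.real (⋃₀ 𝒬 ∩ Θ ⁻¹' (⋃₀ 𝒬')) ≤
      volume.real (E ∩ S^[N] ⁻¹' E') + (volume.real (⋃₀ 𝒬 \ E) +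
        volume.real (Θ ⁻¹' (⋃₀ 𝒬' \ (Prod.swap ⁻¹' E')))) :=
    (measureReal_mono hsub).trans ((measureReal_union_le _ _).trans
      (add_le_add le_rfl (measureReal_union_le _ _)))
  linarith

theorem sum_up (hS : IsS a S) {B : ℝ} (hB : 100 ≤ B) {n n' : ℕ} (hn : 1 ≤ n)
    (hn' : 1 ≤ n') {E : Set T2} (hE : MeasurableSet E) (hinv : S ⁻¹' E = E) {η : ℝ}
    (hη : 0 ≤ η) {𝒬 𝒬' : Set (Set T2)} (hQ : Fam a B n E η 𝒬)
    (hQ' : Fam a B n' (Prod.swap ⁻¹' E) η 𝒬') :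
    volume.real (⋃₀ 𝒬) + volume.real (⋃₀ 𝒬') -
        (1 + 100 / B) * (volume.real (⋃₀ 𝒬) * volume.real (⋃₀ 𝒬')) - 2 * η ≤ volume.real E := by
  set N := n + n' with hN
  set Θ : T2 → T2 := fun w => Prod.swap (S^[N] w) with hΘd
  have hΘ : MeasurePreserving Θ volume volume := theta_mp hS N
  have hm := fam_meas hQ
  have hm' := fam_meas hQ'
  have hU := fam_sUnion_meas hQ
  have hU' := fam_sUnion_meas hQ'
  have hE'' : MeasurableSet (Prod.swap ⁻¹' E : Set T2) := measurable_swap hE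
  have hb0 : 0 ≤ 1 + 100 / B := by positivity
  have key : volume.real (⋃₀ 𝒬 ∩ Θ ⁻¹' (⋃₀ 𝒬')) ≤
      (1 + 100 / B) * (volume.real (⋃₀ 𝒬) * volume.real (⋃₀ 𝒬')) := by
    have h : volume (⋃₀ 𝒬 ∩ Θ ⁻¹' (⋃₀ 𝒬')) ≤
        ENNReal.ofReal (1 + 100 / B) * (volume (⋃₀ 𝒬) * volume (⋃₀ 𝒬')) := by
      rw [double_tsum hQ.1 hQ.2.1 hm hQ'.1 hQ'.2.1 hm' hΘ.measurable,
        ← prod_tsum hQ.1 hQ.2.1 hm hQ'.1 hQ'.2.1 hm']
      refine ENNReal.tsum_le_tsum fun Q => ENNReal.tsum_le_tsum fun Q' => ?_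
      obtain ⟨κ, z, hz, hf⟩ := hQ.2.2.1 Q Q.2
      obtain ⟨κ', z', hz', hf'⟩ := hQ'.2.2.1 Q' Q'.2
      rw [hz, hz']
      exact cell_up hS hB hn hn' hf hf'
    have hfin : ENNReal.ofReal (1 + 100 / B) * (volume (⋃₀ 𝒬) * volume (⋃₀ 𝒬')) ≠ ⊤ :=
      ENNReal.mul_ne_top ENNReal.ofReal_ne_top
        (ENNReal.mul_ne_top (measure_ne_top _ _) (measure_ne_top _ _))
    have h2 := ENNReal.toReal_mono hfin h
    rwa [ENNReal.toReal_mul, ENNReal.toReal_mul, ENNReal.toReal_ofReal hb0] at h2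
  have hinvN : S^[N] ⁻¹' E = E := by
    clear_value N
    clear key hΘ hΘd Θ hN
    induction N with
    | zero => rfl
    | succ k ih => rw [Function.iterate_succ, preimage_comp, ih, hinv]
  have hsub : ⋃₀ 𝒬 ∪ Θ ⁻¹' (⋃₀ 𝒬') ⊆
      E ∪ ((⋃₀ 𝒬 \ E) ∪ Θ ⁻¹' (⋃₀ 𝒬' \ (Prod.swap ⁻¹' E))) := by
    intro w hw
    by_cases h3 : w ∈ E
    · exact Or.inl h3
    · rcases hw with h1 | h2
      · exact Or.inr (Or.inl ⟨h1, h3⟩)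
      · refine Or.inr (Or.inr ⟨h2, ?_⟩)
        intro h5
        apply h3
        have h6 : Prod.swap (Prod.swap (S^[N] w)) ∈ E := h5
        rw [Prod.swap_swap] at h6
        have h7 : w ∈ S^[N] ⁻¹' E := h6
        rwa [hinvN] at h7
  have hd1 : volume.real (⋃₀ 𝒬 \ E) ≤ η := fam_diff hE hη hQ
  have hd2 : volume.real (Θ ⁻¹' (⋃₀ 𝒬' \ (Prod.swap ⁻¹' E))) ≤ η := by
    rw [Measure.real, hΘ.measure_preimage (hU'.diff hE'').nullMeasurableSet]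
    exact fam_diff hE'' hη hQ'
  have h1 : volume.real (⋃₀ 𝒬 ∪ Θ ⁻¹' (⋃₀ 𝒬')) ≤
      volume.real E + (volume.real (⋃₀ 𝒬 \ E) +
        volume.real (Θ ⁻¹' (⋃₀ 𝒬' \ (Prod.swap ⁻¹' E)))) :=
    (measureReal_mono hsub).trans ((measureReal_union_le _ _).trans
      (add_le_add le_rfl (measureReal_union_le _ _)))
  have h2 : volume.real (⋃₀ 𝒬 ∪ Θ ⁻¹' (⋃₀ 𝒬')) + volume.real (⋃₀ 𝒬 ∩ Θ ⁻¹' (⋃₀ 𝒬')) =
      volume.real (⋃₀ 𝒬) + volume.real (Θ ⁻¹' (⋃₀ 𝒬')) :=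
    measureReal_union_add_inter (hΘ.measurable hU')
  have h3 : volume.real (Θ ⁻¹' (⋃₀ 𝒬')) = volume.real (⋃₀ 𝒬') := by
    rw [Measure.real, hΘ.measure_preimage hU'.nullMeasurableSet]
    rfl
  linarith

end Pool.Agent.Helper18.UC
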